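import Pool.Agent.Helper26.LV.Defs
import Pool.Agent.Helper89.Lambert

set_option autoImplicit false

namespace Pool.Agent.Helper26.LV

open Finset Filter Topology Pool.Agent.Helper89.Lambert

/-- solutions of a congruence in a progression -/
theorem card_ap_gen (c M δ T : ℕ) (hδ : 0 < δ) :
    (((range T).filter fun t => δ ∣ c + t * M).card : ℝ) ≤ T * (Nat.gcd δ M : ℝ) / δ + 1 := by
  have hδR : (0 : ℝ) < δ := by exact_mod_cast hδ
  rcases ((range T).filter fun t => δ ∣ c + t * M).eq_empty_or_nonempty with h0 | ⟨t0, ht0⟩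
  · rw [h0]
    simp only [card_empty, Nat.cast_zero]
    positivity
  have hg : 0 < Nat.gcd δ M := Nat.gcd_pos_of_pos_left M hδ
  obtain ⟨δ', hδ'⟩ := Nat.gcd_dvd_left δ M
  obtain ⟨M', hM'⟩ := Nat.gcd_dvd_right δ M
  set g := Nat.gcd δ M with hgdef
  have hd0 : g ∣ c + t0 * M := (Nat.gcd_dvd_left δ M).trans (mem_filter.1 ht0).2
  have hgc : g ∣ c := by
    have h2 : g ∣ t0 * M := (Nat.gcd_dvd_right δ M).mul_left t0
    exact (Nat.dvd_add_left h2).1 hd0
  obtain ⟨c', hc'⟩ := hgc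
  have hcop : Nat.Coprime δ' M' := by
    have h := Nat.coprime_div_gcd_div_gcd (m := δ) (n := M) (by rw [← hgdef]; exact hg)
    rw [← hgdef] at h
    have e1 : δ / g = δ' := Nat.div_eq_of_eq_mul_right hg hδ'
    have e2 : M / g = M' := Nat.div_eq_of_eq_mul_right hg hM'
    rw [e1, e2] at h
    exact h
  have heq : ((range T).filter fun t => δ ∣ c + t * M) =
      ((range T).filter fun t => δ' ∣ c' + t * M') := by
    apply filter_congr
    intro t _
    have e : c + t * M = g * (c' + t * M') := by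
      rw [hc', hM']; ring
    rw [e]
    conv_lhs => rw [hδ']
    exact Nat.mul_dvd_mul_iff_left hg
  rw [heq]
  have h1 := card_ap_le c' M' δ' hcop T
  have hδ'0 : 0 < δ' := Nat.pos_of_ne_zero (by rintro rfl; omega)
  have hδ'R : (0 : ℝ) < δ' := by exact_mod_cast hδ'0
  have hgR : (0 : ℝ) < g := by exact_mod_cast hg
  calc ((((range T).filter fun t => δ' ∣ c' + t * M').card : ℕ) : ℝ)
      ≤ ((T / δ' + 1 : ℕ) : ℝ) := by exact_mod_cast h1
    _ ≤ (T : ℝ) / δ' + 1 := by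
        push_cast
        have := Nat.cast_div_le (α := ℝ) (m := T) (n := δ')
        linarith
    _ = T * (g : ℝ) / δ + 1 := by
        have : (δ : ℝ) = g * δ' := by exact_mod_cast hδ'
        rw [this]
        field_simp

theorem avgA_harm (X : ℕ) (_hX : 1 ≤ X) : ∑ q ∈ Icc 1 X, (1 : ℝ) / q ≤ 1 + Real.log X := by
  have h := harmonic_le_one_add_log X
  have h2 : (harmonic X : ℝ) = ∑ q ∈ Icc 1 X, (1 : ℝ) / q := by
    rw [harmonic_eq_sum_Icc]
    push_cast
    exact sum_congr rfl fun q _ => by rw [one_div]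
  rw [← h2]
  exact_mod_cast h

/-- average of the sum of the inverses of the prime factors `> w` -/
theorem avg_primes (w y M T X c : ℕ) (hw : 0 < w) (hy : 0 < y) (hc : 0 < c) (ps : Finset ℕ)
    (hps : ∀ q : ℕ, q.Prime → w < q → q ∣ M → q ∈ ps) (hpy : ∀ q ∈ ps, y < q)
    (hX : ∀ t < T, c + t * M ≤ X) (hX1 : 1 ≤ X) :
    ∑ t ∈ range T, ∑ q ∈ (c + t * M).primeFactors.filter (w < ·), (1 : ℝ) / q ≤
      T * (1 / w) + (1 + Real.log X) + ps.card * (T / y) := by
  classical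
  set Q : Finset ℕ := (Ioc w X).filter Nat.Prime with hQ
  have hyR : (0 : ℝ) < y := by exact_mod_cast hy
  have h1 : ∀ t ∈ range T, ∑ q ∈ (c + t * M).primeFactors.filter (w < ·), (1 : ℝ) / q ≤
      ∑ q ∈ Q, if q ∣ c + t * M then (1 : ℝ) / q else 0 := by
    intro t ht
    rw [← sum_filter]
    apply sum_le_sum_of_subset_of_nonneg
    · intro q hq
      rw [mem_filter] at hq
      have hqp := Nat.prime_of_mem_primeFactors hq.1
      have hqd := Nat.dvd_of_mem_primeFactors hq.1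
      have hle : q ≤ X := (Nat.le_of_dvd (by omega) hqd).trans (hX t (mem_range.1 ht))
      rw [mem_filter, hQ, mem_filter, mem_Ioc]
      exact ⟨⟨⟨hq.2, hle⟩, hqp⟩, hqd⟩
    · intro q _ _
      positivity
  have h2 : ∀ q ∈ Q, ∑ t ∈ range T, (if q ∣ c + t * M then (1 : ℝ) / q else 0) ≤
      T * ((q : ℝ) ^ 2)⁻¹ + 1 / q + if q ∈ ps then (T : ℝ) / y else 0 := by
    intro q hq
    rw [hQ, mem_filter, mem_Ioc] at hq
    have hq0 : 0 < q := hq.2.pos
    have hqR : (0 : ℝ) < q := by exact_mod_cast hq0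
    rw [← sum_filter, sum_const, nsmul_eq_mul]
    by_cases hqM : q ∣ M
    · have hqps := hps q hq.2 hq.1.1 hqM
      rw [if_pos hqps]
      have h3 : ((((range T).filter fun t => q ∣ c + t * M).card : ℕ) : ℝ) ≤ T := by
        have := card_filter_le (range T) (fun t => q ∣ c + t * M)
        rw [card_range] at this
        exact_mod_cast this
      have h4 : (1 : ℝ) / q ≤ 1 / y := by
        apply one_div_le_one_div_of_le hyR
        exact_mod_cast (hpy q hqps).le
      have h5 : ((((range T).filter fun t => q ∣ c + t * M).card : ℕ) : ℝ) * (1 / q) ≤ T * (1 / y) :=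
        mul_le_mul h3 h4 (by positivity) (by positivity)
      have h6 : (T : ℝ) * (1 / y) = T / y := by ring
      have h7 : (0 : ℝ) ≤ T * ((q : ℝ) ^ 2)⁻¹ + 1 / q := by positivity
      linarith
    · have hcop : Nat.gcd q M = 1 := (Nat.Prime.coprime_iff_not_dvd hq.2).2 hqM
      have h3 := card_ap_gen c M q T hq0
      rw [hcop] at h3
      have h4 : ((((range T).filter fun t => q ∣ c + t * M).card : ℕ) : ℝ) * (1 / q) ≤
          (T * ((1 : ℕ) : ℝ) / q + 1) * (1 / q) := mul_le_mul_of_nonneg_right h3 (by positivity)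
      have h5 : (T * ((1 : ℕ) : ℝ) / q + 1) * (1 / q) = T * ((q : ℝ) ^ 2)⁻¹ + 1 / q := by
        push_cast
        field_simp
      have h6 : (0 : ℝ) ≤ if q ∈ ps then (T : ℝ) / y else 0 := by
        split_ifs <;> positivity
      linarith
  have hb1 : ∑ q ∈ Q, (T : ℝ) * ((q : ℝ) ^ 2)⁻¹ ≤ T * (1 / w) := by
    rw [← mul_sum]
    apply mul_le_mul_of_nonneg_left _ (Nat.cast_nonneg T)
    rcases le_or_gt w X with hwX | hwX
    · calc ∑ q ∈ Q, ((q : ℝ) ^ 2)⁻¹ ≤ ∑ q ∈ Ioc w X, ((q : ℝ) ^ 2)⁻¹ :=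
            sum_le_sum_of_subset_of_nonneg (filter_subset _ _) fun _ _ _ => by positivity
        _ ≤ (w : ℝ)⁻¹ - (X : ℝ)⁻¹ := sum_Ioc_inv_sq_le_sub hw.ne' hwX
        _ ≤ 1 / w := by
            rw [one_div]
            have : (0 : ℝ) ≤ (X : ℝ)⁻¹ := by positivity
            linarith
    · have : Q = ∅ := by
        rw [hQ, Ioc_eq_empty (by omega), filter_empty]
      rw [this, sum_empty]
      positivity
  have hb2 : ∑ q ∈ Q, (1 : ℝ) / q ≤ 1 + Real.log X := by
    refine le_trans (sum_le_sum_of_subset_of_nonneg ?_ fun _ _ _ => by positivity) (avgA_harm X hX1)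
    intro q hq
    rw [hQ, mem_filter, mem_Ioc] at hq
    rw [mem_Icc]
    exact ⟨hq.2.pos, hq.1.2⟩
  have hb3 : ∑ q ∈ Q, (if q ∈ ps then (T : ℝ) / y else 0) ≤ ps.card * (T / y) := by
    rw [← sum_filter, sum_const, nsmul_eq_mul]
    apply mul_le_mul_of_nonneg_right _ (by positivity)
    have : (Q.filter (· ∈ ps)).card ≤ ps.card :=
      card_le_card fun q hq => (mem_filter.1 hq).2
    exact_mod_cast this
  calc ∑ t ∈ range T, ∑ q ∈ (c + t * M).primeFactors.filter (w < ·), (1 : ℝ) / q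
      ≤ ∑ t ∈ range T, ∑ q ∈ Q, (if q ∣ c + t * M then (1 : ℝ) / q else 0) := sum_le_sum h1
    _ = ∑ q ∈ Q, ∑ t ∈ range T, (if q ∣ c + t * M then (1 : ℝ) / q else 0) := sum_comm
    _ ≤ ∑ q ∈ Q, (T * ((q : ℝ) ^ 2)⁻¹ + 1 / q + if q ∈ ps then (T : ℝ) / y else 0) :=
        sum_le_sum h2
    _ = ∑ q ∈ Q, (T : ℝ) * ((q : ℝ) ^ 2)⁻¹ + ∑ q ∈ Q, (1 : ℝ) / q +
        ∑ q ∈ Q, (if q ∈ ps then (T : ℝ) / y else 0) := by
        rw [sum_add_distrib, sum_add_distrib]
    _ ≤ _ := by linarith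

/-- average number of divisors -/
theorem avg_div (c M T D j : ℕ) (hc : 0 < c) (hD : ∀ t < T, c + t * M ≤ D * D) (hD1 : 1 ≤ D)
    (hg : ∀ t < T, ∀ δ, δ ∣ c + t * M → Nat.gcd δ M ≤ j) :
    ∑ t ∈ range T, ((c + t * M).divisors.card : ℝ) ≤ 2 * (T * j * (1 + Real.log D) + D) := by
  classical
  have h1 : ∀ t ∈ range T, ((c + t * M).divisors.card : ℝ) ≤
      2 * ∑ d ∈ Icc 1 D, (if d ∣ c + t * M then (1 : ℝ) else 0) := by
    intro t ht
    have := card_divisors_le_two_mul (c + t * M) D (hD t (mem_range.1 ht))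
    rw [← sum_filter, sum_const, nsmul_eq_mul, mul_one]
    exact_mod_cast this
  have h2 : ∀ d ∈ Icc 1 D, ∑ t ∈ range T, (if d ∣ c + t * M then (1 : ℝ) else 0) ≤
      (T * j : ℝ) * (1 / d) + 1 := by
    intro d hd
    have hd1 : 0 < d := (mem_Icc.1 hd).1
    have hdR : (0 : ℝ) < d := by exact_mod_cast hd1
    rw [← sum_filter, sum_const, nsmul_eq_mul, mul_one]
    rcases ((range T).filter fun t => d ∣ c + t * M).eq_empty_or_nonempty with h0 | ⟨t0, ht0⟩
    · rw [h0]
      simp only [card_empty, Nat.cast_zero]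
      positivity
    · rw [mem_filter, mem_range] at ht0
      have hgj : (Nat.gcd d M : ℝ) ≤ j := by exact_mod_cast hg t0 ht0.1 d ht0.2
      have h3 := card_ap_gen c M d T hd1
      have h4 : (T : ℝ) * (Nat.gcd d M : ℝ) / d ≤ (T * j : ℝ) * (1 / d) := by
        rw [mul_one_div]
        apply div_le_div_of_nonneg_right _ hdR.le
        exact mul_le_mul_of_nonneg_left hgj (Nat.cast_nonneg T)
      linarith
  calc ∑ t ∈ range T, ((c + t * M).divisors.card : ℝ)
      ≤ ∑ t ∈ range T, 2 * ∑ d ∈ Icc 1 D, (if d ∣ c + t * M then (1 : ℝ) else 0) := sum_le_sum h1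
    _ = 2 * ∑ d ∈ Icc 1 D, ∑ t ∈ range T, (if d ∣ c + t * M then (1 : ℝ) else 0) := by
        rw [← mul_sum, sum_comm]
    _ ≤ 2 * ∑ d ∈ Icc 1 D, ((T * j : ℝ) * (1 / d) + 1) :=
        mul_le_mul_of_nonneg_left (sum_le_sum h2) (by norm_num)
    _ = 2 * ((T * j : ℝ) * ∑ d ∈ Icc 1 D, (1 : ℝ) / d + D) := by
        rw [sum_add_distrib, ← mul_sum]
        simp
    _ ≤ 2 * (T * j * (1 + Real.log D) + D) := by
        have h5 := avgA_harm D hD1
        have h6 : (T * j : ℝ) * ∑ d ∈ Icc 1 D, (1 : ℝ) / d ≤ T * j * (1 + Real.log D) :=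
          mul_le_mul_of_nonneg_left h5 (by positivity)
        linarith

end Pool.Agent.Helper26.LV
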