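import Pool.Agent.Helper26.LV.AvgA

set_option autoImplicit false

namespace Pool.Agent.Helper26.LV

open Finset Filter Topology Pool.Agent.Helper89.Lambert

theorem AvgB_gcd_prod {ι : Type*} [DecidableEq ι] (s : Finset ι) (b : ℕ) (f : ι → ℕ) :
    Nat.gcd b (∏ x ∈ s, f x) ∣ ∏ x ∈ s, Nat.gcd b (f x) := by
  induction s using Finset.induction_on with
  | empty => simp
  | insert a s ha ih =>
    rw [Finset.prod_insert ha, Finset.prod_insert ha]
    exact (Nat.gcd_mul_right_dvd_mul_gcd b (f a) _).trans (mul_dvd_mul_left _ ih)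

theorem AvgB_gcd_pow {p b v : ℕ} (hp : p.Prime) (hb : b ≠ 0) :
    Nat.gcd b (p ^ v) ≤ p ^ b.factorization p := by
  obtain ⟨i, hi, hi'⟩ := (Nat.dvd_prime_pow hp).1 (Nat.gcd_dvd_right b (p ^ v))
  rw [hi']
  refine Nat.pow_le_pow_right hp.pos ?_
  rw [← hp.pow_dvd_iff_le_factorization hb, ← hi']
  exact Nat.gcd_dvd_left b (p ^ v)

theorem AvgB_gcd {k : ℕ} (m : ℕ) (hm : 0 < m) (p : Fin k × Fin k → ℕ)
    (hp : ∀ x, (p x).Prime) (hpk : ∀ x, k < p x) (n₀ : ℕ)
    (hn₀ : (W k).factorial ^ (k + 1) ∣ n₀)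
    (hfac : ∀ t x, (n₀ + t * Mod m p + (x.1 : ℕ) + 1).factorization (p x) = 2 * m - 1)
    (j : ℕ) (hj1 : 1 ≤ j) (hjk : j ≤ k) (t b : ℕ) (hb : b ≠ 0)
    (hbt : b ∣ n₀ + t * Mod m p + j) : Nat.gcd b (Mod m p) ≤ k * GG m p b := by
  have hR : (W k).factorial ^ (k + 1) ∣ n₀ + t * Mod m p :=
    dvd_add hn₀ (Dvd.dvd.mul_left (Dvd.intro _ rfl) t)
  have h1 : Nat.gcd b ((W k).factorial ^ (k + 1)) ≤ k := by
    have h2 : Nat.gcd b ((W k).factorial ^ (k + 1)) ∣ j :=
      (Nat.dvd_add_right ((Nat.gcd_dvd_right _ _).trans hR)).1 ((Nat.gcd_dvd_left _ _).trans hbt)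
    exact (Nat.le_of_dvd hj1 h2).trans hjk
  have hv : ∀ x, b.factorization (p x) ≤ 2 * m - 1 := by
    intro x
    have hne : n₀ + t * Mod m p + j ≠ 0 := by omega
    have h3 : b.factorization (p x) ≤ (n₀ + t * Mod m p + j).factorization (p x) :=
      (Nat.factorization_le_iff_dvd hb hne).2 hbt (p x)
    by_cases hjx : j = (x.1 : ℕ) + 1
    · rw [hjx, ← add_assoc, hfac] at h3
      exact h3
    · have h4 : ¬ p x ∣ n₀ + t * Mod m p + j := by
        intro h5
        have h6 : p x ∣ n₀ + t * Mod m p + ((x.1 : ℕ) + 1) := by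
          rw [← add_assoc]
          refine Nat.dvd_of_factorization_pos ?_
          rw [hfac]
          omega
        have h7 := (Nat.dvd_sub h5 h6)
        have h8 := (Nat.dvd_sub h6 h5)
        have hx := x.1.2
        have hk := hpk x
        rcases lt_or_gt_of_ne hjx with hlt | hgt
        · have e : n₀ + t * Mod m p + ((x.1 : ℕ) + 1) - (n₀ + t * Mod m p + j) =
              (x.1 : ℕ) + 1 - j := by omega
          rw [e] at h8
          have := Nat.le_of_dvd (by omega) h8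
          omega
        · have e : n₀ + t * Mod m p + j - (n₀ + t * Mod m p + ((x.1 : ℕ) + 1)) =
              j - ((x.1 : ℕ) + 1) := by omega
          rw [e] at h7
          have := Nat.le_of_dvd (by omega) h7
          omega
      rw [Nat.factorization_eq_zero_of_not_dvd h4] at h3
      omega
  have hpos : ∀ x, 0 < Nat.gcd b (p x ^ (2 * m)) := fun x =>
    Nat.gcd_pos_of_pos_left _ (Nat.pos_of_ne_zero hb)
  have h9 : Nat.gcd b (∏ x, p x ^ (2 * m)) ≤ GG m p b := by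
    refine (Nat.le_of_dvd (Finset.prod_pos fun x _ => hpos x)
      (AvgB_gcd_prod Finset.univ b _)).trans ?_
    unfold GG
    refine Finset.prod_le_prod' fun x _ => ?_
    rw [if_pos (hv x)]
    exact AvgB_gcd_pow (hp x) hb
  unfold Mod
  refine (Nat.le_of_dvd ?_ (Nat.gcd_mul_right_dvd_mul_gcd b _ _)).trans (Nat.mul_le_mul h1 h9)
  exact Nat.mul_pos (Nat.gcd_pos_of_pos_left _ (Nat.pos_of_ne_zero hb))
    (Nat.gcd_pos_of_pos_left _ (Nat.pos_of_ne_zero hb))

/-- average number of divisors in `B` -/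
theorem avg_B {k : ℕ} (m : ℕ) (hm : 0 < m) (B : Set ℕ) (p : Fin k × Fin k → ℕ)
    (hp : ∀ x, (p x).Prime) (hinj : Function.Injective p) (hpk : ∀ x, k < p x)
    (hpw : ∀ x, W k < p x) (n₀ T X : ℕ)
    (hn₀ : (W k).factorial ^ (k + 1) ∣ n₀)
    (hfac : ∀ t x, (n₀ + t * Mod m p + (x.1 : ℕ) + 1).factorization (p x) = 2 * m - 1)
    (hX : ∀ t < T, n₀ + t * Mod m p + k ≤ X) (j : ℕ) (hj1 : 1 ≤ j) (hjk : j ≤ k) :
    open Classical in
    ∑ t ∈ range T, (((Finset.Icc 1 X).filter fun b => b ∈ B ∧ b ∣ n₀ + t * Mod m p + j ∧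
      ¬ b ∣ j).card : ℝ) ≤
      ∑ b ∈ (Finset.Ioc (W k) X).filter (· ∈ B), (T * (k * (GG m p b : ℝ)) / b + 1) := by
  classical
  set S : Finset ℕ := (Finset.Ioc (W k) X).filter (· ∈ B) with hS
  have hRM : (W k).factorial ^ (k + 1) ∣ Mod m p := Dvd.intro _ rfl
  have hsub : ∀ t, ((Finset.Icc 1 X).filter fun b => b ∈ B ∧ b ∣ n₀ + t * Mod m p + j ∧
      ¬ b ∣ j) ⊆ S.filter (fun b => b ∣ (n₀ + j) + t * Mod m p) := by
    intro t b hb
    rw [Finset.mem_filter, Finset.mem_Icc] at hb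
    obtain ⟨⟨hb1, hbX⟩, hbB, hbd, hbj⟩ := hb
    rw [Finset.mem_filter, hS, Finset.mem_filter, Finset.mem_Ioc]
    refine ⟨⟨⟨?_, hbX⟩, hbB⟩, ?_⟩
    · by_contra hle
      rw [not_lt] at hle
      have h1 : b ∣ (W k).factorial ^ (k + 1) :=
        (Nat.dvd_factorial hb1 hle).trans (dvd_pow_self _ (Nat.succ_ne_zero k))
      have h2 : b ∣ n₀ + t * Mod m p :=
        dvd_add (h1.trans hn₀) (Dvd.dvd.mul_left (h1.trans hRM) t)
      exact hbj ((Nat.dvd_add_right h2).1 hbd)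
    · rwa [show (n₀ + j) + t * Mod m p = n₀ + t * Mod m p + j by ring]
  have h1 : ∀ t, (((Finset.Icc 1 X).filter fun b => b ∈ B ∧ b ∣ n₀ + t * Mod m p + j ∧
      ¬ b ∣ j).card : ℝ) ≤ ∑ b ∈ S, if b ∣ (n₀ + j) + t * Mod m p then (1 : ℝ) else 0 := by
    intro t
    have h2 := Finset.card_le_card (hsub t)
    rw [Finset.card_filter (fun b => b ∣ (n₀ + j) + t * Mod m p) S] at h2
    exact_mod_cast h2
  refine (Finset.sum_le_sum fun t _ => h1 t).trans ?_
  rw [Finset.sum_comm]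
  refine Finset.sum_le_sum fun b hb => ?_
  have hb0 : 0 < b := by
    rw [hS, Finset.mem_filter, Finset.mem_Ioc] at hb
    omega
  have h3 : ∑ t ∈ range T, (if b ∣ (n₀ + j) + t * Mod m p then (1 : ℝ) else 0) =
      (((range T).filter fun t => b ∣ (n₀ + j) + t * Mod m p).card : ℝ) := by
    rw [Finset.card_filter]
    push_cast
    rfl
  rw [h3]
  rcases ((range T).filter fun t => b ∣ (n₀ + j) + t * Mod m p).eq_empty_or_nonempty with h4 | h4
  · rw [h4, Finset.card_empty, Nat.cast_zero]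
    positivity
  · obtain ⟨t, ht⟩ := h4
    have hbt : b ∣ n₀ + t * Mod m p + j := by
      have := (Finset.mem_filter.1 ht).2
      rwa [show (n₀ + j) + t * Mod m p = n₀ + t * Mod m p + j by ring] at this
    have h5 := AvgB_gcd m hm p hp hpk n₀ hn₀ hfac j hj1 hjk t b hb0.ne' hbt
    have h6 := card_ap_gen (n₀ + j) (Mod m p) b T hb0
    refine h6.trans ?_
    have h7 : (Nat.gcd b (Mod m p) : ℝ) ≤ k * (GG m p b : ℝ) := by exact_mod_cast h5
    have hb0' : (0 : ℝ) < b := by exact_mod_cast hb0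
    gcongr

end Pool.Agent.Helper26.LV
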