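import Pool.Agent.Helper26.LV.Defs

set_option autoImplicit false

/-!
# MP_7d9581_nt : many primes between `4^L` and `4^(L+1)`
-/

namespace Pool.Agent.Helper26.LV

open Finset Filter Topology

theorem mem_PP {L p : ℕ} : p ∈ PP L ↔ (4 ^ L < p ∧ p ≤ 4 ^ (L + 1)) ∧ p.Prime := by
  simp [PP]

theorem tendsto_aux : Tendsto (fun L : ℕ => (2 * ((L : ℝ) + 2) + 8 * 2 ^ L * ((L : ℝ) + 1)) / 4 ^ L)
    atTop (𝓝 0) := by
  have h1 : Tendsto (fun L : ℕ => (L : ℝ) * (1 / 4) ^ L) atTop (𝓝 0) :=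
    tendsto_self_mul_const_pow_of_lt_one (by norm_num) (by norm_num)
  have h2 : Tendsto (fun L : ℕ => ((1 : ℝ) / 4) ^ L) atTop (𝓝 0) :=
    tendsto_pow_atTop_nhds_zero_of_lt_one (by norm_num) (by norm_num)
  have h3 : Tendsto (fun L : ℕ => (L : ℝ) * (1 / 2) ^ L) atTop (𝓝 0) :=
    tendsto_self_mul_const_pow_of_lt_one (by norm_num) (by norm_num)
  have h4 : Tendsto (fun L : ℕ => ((1 : ℝ) / 2) ^ L) atTop (𝓝 0) :=
    tendsto_pow_atTop_nhds_zero_of_lt_one (by norm_num) (by norm_num)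
  have h5 := (((h1.const_mul 2).add (h2.const_mul 4)).add (h3.const_mul 8)).add (h4.const_mul 8)
  simp only [mul_zero, add_zero] at h5
  refine h5.congr fun L => ?_
  have e1 : (4 : ℝ) ^ L = 2 ^ L * 2 ^ L := by rw [← mul_pow]; norm_num
  have e2 : ((1 : ℝ) / 4) ^ L = 1 / (2 ^ L * 2 ^ L) := by rw [one_div, inv_pow, e1, one_div]
  have e3 : ((1 : ℝ) / 2) ^ L = 1 / 2 ^ L := by rw [one_div, inv_pow, one_div]
  rw [e1, e2, e3]
  have : (2 : ℝ) ^ L ≠ 0 := by positivity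
  field_simp
  ring

theorem log_four : Real.log 4 = 2 * Real.log 2 := by
  rw [show (4 : ℝ) = 2 ^ 2 by norm_num, Real.log_pow]; norm_num

/-- weak Chebyshev estimate -/
theorem card_PP : ∀ᶠ L : ℕ in atTop, (4 : ℝ) ^ (L + 1) ≤ 8 * ((L : ℝ) + 1) * (PP L).card := by
  filter_upwards [tendsto_aux.eventually_lt_const (show (0 : ℝ) < Real.log 2 by positivity)] with L hL
  have h4 : (0 : ℝ) < 4 ^ L := by positivity
  rw [div_lt_iff₀ h4] at hL
  have hlog2 : (0 : ℝ) < Real.log 2 := by positivity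
  have hlog2' : Real.log 2 ≤ 1 := by have := Real.log_two_lt_d9; linarith
  have h1 := Chebyshev.theta_ge (4 ^ (L + 1))
  have h2 := Chebyshev.theta_le_log4_mul_x (x := ((4 ^ L : ℕ) : ℝ)) (by positivity)
  -- the difference of the thetas
  have hdiff : Chebyshev.theta ((4 ^ (L + 1) : ℕ) : ℝ) - Chebyshev.theta ((4 ^ L : ℕ) : ℝ) =
      ∑ p ∈ PP L, Real.log p := by
    rw [Chebyshev.theta_eq_sum_Icc, Chebyshev.theta_eq_sum_Icc, Nat.floor_natCast, Nat.floor_natCast,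
      sub_eq_iff_eq_add, ← Finset.sum_union]
    · refine Finset.sum_congr ?_ fun _ _ => rfl
      ext p
      simp only [Finset.mem_union, mem_PP, Finset.mem_filter, Finset.mem_Icc]
      have : 4 ^ L ≤ 4 ^ (L + 1) := Nat.pow_le_pow_right (by norm_num) (by omega)
      constructor
      · rintro ⟨⟨h1, h2⟩, h3⟩
        rcases le_or_gt p (4 ^ L) with h | h
        · exact Or.inr ⟨⟨h1, h⟩, h3⟩
        · exact Or.inl ⟨⟨h, h2⟩, h3⟩
      · rintro (⟨⟨h1, h2⟩, h3⟩ | ⟨⟨h1, h2⟩, h3⟩)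
        · exact ⟨⟨Nat.zero_le _, h2⟩, h3⟩
        · exact ⟨⟨h1, h2.trans this⟩, h3⟩
    · rw [Finset.disjoint_left]
      intro p hp hp'
      have h1 := (mem_PP.1 hp).1.1
      have h2 := (Finset.mem_Icc.1 (Finset.mem_filter.1 hp').1).2
      omega
  have hup : ∑ p ∈ PP L, Real.log p ≤ (PP L).card * (((L : ℝ) + 1) * (2 * Real.log 2)) := by
    rw [← nsmul_eq_mul]
    refine Finset.sum_le_card_nsmul _ _ _ fun p hp => ?_
    have hp' := mem_PP.1 hp
    have h5 : Real.log p ≤ Real.log ((4 : ℝ) ^ (L + 1)) := by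
      apply Real.log_le_log (by exact_mod_cast hp'.2.pos)
      exact_mod_cast hp'.1.2
    rw [Real.log_pow, log_four] at h5
    push_cast at h5
    exact h5
  -- lower bound
  have e1 : ((4 ^ (L + 1) : ℕ) : ℝ) = 4 * 4 ^ L := by push_cast; ring
  have e2 : ((4 ^ L : ℕ) : ℝ) = 4 ^ L := by push_cast; ring
  have hsq : √(((4 ^ (L + 1) : ℕ) : ℝ)) = 2 * 2 ^ L := by
    rw [e1, show (4 : ℝ) * 4 ^ L = (2 * 2 ^ L) ^ 2 by rw [mul_pow, ← pow_mul, mul_comm L 2, pow_mul]; norm_num]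
    exact Real.sqrt_sq (by positivity)
  have hlg : Real.log ((4 ^ (L + 1) : ℕ) : ℝ) = ((L : ℝ) + 1) * (2 * Real.log 2) := by
    rw [Nat.cast_pow, Real.log_pow]; push_cast; rw [log_four]
  have hlg1 : Real.log (((4 ^ (L + 1) : ℕ) : ℝ) + 1) ≤ 2 * ((L : ℝ) + 2) := by
    have h6 : ((4 ^ (L + 1) : ℕ) : ℝ) + 1 ≤ 4 ^ (L + 2) := by
      rw [e1]
      have : (1 : ℝ) ≤ 4 ^ L := one_le_pow₀ (by norm_num)
      have e3 : (4 : ℝ) ^ (L + 2) = 16 * 4 ^ L := by ring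
      rw [e3]; linarith
    have h7 : Real.log (((4 ^ (L + 1) : ℕ) : ℝ) + 1) ≤ Real.log ((4 : ℝ) ^ (L + 2)) :=
      Real.log_le_log (by positivity) h6
    rw [Real.log_pow, log_four] at h7
    push_cast at h7 ⊢
    have h8 : ((L : ℝ) + 2) * (2 * Real.log 2) ≤ ((L : ℝ) + 2) * (2 * 1) := by
      gcongr
    linarith
  rw [hsq, hlg] at h1
  rw [e1] at h1
  rw [e2, log_four] at h2
  have hlow : Real.log 2 * 4 ^ L ≤ ∑ p ∈ PP L, Real.log p := by
    rw [← hdiff, e2, e1]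
    rw [e1] at hlg1
    have h9 : 2 * (2 * 2 ^ L) * (((L : ℝ) + 1) * (2 * Real.log 2)) ≤ 8 * 2 ^ L * ((L : ℝ) + 1) := by
      have : 2 * (2 * 2 ^ L) * (((L : ℝ) + 1) * (2 * Real.log 2)) =
        (8 * 2 ^ L * ((L : ℝ) + 1)) * Real.log 2 := by ring
      rw [this]
      apply mul_le_of_le_one_right (by positivity) hlog2'
    nlinarith [h1, h2, h9, hL, hlg1]
  have h10 : Real.log 2 * 4 ^ L ≤ (PP L).card * (((L : ℝ) + 1) * (2 * Real.log 2)) := hlow.trans hup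
  have h11 : (4 : ℝ) ^ L ≤ (PP L).card * (((L : ℝ) + 1) * 2) := by
    have : Real.log 2 * 4 ^ L ≤ Real.log 2 * ((PP L).card * (((L : ℝ) + 1) * 2)) := by linarith
    exact le_of_mul_le_mul_left this hlog2
  rw [pow_succ]
  linarith

end Pool.Agent.Helper26.LV
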