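import Pool.Agent.Helper26.LV.Cheb

set_option autoImplicit false

namespace Pool.Agent.Helper26.LV

open Finset Filter Topology

/-- local weight -/
def choiceH (m b q : ℕ) : ℕ :=
  if b.factorization q ≤ 2 * m - 1 then q ^ b.factorization q else 0

theorem choice_GG {k : ℕ} (m : ℕ) (p : Fin k × Fin k → ℕ) (b : ℕ) :
    GG m p b = ∏ x, choiceH m b (p x) := rfl

theorem choice_one_add {ι : Type*} [DecidableEq ι] (s : Finset ι) (a : ι → ℝ)
    (ha : ∀ i ∈ s, 0 ≤ a i) : 1 + ∑ i ∈ s, a i ≤ ∏ i ∈ s, (1 + a i) := by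
  induction s using Finset.induction_on with
  | empty => simp
  | insert i s hi ih =>
    rw [Finset.sum_insert hi, Finset.prod_insert hi]
    have h1 := ih (fun j hj => ha j (Finset.mem_insert_of_mem hj))
    have h2 := ha i (Finset.mem_insert_self i s)
    have h3 : 0 ≤ ∑ i ∈ s, a i :=
      Finset.sum_nonneg fun j hj => ha j (Finset.mem_insert_of_mem hj)
    have h4 : (1 + a i) * (1 + ∑ i ∈ s, a i) ≤ (1 + a i) * ∏ i ∈ s, (1 + a i) :=
      mul_le_mul_of_nonneg_left h1 (by linarith)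
    nlinarith [mul_nonneg h2 h3]

theorem choice_local {m q v : ℕ} (hm : 0 < m) (hq : 1 < q) (hv : 1 ≤ v) (hv2 : v ≤ 2 * m - 1)
    {γ Λ c : ℝ} (hγ : 0 ≤ γ) (hc0 : 0 < c) (hΛ0 : 0 ≤ Λ) (hc : (q : ℝ) / c ≤ Λ)
    (hΛ : 1 + Λ ≤ (q : ℝ) ^ γ) :
    1 + ((q : ℝ) ^ v) / c ≤ ((q : ℝ) ^ v) ^ (1 - 1 / (2 * (m : ℝ) - 1) + γ) := by
  have hm1 : (1 : ℝ) ≤ m := by exact_mod_cast hm
  have h2m : (0 : ℝ) < 2 * (m : ℝ) - 1 := by linarith
  have hq1 : (1 : ℝ) < q := by exact_mod_cast hq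
  have hq0 : (0 : ℝ) < q := by linarith
  have hvm : (v : ℝ) ≤ 2 * (m : ℝ) - 1 := by
    have h1 : v + 1 ≤ 2 * m := by omega
    have h2 : ((v + 1 : ℕ) : ℝ) ≤ ((2 * m : ℕ) : ℝ) := by exact_mod_cast h1
    push_cast at h2
    linarith
  have h1 : ((q : ℝ) ^ v) / c = (q : ℝ) ^ (v - 1) * ((q : ℝ) / c) := by
    have : (q : ℝ) ^ v = (q : ℝ) ^ (v - 1) * q := by
      rw [← pow_succ]
      congr 1
      omega
    rw [this]
    ring
  have h2 : (1 : ℝ) ≤ (q : ℝ) ^ (v - 1) := one_le_pow₀ hq1.le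
  have h3 : 1 + ((q : ℝ) ^ v) / c ≤ (1 + Λ) * (q : ℝ) ^ (v - 1) := by
    rw [h1]
    have := mul_le_mul_of_nonneg_left hc (by linarith : (0 : ℝ) ≤ (q : ℝ) ^ (v - 1))
    nlinarith
  have h4 : (q : ℝ) ^ (v - 1) ≤ ((q : ℝ) ^ v) ^ (1 - 1 / (2 * (m : ℝ) - 1)) := by
    rw [← Real.rpow_natCast, ← Real.rpow_natCast, ← Real.rpow_mul hq0.le]
    refine Real.rpow_le_rpow_of_exponent_le hq1.le ?_
    rw [Nat.cast_sub hv]
    push_cast
    have h5 : (v : ℝ) * (1 / (2 * (m : ℝ) - 1)) ≤ 1 := by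
      rw [mul_one_div, div_le_one h2m]
      exact hvm
    linarith
  have h5 : (1 + Λ) ≤ ((q : ℝ) ^ v) ^ γ := by
    refine hΛ.trans (Real.rpow_le_rpow hq0.le ?_ hγ)
    calc (q : ℝ) = (q : ℝ) ^ 1 := (pow_one _).symm
      _ ≤ (q : ℝ) ^ v := pow_le_pow_right₀ hq1.le hv
  have hqv : (0 : ℝ) < (q : ℝ) ^ v := by positivity
  calc 1 + ((q : ℝ) ^ v) / c ≤ (1 + Λ) * (q : ℝ) ^ (v - 1) := h3
    _ ≤ ((q : ℝ) ^ v) ^ γ * ((q : ℝ) ^ v) ^ (1 - 1 / (2 * (m : ℝ) - 1)) :=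
        mul_le_mul h5 h4 (by positivity) (by positivity)
    _ = ((q : ℝ) ^ v) ^ (1 - 1 / (2 * (m : ℝ) - 1) + γ) := by
        rw [← Real.rpow_add hqv]
        congr 1
        ring

theorem choice_avg {m b : ℕ} (hm : 0 < m) (hb : b ≠ 0) (P : Finset ℕ) (hP : ∀ q ∈ P, q.Prime)
    (hne : 0 < P.card) {γ Λ : ℝ} (hγ : 0 ≤ γ) (hΛ0 : 0 ≤ Λ)
    (hc : ∀ q ∈ P, (q : ℝ) / P.card ≤ Λ) (hΛ : ∀ q ∈ P, 1 + Λ ≤ (q : ℝ) ^ γ) :
    ∑ q ∈ P, (choiceH m b q : ℝ) ≤ P.card *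
      ∏ q ∈ P, ((q : ℝ) ^ b.factorization q) ^ (1 - 1 / (2 * (m : ℝ) - 1) + γ) := by
  have hm1 : (1 : ℝ) ≤ m := by exact_mod_cast hm
  have hcard : (0 : ℝ) < P.card := by exact_mod_cast hne
  have hs : 0 ≤ 1 - 1 / (2 * (m : ℝ) - 1) + γ := by
    have : 1 / (2 * (m : ℝ) - 1) ≤ 1 := by
      rw [div_le_one (by linarith)]
      linarith
    linarith
  have h1 : ∀ q ∈ P, (choiceH m b q : ℝ) ≤ 1 + (if q ∣ b then (choiceH m b q : ℝ) else 0) := by
    intro q hq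
    by_cases h : q ∣ b
    · rw [if_pos h]
      linarith
    · rw [if_neg h]
      unfold choiceH
      rw [Nat.factorization_eq_zero_of_not_dvd h]
      simp
  have h2 : ∑ q ∈ P, (choiceH m b q : ℝ) ≤
      P.card * (1 + ∑ q ∈ P, (if q ∣ b then (choiceH m b q : ℝ) / P.card else 0)) := by
    refine (Finset.sum_le_sum h1).trans (le_of_eq ?_)
    rw [Finset.sum_add_distrib, Finset.sum_const, nsmul_eq_mul, mul_one, mul_add, mul_one,
      Finset.mul_sum]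
    congr 1
    refine Finset.sum_congr rfl fun q _ => ?_
    split_ifs
    · field_simp
    · simp
  refine h2.trans (mul_le_mul_of_nonneg_left ?_ hcard.le)
  refine (choice_one_add P _ ?_).trans ?_
  · intro q _
    split_ifs
    · positivity
    · exact le_rfl
  · refine Finset.prod_le_prod ?_ ?_
    · intro q _
      split_ifs
      · positivity
      · norm_num
    · intro q hq
      have hqp := hP q hq
      have hq1 : (1 : ℝ) < q := by exact_mod_cast hqp.one_lt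
      have hge : (1 : ℝ) ≤ ((q : ℝ) ^ b.factorization q) ^ (1 - 1 / (2 * (m : ℝ) - 1) + γ) :=
        Real.one_le_rpow (one_le_pow₀ hq1.le) hs
      by_cases h : q ∣ b
      · rw [if_pos h]
        unfold choiceH
        by_cases h3 : b.factorization q ≤ 2 * m - 1
        · rw [if_pos h3]
          have h4 : 1 ≤ b.factorization q := by
            have := (Nat.Prime.dvd_iff_one_le_factorization hqp hb).1 h
            exact this
          have h5 := choice_local hm hqp.one_lt h4 h3 hγ hcard hΛ0 (hc q hq) (hΛ q hq)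
          push_cast
          exact h5
        · rw [if_neg h3]
          simpa using hge
      · rw [if_neg h]
        simpa using hge

theorem choice_prod_le {b : ℕ} (hb : b ≠ 0) (T : Finset ℕ) :
    ∏ q ∈ T, q ^ b.factorization q ≤ b := by
  have h1 : ∏ q ∈ T, q ^ b.factorization q
      = ∏ q ∈ T.filter (· ∈ b.primeFactors), q ^ b.factorization q := by
    rw [Finset.prod_filter]
    refine Finset.prod_congr rfl fun q _ => ?_
    split_ifs with h
    · rfl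
    · have : b.factorization q = 0 := by
        rw [← Finsupp.notMem_support_iff, Nat.support_factorization]
        exact h
      rw [this, pow_zero]
  rw [h1]
  have h2 : ∏ q ∈ b.primeFactors, q ^ b.factorization q = b := by
    have := Nat.factorization_prod_pow_eq_self hb
    rw [Finsupp.prod, Nat.support_factorization] at this
    exact this
  calc ∏ q ∈ T.filter (· ∈ b.primeFactors), q ^ b.factorization q
      ≤ ∏ q ∈ b.primeFactors, q ^ b.factorization q := by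
        refine Nat.le_of_dvd ?_ (Finset.prod_dvd_prod_of_subset _ _ _ ?_)
        · rw [h2]
          exact Nat.pos_of_ne_zero hb
        · intro q hq
          exact (Finset.mem_filter.1 hq).2
    _ = b := h2

theorem choice_ev1 (C γ : ℝ) (hγ : 0 < γ) :
    ∀ᶠ k : ℕ in atTop, (k : ℝ) ^ 2 * (C * ((3 / 2 : ℝ) ^ (-γ)) ^ k) ≤ 1 / 8 := by
  have hr0 : 0 < (3 / 2 : ℝ) ^ (-γ) := by positivity
  have hr1 : (3 / 2 : ℝ) ^ (-γ) < 1 :=
    Real.rpow_lt_one_of_one_lt_of_neg (by norm_num) (by linarith)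
  have h1 := tendsto_pow_const_mul_const_pow_of_abs_lt_one 2
    (r := (3 / 2 : ℝ) ^ (-γ)) (by rw [abs_of_pos hr0]; exact hr1)
  have h2 := h1.const_mul C
  rw [mul_zero] at h2
  filter_upwards [h2.eventually_le_const (show (0 : ℝ) < 1 / 8 by norm_num)] with k hk
  calc (k : ℝ) ^ 2 * (C * ((3 / 2 : ℝ) ^ (-γ)) ^ k)
      = C * ((k : ℝ) ^ 2 * ((3 / 2 : ℝ) ^ (-γ)) ^ k) := by ring
    _ ≤ 1 / 8 := hk

theorem choice_ev2 (γ : ℝ) (hγ : 0 < γ) :
    ∀ᶠ k : ℕ in atTop, 1 + 8 * ((k : ℝ) ^ 2 + k + 1) ≤ ((4 : ℝ) ^ (k + 1)) ^ γ := by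
  have hr0 : 0 < (4 : ℝ) ^ (-γ) := by positivity
  have hr1 : (4 : ℝ) ^ (-γ) < 1 :=
    Real.rpow_lt_one_of_one_lt_of_neg (by norm_num) (by linarith)
  have h1 := tendsto_pow_const_mul_const_pow_of_abs_lt_one 2
    (r := (4 : ℝ) ^ (-γ)) (by rw [abs_of_pos hr0]; exact hr1)
  have h2 := h1.const_mul 25
  rw [mul_zero] at h2
  filter_upwards [h2.eventually_le_const (show (0 : ℝ) < 1 by norm_num),
    eventually_ge_atTop 1] with k hk hk1
  have hk1' : (1 : ℝ) ≤ k := by exact_mod_cast hk1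
  have h3 : 1 + 8 * ((k : ℝ) ^ 2 + k + 1) ≤ 25 * (k : ℝ) ^ 2 := by nlinarith
  refine h3.trans ?_
  have h4 : ((4 : ℝ) ^ (-γ)) ^ k * ((4 : ℝ) ^ k) ^ γ = 1 := by
    rw [← Real.rpow_natCast, ← Real.rpow_natCast, ← Real.rpow_mul (by norm_num),
      ← Real.rpow_mul (by norm_num), ← Real.rpow_add (by norm_num)]
    have : -γ * (k : ℝ) + (k : ℝ) * γ = 0 := by ring
    rw [this, Real.rpow_zero]
  have h5 : 0 < ((4 : ℝ) ^ k) ^ γ := by positivity
  have h6 : 25 * (k : ℝ) ^ 2 ≤ ((4 : ℝ) ^ k) ^ γ := by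
    calc 25 * (k : ℝ) ^ 2 = (25 * ((k : ℝ) ^ 2 * ((4 : ℝ) ^ (-γ)) ^ k)) * ((4 : ℝ) ^ k) ^ γ := by
          rw [mul_assoc, mul_assoc, h4, mul_one]
      _ ≤ 1 * ((4 : ℝ) ^ k) ^ γ := mul_le_mul_of_nonneg_right hk h5.le
      _ = _ := one_mul _
  refine h6.trans (Real.rpow_le_rpow (by positivity) ?_ hγ.le)
  exact pow_le_pow_right₀ (by norm_num) (Nat.le_succ k)

theorem choice_W : ∀ᶠ k : ℕ in atTop, (3 / 2 : ℝ) ^ k ≤ W k := by
  filter_upwards [eventually_ge_atTop 3] with k hk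
  have h1 : (3 / 2 : ℝ) ^ k + 1 ≤ (7 / 4) ^ k := by
    obtain ⟨j, rfl⟩ := Nat.exists_eq_add_of_le hk
    clear hk
    induction j with
    | zero => norm_num
    | succ j ih =>
      have e1 : (3 / 2 : ℝ) ^ (3 + (j + 1)) = (3 / 2) ^ (3 + j) * (3 / 2) := by
        rw [← pow_succ]; rfl
      have e2 : (7 / 4 : ℝ) ^ (3 + (j + 1)) = (7 / 4) ^ (3 + j) * (7 / 4) := by
        rw [← pow_succ]; rfl
      rw [e1, e2]
      have h2 : 0 < (3 / 2 : ℝ) ^ (3 + j) := by positivity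
      nlinarith
  have h2 : (7 / 4 : ℝ) ^ k < (W k : ℝ) + 1 := by
    unfold W
    rw [div_pow]
    rw [div_lt_iff₀ (by positivity)]
    have h3 : 7 ^ k < (7 ^ k / 4 ^ k + 1) * 4 ^ k := by
      have := Nat.lt_succ_self (7 ^ k / 4 ^ k)
      rw [Nat.div_lt_iff_lt_mul (by positivity)] at this
      exact this
    exact_mod_cast h3
  linarith

theorem choice_prodx {k m b : ℕ} (hm : 0 < m) (hb : b ≠ 0) (P : Fin k × Fin k → Finset ℕ)
    (hP : ∀ x, ∀ q ∈ P x, q.Prime) (hne : ∀ x, 0 < (P x).card) {γ Λ : ℝ} (hγ : 0 ≤ γ)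
    (hΛ0 : 0 ≤ Λ) (hc : ∀ x, ∀ q ∈ P x, (q : ℝ) / (P x).card ≤ Λ)
    (hΛ : ∀ x, ∀ q ∈ P x, 1 + Λ ≤ (q : ℝ) ^ γ)
    (hdisj : (↑(Finset.univ : Finset (Fin k × Fin k)) : Set (Fin k × Fin k)).PairwiseDisjoint P)
    (hs0 : 0 ≤ 1 - 1 / (2 * (m : ℝ) - 1) + γ) :
    ∏ x, ∑ q ∈ P x, (choiceH m b q : ℝ) ≤
      (∏ x, ((P x).card : ℝ)) * (b : ℝ) ^ (1 - 1 / (2 * (m : ℝ) - 1) + γ) := by
  have h1 : ∏ x, ∑ q ∈ P x, (choiceH m b q : ℝ) ≤ ∏ x, (((P x).card : ℝ) *
      ∏ q ∈ P x, ((q : ℝ) ^ b.factorization q) ^ (1 - 1 / (2 * (m : ℝ) - 1) + γ)) := by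
    refine Finset.prod_le_prod ?_ fun x _ => ?_
    · intro x _
      exact Finset.sum_nonneg fun q _ => Nat.cast_nonneg _
    · exact choice_avg hm hb (P x) (hP x) (hne x) hγ hΛ0 (hc x) (hΛ x)
  refine h1.trans ?_
  rw [Finset.prod_mul_distrib]
  refine mul_le_mul_of_nonneg_left ?_ (Finset.prod_nonneg fun x _ => Nat.cast_nonneg _)
  rw [← Finset.prod_biUnion hdisj, Real.finset_prod_rpow _ _ (fun q _ => by positivity)]
  refine Real.rpow_le_rpow ?_ ?_ hs0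
  · exact Finset.prod_nonneg fun q _ => by positivity
  · have h2 := choice_prod_le hb (Finset.univ.biUnion P)
    exact_mod_cast h2

theorem choice (m : ℕ) (hm : 0 < m) (β : ℝ) (hβ0 : 0 ≤ β) (hβ : β * (2 * m - 1) < 1) (B : Set ℕ)
    (hB : Thin β B) : ∀ᶠ k : ℕ in atTop, ∀ X : ℕ, ∃ p : Fin k × Fin k → ℕ,
      (∀ x, p x ∈ PP (k + 1 + (x.1.val * k + x.2.val))) ∧
      open Classical in
      (k : ℝ) ^ 2 * ∑ b ∈ (Finset.Ioc (W k) X).filter (· ∈ B), (GG m p b : ℝ) / b ≤ 1 / 8 := by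
  classical
  have hm1 : (1 : ℝ) ≤ m := by exact_mod_cast hm
  have h2m : (0 : ℝ) < 2 * (m : ℝ) - 1 := by linarith
  set κ : ℝ := 1 / (2 * (m : ℝ) - 1) with hκ
  have hκβ : β < κ := by
    rw [hκ, lt_div_iff₀ h2m]
    exact hβ
  set γ : ℝ := (κ - β) / 2 with hγdef
  have hγ : 0 < γ := by
    rw [hγdef]
    linarith
  set F : ℕ → ℝ := B.indicator (fun b : ℕ => (b : ℝ) ^ (-β)) with hF
  have hFs : Summable F := by
    rw [hF, ← summable_subtype_iff_indicator]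
    exact hB
  have hF0 : ∀ b, 0 ≤ F b := by
    intro b
    rw [hF]
    exact Set.indicator_nonneg (fun b _ => by positivity) b
  set C : ℝ := ∑' b, F b with hC
  have hC0 : 0 ≤ C := tsum_nonneg hF0
  obtain ⟨N, hN⟩ := eventually_atTop.1 card_PP
  filter_upwards [choice_ev1 C γ hγ, choice_ev2 γ hγ, choice_W, eventually_ge_atTop N,
    eventually_ge_atTop 1] with k hk1 hk2 hk3 hk4 hk5
  intro X
  obtain ⟨P, hPdef⟩ : ∃ P : Fin k × Fin k → Finset ℕ,
      ∀ x, P x = PP (k + 1 + (x.1.val * k + x.2.val)) := ⟨_, fun _ => rfl⟩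
  have hmem : ∀ x q, q ∈ P x → (4 ^ (k + 1 + (x.1.val * k + x.2.val)) < q ∧
      q ≤ 4 ^ (k + 1 + (x.1.val * k + x.2.val) + 1)) ∧ q.Prime := by
    intro x q hq
    rw [hPdef] at hq
    exact mem_PP.1 hq
  set Λ : ℝ := 8 * ((k : ℝ) ^ 2 + k + 1) with hΛdef
  have hΛ0 : 0 ≤ Λ := by positivity
  have hprime : ∀ x, ∀ q ∈ P x, q.Prime := fun x q hq => (hmem x q hq).2
  have hL : ∀ x : Fin k × Fin k, k + 1 + (x.1.val * k + x.2.val) + 1 ≤ k ^ 2 + k + 1 := by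
    intro x
    have h1 : x.1.val + 1 ≤ k := x.1.2
    have h2 : x.2.val + 1 ≤ k := x.2.2
    have h3 : (x.1.val + 1) * k ≤ k * k := Nat.mul_le_mul_right k h1
    nlinarith
  have hcP : ∀ x : Fin k × Fin k, (4 : ℝ) ^ (k + 1 + (x.1.val * k + x.2.val) + 1) ≤
      Λ * (P x).card := by
    intro x
    have h1 := hN (k + 1 + (x.1.val * k + x.2.val)) (by omega)
    rw [← hPdef] at h1
    refine h1.trans (mul_le_mul_of_nonneg_right ?_ (by positivity))
    rw [hΛdef]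
    have h2 : ((k + 1 + (x.1.val * k + x.2.val) + 1 : ℕ) : ℝ) ≤ ((k ^ 2 + k + 1 : ℕ) : ℝ) := by
      exact_mod_cast hL x
    push_cast at h2
    push_cast
    linarith
  have hcard : ∀ x, 0 < (P x).card := by
    intro x
    by_contra h
    have h0 : (P x).card = 0 := by omega
    have h1 := hcP x
    rw [h0, Nat.cast_zero, mul_zero] at h1
    have h2 : (0 : ℝ) < 4 ^ (k + 1 + (x.1.val * k + x.2.val) + 1) := by positivity
    linarith
  have hqc : ∀ x, ∀ q ∈ P x, (q : ℝ) / (P x).card ≤ Λ := by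
    intro x q hq
    have h0 : (0 : ℝ) < (P x).card := by exact_mod_cast hcard x
    rw [div_le_iff₀ h0]
    refine le_trans ?_ (hcP x)
    exact_mod_cast (hmem x q hq).1.2
  have hqγ : ∀ x, ∀ q ∈ P x, 1 + Λ ≤ (q : ℝ) ^ γ := by
    intro x q hq
    refine hk2.trans (Real.rpow_le_rpow (by positivity) ?_ hγ.le)
    have h1 : 4 ^ (k + 1 + (x.1.val * k + x.2.val)) < q := (hmem x q hq).1.1
    have h2 : 4 ^ (k + 1) ≤ 4 ^ (k + 1 + (x.1.val * k + x.2.val)) :=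
      Nat.pow_le_pow_right (by norm_num) (Nat.le_add_right _ _)
    have h3 : 4 ^ (k + 1) ≤ q := h2.trans h1.le
    exact_mod_cast h3
  set s : ℝ := 1 - κ + γ with hs
  have hs0 : 0 ≤ s := by
    have : κ ≤ 1 := by
      rw [hκ, div_le_one h2m]
      linarith
    rw [hs]
    linarith
  have hdisj : (↑(Finset.univ : Finset (Fin k × Fin k)) : Set (Fin k × Fin k)).PairwiseDisjoint
      P := by
    intro x _ y _ hxy
    rw [Function.onFun, Finset.disjoint_left]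
    intro q hqx hqy
    apply hxy
    have h1 := (hmem x q hqx).1
    have h2 := (hmem y q hqy).1
    have h3 : k + 1 + (x.1.val * k + x.2.val) < k + 1 + (y.1.val * k + y.2.val) + 1 := by
      have := h1.1.trans_le h2.2
      exact (Nat.pow_lt_pow_iff_right (by norm_num : 1 < 4)).1 this
    have h4 : k + 1 + (y.1.val * k + y.2.val) < k + 1 + (x.1.val * k + x.2.val) + 1 := by
      have := h2.1.trans_le h1.2
      exact (Nat.pow_lt_pow_iff_right (by norm_num : 1 < 4)).1 this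
    have h5 : x.1.val * k + x.2.val = y.1.val * k + y.2.val := by omega
    have hk0 : 0 < k := hk5
    have h6 : x.2.val = y.2.val := by
      have e1 : (x.1.val * k + x.2.val) % k = x.2.val := by
        rw [Nat.mul_comm, Nat.mul_add_mod, Nat.mod_eq_of_lt x.2.2]
      have e2 : (y.1.val * k + y.2.val) % k = y.2.val := by
        rw [Nat.mul_comm, Nat.mul_add_mod, Nat.mod_eq_of_lt y.2.2]
      rw [← e1, ← e2, h5]
    have h7 : x.1.val = y.1.val := by
      rw [h6] at h5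
      have := Nat.add_right_cancel h5
      exact Nat.eq_of_mul_eq_mul_right hk0 this
    exact Prod.ext (Fin.ext h7) (Fin.ext h6)
  have hprod : ∀ b : ℕ, b ≠ 0 → ∏ x, ∑ q ∈ P x, (choiceH m b q : ℝ) ≤
      (∏ x, ((P x).card : ℝ)) * (b : ℝ) ^ s := fun b hb =>
    choice_prodx hm hb P hprime hcard hγ.le hΛ0 hqc hqγ hdisj hs0
  by_contra hcon
  push_neg at hcon
  have h1 : ∀ p ∈ Fintype.piFinset P, (1 / 8 : ℝ) <
      (k : ℝ) ^ 2 * ∑ b ∈ (Finset.Ioc (W k) X).filter (· ∈ B), (GG m p b : ℝ) / b := by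
    intro p hp
    exact hcon p fun x => (hPdef x) ▸ Fintype.mem_piFinset.1 hp x
  have hne : (Fintype.piFinset P).Nonempty := by
    rw [Fintype.piFinset_nonempty]
    intro x
    exact Finset.card_pos.1 (hcard x)
  have h2 := Finset.sum_lt_sum_of_nonempty hne h1
  rw [Finset.sum_const, nsmul_eq_mul, Fintype.card_piFinset, ← Finset.mul_sum,
    Finset.sum_comm] at h2
  push_cast at h2
  set NN : ℝ := ∏ x, ((P x).card : ℝ) with hNN
  have hNN0 : 0 < NN := Finset.prod_pos fun x _ => by exact_mod_cast hcard x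
  have h3 : ∀ b ∈ (Finset.Ioc (W k) X).filter (· ∈ B),
      ∑ p ∈ Fintype.piFinset P, (GG m p b : ℝ) / b ≤
        NN * (((3 / 2 : ℝ) ^ (-γ)) ^ k * F b) := by
    intro b hb
    rw [Finset.mem_filter, Finset.mem_Ioc] at hb
    have hb0 : b ≠ 0 := by omega
    have hbpos : (0 : ℝ) < b := by
      have : 0 < b := by omega
      exact_mod_cast this
    rw [← Finset.sum_div]
    have h4 : ∑ p ∈ Fintype.piFinset P, (GG m p b : ℝ) =
        ∏ x, ∑ q ∈ P x, (choiceH m b q : ℝ) := by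
      rw [Finset.prod_univ_sum]
      refine Finset.sum_congr rfl fun p _ => ?_
      rw [choice_GG]
      push_cast
      rfl
    rw [h4, div_le_iff₀ hbpos]
    refine (hprod b hb0).trans ?_
    rw [mul_assoc]
    refine mul_le_mul_of_nonneg_left ?_ hNN0.le
    have h5 : F b = (b : ℝ) ^ (-β) := by
      rw [hF]
      exact Set.indicator_of_mem hb.2 _
    rw [h5]
    have h6 : (b : ℝ) ^ s = (b : ℝ) ^ (-γ) * (b : ℝ) ^ (-β) * b := by
      rw [← Real.rpow_add hbpos, ← Real.rpow_add_one hbpos.ne']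
      congr 1
      rw [hs, hγdef]
      ring
    rw [h6]
    refine mul_le_mul_of_nonneg_right ?_ hbpos.le
    refine mul_le_mul_of_nonneg_right ?_ (by positivity)
    have h7 : (3 / 2 : ℝ) ^ k ≤ b := by
      refine hk3.trans ?_
      exact_mod_cast hb.1.1.le
    have h8 : ((3 / 2 : ℝ) ^ (-γ)) ^ k = ((3 / 2 : ℝ) ^ k) ^ (-γ) := by
      rw [← Real.rpow_natCast, ← Real.rpow_natCast, ← Real.rpow_mul (by norm_num),
        ← Real.rpow_mul (by norm_num), mul_comm]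
    rw [h8]
    exact Real.rpow_le_rpow_of_nonpos (by positivity) h7 (by linarith)
  have h4 : ∑ b ∈ (Finset.Ioc (W k) X).filter (· ∈ B),
      ∑ p ∈ Fintype.piFinset P, (GG m p b : ℝ) / b ≤
        NN * (((3 / 2 : ℝ) ^ (-γ)) ^ k * C) := by
    refine (Finset.sum_le_sum h3).trans ?_
    rw [← Finset.mul_sum, ← Finset.mul_sum]
    refine mul_le_mul_of_nonneg_left ?_ hNN0.le
    refine mul_le_mul_of_nonneg_left ?_ (by positivity)
    exact hFs.sum_le_tsum _ fun b _ => hF0 b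
  have h5 : (k : ℝ) ^ 2 * ∑ b ∈ (Finset.Ioc (W k) X).filter (· ∈ B),
      ∑ p ∈ Fintype.piFinset P, (GG m p b : ℝ) / b ≤ NN * (1 / 8) := by
    calc (k : ℝ) ^ 2 * ∑ b ∈ (Finset.Ioc (W k) X).filter (· ∈ B),
          ∑ p ∈ Fintype.piFinset P, (GG m p b : ℝ) / b
        ≤ (k : ℝ) ^ 2 * (NN * (((3 / 2 : ℝ) ^ (-γ)) ^ k * C)) :=
          mul_le_mul_of_nonneg_left h4 (by positivity)
      _ = NN * ((k : ℝ) ^ 2 * (C * ((3 / 2 : ℝ) ^ (-γ)) ^ k)) := by ring
      _ ≤ NN * (1 / 8) := mul_le_mul_of_nonneg_left hk1 hNN0.le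
  linarith

end Pool.Agent.Helper26.LV
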