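import Pool.Agent.Helper26.LV.Defs
import Pool.Agent.Helper89.Lambert

set_option autoImplicit false

namespace Pool.Agent.Helper26.LV

open Finset Filter Topology Pool.Agent.Helper89.Lambert

theorem crt_W_le (k : ℕ) : W k ≤ 2 ^ k := by
  unfold W
  apply Nat.div_le_of_le_mul
  rw [← mul_pow]
  exact Nat.pow_le_pow_left (by norm_num) k

theorem exists_n0 {k : ℕ} (m : ℕ) (hm : 0 < m) (p : Fin k × Fin k → ℕ)
    (hp : ∀ x, (p x).Prime) (hinj : Function.Injective p) (hpw : ∀ x, W k < p x) :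
    ∃ n₀ : ℕ, n₀ < Mod m p ∧ (W k).factorial ^ (k + 1) ∣ n₀ ∧
      ∀ t x, (n₀ + t * Mod m p + (x.1 : ℕ) + 1).factorization (p x) = 2 * m - 1 := by
  obtain ⟨n', hn', hfac⟩ := exists_crt m k hm p hp hinj
  obtain ⟨R, hR⟩ : ∃ R, R = (W k).factorial ^ (k + 1) := ⟨_, rfl⟩
  obtain ⟨P, hP⟩ : ∃ P, P = ∏ x, p x ^ (2 * m) := ⟨_, rfl⟩
  have hMod : Mod m p = R * P := by rw [Mod, hR, hP]
  have hR0 : R ≠ 0 := by rw [hR]; exact pow_ne_zero _ (Nat.factorial_ne_zero _)
  have hP0 : P ≠ 0 := by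
    rw [hP]; exact Finset.prod_ne_zero_iff.mpr fun x _ => pow_ne_zero _ (hp x).ne_zero
  have hcop : Nat.Coprime R P := by
    rw [hR, hP]
    apply Nat.Coprime.pow_left
    refine Nat.Coprime.prod_right fun x _ => Nat.Coprime.pow_right _ ?_
    rw [Nat.coprime_comm, (hp x).coprime_iff_not_dvd, (hp x).dvd_factorial]
    exact not_le.mpr (hpw x)
  rw [← hP] at hn' hfac
  obtain ⟨n₀, h0, h1⟩ : ∃ n₀, n₀ < R * P ∧ n₀ ≡ 0 [MOD R] ∧ n₀ ≡ n' [MOD P] := by
    refine ⟨(Nat.chineseRemainder hcop 0 n' : ℕ), Nat.chineseRemainder_lt_mul hcop 0 n' hR0 hP0,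
      (Nat.chineseRemainder hcop 0 n').2.1, (Nat.chineseRemainder hcop 0 n').2.2⟩
  refine ⟨n₀, by rw [hMod]; exact h0, ?_, ?_⟩
  · rw [← hR]; exact (Nat.modEq_zero_iff_dvd).mp h1.1
  · intro t x
    have h2 : n₀ % P = n' := by
      have := h1.2
      rw [Nat.ModEq, Nat.mod_eq_of_lt hn'] at this
      exact this
    have h3 : n₀ = n' + (n₀ / P) * P := by
      conv_lhs => rw [← Nat.mod_add_div n₀ P, h2]
      ring
    have h4 : n₀ + t * Mod m p + (x.1 : ℕ) + 1 = n' + (n₀ / P + t * R) * P + (x.1 : ℕ) + 1 := by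
      rw [hMod]
      conv_lhs => rw [h3]
      ring
    rw [h4]
    exact hfac _ x

/-- size of the modulus -/
theorem mod_le {k : ℕ} (m : ℕ) (p : Fin k × Fin k → ℕ)
    (hp : ∀ x, p x ∈ PP (k + 1 + (x.1.val * k + x.2.val))) : Mod m p ≤ 2 ^ mu m k := by
  have e0 : 2 ^ mu m k = 2 ^ (k * (k + 1) * W k) * 2 ^ (4 * m * k ^ 2 * (k ^ 2 + k + 1)) := by
    rw [mu, pow_add]
  rw [Mod, e0]
  apply Nat.mul_le_mul
  · have h1 : (W k).factorial ≤ (2 ^ k) ^ W k :=
      (Nat.factorial_le_pow _).trans (Nat.pow_le_pow_left (crt_W_le k) _)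
    calc (W k).factorial ^ (k + 1) ≤ ((2 ^ k) ^ W k) ^ (k + 1) := Nat.pow_le_pow_left h1 _
      _ = 2 ^ (k * (k + 1) * W k) := by rw [← pow_mul, ← pow_mul]; congr 1; ring
  · have h2 : ∀ x : Fin k × Fin k, p x ^ (2 * m) ≤ 2 ^ (4 * m * (k ^ 2 + k + 1)) := by
      intro x
      have h3 : p x ≤ 4 ^ (k ^ 2 + k + 1) := by
        have h4 := hp x
        simp only [PP, Finset.mem_filter, Finset.mem_Ioc] at h4
        refine h4.1.2.trans (Nat.pow_le_pow_right (by norm_num) ?_)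
        have h5 : (x.1 : ℕ) < k := x.1.2
        have h6 : (x.2 : ℕ) < k := x.2.2
        have h7 : (x.1 : ℕ) * k + k ≤ k ^ 2 := by
          calc (x.1 : ℕ) * k + k = ((x.1 : ℕ) + 1) * k := by ring
            _ ≤ k * k := Nat.mul_le_mul_right _ h5
            _ = k ^ 2 := by ring
        omega
      calc p x ^ (2 * m) ≤ (4 ^ (k ^ 2 + k + 1)) ^ (2 * m) := Nat.pow_le_pow_left h3 _
        _ = 2 ^ (4 * m * (k ^ 2 + k + 1)) := by
          rw [show (4 : ℕ) = 2 ^ 2 by norm_num, ← pow_mul, ← pow_mul]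
          congr 1; ring
    calc ∏ x, p x ^ (2 * m) ≤ ∏ _x : Fin k × Fin k, 2 ^ (4 * m * (k ^ 2 + k + 1)) :=
          Finset.prod_le_prod' fun x _ => h2 x
      _ = 2 ^ (4 * m * k ^ 2 * (k ^ 2 + k + 1)) := by
        rw [Finset.prod_const, ← pow_mul, Finset.card_univ, Fintype.card_prod, Fintype.card_fin]
        congr 1; ring

/-- elementary facts about primes in the `PP` -/
theorem pp_facts {k : ℕ} (p : Fin k × Fin k → ℕ)
    (hp : ∀ x, p x ∈ PP (k + 1 + (x.1.val * k + x.2.val))) :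
    Function.Injective p ∧ (∀ x, (p x).Prime) ∧ (∀ x, 4 ^ (k + 1) < p x) ∧ (∀ x, 2 ^ k < p x) ∧
      (∀ x, k < p x) ∧ (∀ x, W k < p x) := by
  have h1 : ∀ x, 4 ^ (k + 1 + (x.1.val * k + x.2.val)) < p x ∧
      p x ≤ 4 ^ (k + 1 + (x.1.val * k + x.2.val) + 1) ∧ (p x).Prime := by
    intro x
    have h4 := hp x
    simp only [PP, Finset.mem_filter, Finset.mem_Ioc] at h4
    exact ⟨h4.1.1, h4.1.2, h4.2⟩
  have h4k : ∀ x, 4 ^ (k + 1) < p x := fun x =>
    lt_of_le_of_lt (Nat.pow_le_pow_right (by norm_num) (by omega)) (h1 x).1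
  have h2k : ∀ x, 2 ^ k < p x := by
    intro x
    refine lt_of_le_of_lt ?_ (h4k x)
    calc 2 ^ k ≤ 4 ^ k := Nat.pow_le_pow_left (by norm_num) k
      _ ≤ 4 ^ (k + 1) := Nat.pow_le_pow_right (by norm_num) (by omega)
  have hmono : ∀ x y : Fin k × Fin k, x.1.val * k + x.2.val < y.1.val * k + y.2.val →
      p x < p y := by
    intro x y hxy
    refine lt_of_le_of_lt ((h1 x).2.1.trans ?_) (h1 y).1
    exact Nat.pow_le_pow_right (by norm_num) (by omega)
  refine ⟨?_, fun x => (h1 x).2.2, h4k, h2k, fun x => (Nat.lt_two_pow_self).trans (h2k x),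
    fun x => lt_of_le_of_lt (crt_W_le k) (h2k x)⟩
  intro x y hxy
  have h5 : x.1.val * k + x.2.val = y.1.val * k + y.2.val := by
    rcases lt_trichotomy (x.1.val * k + x.2.val) (y.1.val * k + y.2.val) with h | h | h
    · exact absurd hxy (hmono x y h).ne
    · exact h
    · exact absurd hxy (hmono y x h).ne'
  have hx2 : x.2.val < k := x.2.2
  have hy2 : y.2.val < k := y.2.2
  have hk : 0 < k := by omega
  have h6 : x.1.val = y.1.val := by
    have e1 : (x.1.val * k + x.2.val) / k = x.1.val := by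
      rw [mul_comm, Nat.mul_add_div hk, Nat.div_eq_of_lt hx2, add_zero]
    have e2 : (y.1.val * k + y.2.val) / k = y.1.val := by
      rw [mul_comm, Nat.mul_add_div hk, Nat.div_eq_of_lt hy2, add_zero]
    rw [← e1, ← e2, h5]
  have h7 : x.2.val = y.2.val := by
    rw [h6] at h5; omega
  exact Prod.ext (Fin.ext h6) (Fin.ext h7)

end Pool.Agent.Helper26.LV
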