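import Mathlib

set_option autoImplicit false

/-!
# MP_7d9581_nt : definitions for the level set theorem
-/

namespace Pool.Agent.Helper26.LV

open Finset Filter Topology

/-- the sum of `b ^ (-β)` over `B` converges -/
def Thin (β : ℝ) (B : Set ℕ) : Prop := Summable fun b : B => ((b : ℕ) : ℝ) ^ (-β)

/-- positive numbers all of whose prime factors exceed `k`, the sum of their inverses being at
most `(2/3)^k` -/
def Tiny (k e : ℕ) : Prop :=
  0 < e ∧ (∀ q : ℕ, q.Prime → q ∣ e → k < q) ∧ ∑ q ∈ e.primeFactors, (1 : ℝ) / q ≤ (2 / 3) ^ k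

/-- the local hypothesis of the criterion -/
def Good (m : ℕ) (A A₀ B : Set ℕ) (k : ℕ) : Prop :=
  ∀ s : ℕ, 1 ≤ s → s ≤ k → ∀ e : ℕ, Tiny k e →
    (1 < e → s * e ∉ B → (s * e ∈ A ↔ s * e ∈ A₀)) ∧
    ∀ p : ℕ, p.Prime → 2 ^ k < p → ¬ p ∣ e → ∀ i < m,
      (p ^ i * (s * e) ∈ A₀ ↔ p ^ (i + m) * (s * e) ∈ A₀)

/-- the primes in `(4^L, 4^(L+1)]` -/
def PP (L : ℕ) : Finset ℕ := (Finset.Ioc (4 ^ L) (4 ^ (L + 1))).filter Nat.Prime

/-- the small bound, about `(7/4)^k` -/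
def W (k : ℕ) : ℕ := 7 ^ k / 4 ^ k

/-- the part of `b` composed of the primes `p x`, provided that all exponents are `< 2m`, and `0`
otherwise -/
def GG {k : ℕ} (m : ℕ) (p : Fin k × Fin k → ℕ) (b : ℕ) : ℕ :=
  ∏ x, if b.factorization (p x) ≤ 2 * m - 1 then p x ^ b.factorization (p x) else 0

/-- the bound `2 ^ mu` for the modulus -/
def mu (m k : ℕ) : ℕ := k * (k + 1) * W k + 4 * m * k ^ 2 * (k ^ 2 + k + 1)

/-- the modulus -/
def Mod {k : ℕ} (m : ℕ) (p : Fin k × Fin k → ℕ) : ℕ :=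
  (W k).factorial ^ (k + 1) * ∏ x, p x ^ (2 * m)

end Pool.Agent.Helper26.LV
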