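import Pool.Agent.Helper26.LV.Defs

set_option autoImplicit false

namespace Pool.Agent.Helper26.LV

open Finset Filter Topology

theorem W_ge (k : ℕ) : ((7 : ℝ) / 4) ^ k - 1 ≤ W k := by
  have h1 : 7 ^ k < 4 ^ k * (W k + 1) := by
    unfold W
    exact Nat.lt_mul_div_succ _ (by positivity)
  have h2 : (7 : ℝ) ^ k < 4 ^ k * ((W k : ℝ) + 1) := by exact_mod_cast h1
  rw [div_pow, sub_le_iff_le_add, div_le_iff₀ (by positivity)]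
  linarith

theorem W_le (k : ℕ) : (W k : ℝ) ≤ (7 / 4) ^ k := by
  have h1 : W k * 4 ^ k ≤ 7 ^ k := by
    unfold W
    exact Nat.div_mul_le_self _ _
  have h2 : (W k : ℝ) * 4 ^ k ≤ 7 ^ k := by exact_mod_cast h1
  rw [div_pow, le_div_iff₀ (by positivity)]
  exact h2

/-- `C k^a r^k` is eventually small -/
theorem lim_ev (a : ℕ) (r C δ : ℝ) (hr : |r| < 1) (hδ : 0 < δ) :
    ∀ᶠ k : ℕ in atTop, C * ((k : ℝ) ^ a * r ^ k) ≤ δ := by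
  have h := (tendsto_pow_const_mul_const_pow_of_abs_lt_one a hr).const_mul C
  rw [mul_zero] at h
  exact (h.eventually (gt_mem_nhds hδ)).mono fun k hk => hk.le

theorem lim_bern (n : ℕ) : ((n : ℝ) + 1) * (1 / 2) ^ n ≤ 2 * (3 / 4) ^ n := by
  have h := one_add_mul_le_pow (a := (1 : ℝ) / 2) (by norm_num) n
  have h1 : (n : ℝ) + 1 ≤ 2 * (3 / 2) ^ n := by
    have e : (1 : ℝ) + 1 / 2 = 3 / 2 := by norm_num
    rw [e] at h
    linarith [n.cast_nonneg (α := ℝ)]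
  calc ((n : ℝ) + 1) * (1 / 2) ^ n ≤ 2 * (3 / 2) ^ n * (1 / 2) ^ n :=
        mul_le_mul_of_nonneg_right h1 (by positivity)
    _ = 2 * (3 / 4) ^ n := by
        rw [mul_assoc, ← mul_pow]
        norm_num

theorem lim_four (n : ℕ) (hn : 5 ≤ n) : 4 * n + 4 ≤ 2 ^ n := by
  induction n, hn using Nat.le_induction with
  | base => norm_num
  | succ n hn ih =>
    rw [pow_succ]
    omega

theorem lim_log (N : ℕ) : Real.log (2 ^ N) ≤ N := by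
  rw [Real.log_pow]
  have h : Real.log 2 ≤ 1 := by linarith [Real.log_two_lt_d9]
  nlinarith [N.cast_nonneg (α := ℝ)]

theorem lim_log_nonneg (N : ℕ) : 0 ≤ Real.log ((2 : ℝ) ^ N) :=
  Real.log_nonneg (one_le_pow₀ (by norm_num))

/-- upper bound for `mu` -/
theorem lim_mu_le (m k : ℕ) (hk : 1 ≤ k) :
    (mu m k : ℝ) ≤ (2 + 12 * m) * ((k : ℝ) ^ 4 * (7 / 4) ^ k) := by
  have hk' : (1 : ℝ) ≤ k := by exact_mod_cast hk
  have h1 := W_le k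
  have h2 : (1 : ℝ) ≤ (7 / 4) ^ k := one_le_pow₀ (by norm_num)
  have h3 : (k : ℝ) * (k + 1) ≤ 2 * (k : ℝ) ^ 4 := by
    have : (k : ℝ) ^ 2 ≤ (k : ℝ) ^ 4 := pow_le_pow_right₀ hk' (by norm_num)
    nlinarith
  have h4 : (k : ℝ) ^ 2 * ((k : ℝ) ^ 2 + k + 1) ≤ 3 * (k : ℝ) ^ 4 := by
    have : (k : ℝ) ^ 2 + k + 1 ≤ 3 * (k : ℝ) ^ 2 := by nlinarith
    calc (k : ℝ) ^ 2 * ((k : ℝ) ^ 2 + k + 1) ≤ (k : ℝ) ^ 2 * (3 * (k : ℝ) ^ 2) :=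
          mul_le_mul_of_nonneg_left this (by positivity)
      _ = 3 * (k : ℝ) ^ 4 := by ring
  have e : (mu m k : ℝ) = (k : ℝ) * (k + 1) * W k + 4 * m * ((k : ℝ) ^ 2 * ((k : ℝ) ^ 2 + k + 1)) := by
    unfold mu
    push_cast
    ring
  rw [e]
  have h5 : (k : ℝ) * (k + 1) * W k ≤ 2 * (k : ℝ) ^ 4 * (7 / 4) ^ k :=
    mul_le_mul h3 h1 (by positivity) (by positivity)
  have h6 : 4 * (m : ℝ) * ((k : ℝ) ^ 2 * ((k : ℝ) ^ 2 + k + 1)) ≤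
      4 * (m : ℝ) * (3 * (k : ℝ) ^ 4) * (7 / 4) ^ k := by
    calc 4 * (m : ℝ) * ((k : ℝ) ^ 2 * ((k : ℝ) ^ 2 + k + 1)) ≤ 4 * (m : ℝ) * (3 * (k : ℝ) ^ 4) :=
          mul_le_mul_of_nonneg_left h4 (by positivity)
      _ = 4 * (m : ℝ) * (3 * (k : ℝ) ^ 4) * 1 := by ring
      _ ≤ _ := mul_le_mul_of_nonneg_left h2 (by positivity)
  calc _ ≤ 2 * (k : ℝ) ^ 4 * (7 / 4) ^ k + 4 * (m : ℝ) * (3 * (k : ℝ) ^ 4) * (7 / 4) ^ k :=
        add_le_add h5 h6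
    _ = _ := by ring

/-- lower bound for `mu` -/
theorem lim_mu_ge (m k : ℕ) (hk : 3 ≤ k) (hW : 1 ≤ W k) : 4 * k ≤ mu m k := by
  have h1 : k * (k + 1) * 1 ≤ k * (k + 1) * W k := Nat.mul_le_mul_left _ hW
  have h2 : 4 * k ≤ k * (k + 1) := by nlinarith
  unfold mu
  omega

theorem lim_W_one (k : ℕ) : 1 ≤ W k := by
  unfold W
  rw [Nat.one_le_div_iff (by positivity)]
  exact Nat.pow_le_pow_left (by norm_num) k

theorem lim_W_k : ∀ᶠ k : ℕ in atTop, k ≤ W k := by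
  filter_upwards [lim_ev 1 (4 / 7) 2 1 (by rw [abs_of_pos] <;> norm_num) one_pos,
    eventually_ge_atTop 1] with k hk hk1
  have h1 := W_ge k
  have h2 : 2 * (k : ℝ) ≤ (7 / 4) ^ k := by
    have e : ((4 : ℝ) / 7) ^ k = ((7 / 4) ^ k)⁻¹ := by
      rw [← inv_pow]
      norm_num
    rw [e, pow_one, ← div_eq_mul_inv, ← mul_div_assoc, div_le_iff₀ (by positivity)] at hk
    linarith
  have hk' : (1 : ℝ) ≤ k := by exact_mod_cast hk1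
  have h3 : (k : ℝ) ≤ W k := by linarith
  exact_mod_cast h3

theorem lim_W_lt (k : ℕ) (hk : 1 ≤ k) : W k < 2 ^ k := by
  have h1 := W_le k
  have h2 : ((7 : ℝ) / 4) ^ k < 2 ^ k := pow_lt_pow_left₀ (by norm_num) (by norm_num) (by omega)
  have h3 : (W k : ℝ) < ((2 ^ k : ℕ) : ℝ) := by
    push_cast
    linarith
  exact_mod_cast h3

theorem lim_A : ∀ᶠ k : ℕ in atTop, (3 / 2 : ℝ) ^ k * (k * (1 / W k)) ≤ 1 / 24 := by
  filter_upwards [lim_ev 1 (6 / 7) 2 (1 / 24) (by rw [abs_of_pos] <;> norm_num) (by norm_num),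
    eventually_ge_atTop 2] with k hk hk1
  refine le_trans ?_ hk
  have h1 := W_ge k
  have h2 : (2 : ℝ) ≤ (7 / 4) ^ k := by
    calc (2 : ℝ) ≤ (7 / 4) ^ 2 := by norm_num
      _ ≤ (7 / 4) ^ k := pow_le_pow_right₀ (by norm_num) hk1
  have h3 : (7 / 4 : ℝ) ^ k / 2 ≤ W k := by linarith
  have h4 : 1 / (W k : ℝ) ≤ 2 / (7 / 4 : ℝ) ^ k := by
    rw [div_le_div_iff₀ (by linarith) (by positivity)]
    linarith
  have h5 : (2 / (7 / 4 : ℝ) ^ k) = 2 * (4 / 7) ^ k := by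
    rw [div_eq_mul_inv, ← inv_pow]
    norm_num
  rw [h5] at h4
  calc (3 / 2 : ℝ) ^ k * (k * (1 / W k)) ≤ (3 / 2 : ℝ) ^ k * (k * (2 * (4 / 7) ^ k)) := by
        gcongr
    _ = 2 * ((k : ℝ) ^ 1 * ((3 / 2) ^ k * (4 / 7) ^ k)) := by ring
    _ = _ := by
      rw [← mul_pow]
      norm_num

theorem lim_B (m c : ℕ) (hc : 2 ≤ c) : ∀ᶠ k : ℕ in atTop, (3 / 2 : ℝ) ^ k *
    (k * ((1 + Real.log (2 ^ ((c + 1) * mu m k + 1))) / 2 ^ (c * mu m k))) ≤ 1 / 24 := by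
  filter_upwards [lim_ev 1 (243 / 512) 4 (1 / 24) (by rw [abs_of_pos] <;> norm_num) (by norm_num),
    eventually_ge_atTop 3] with k hk hk1
  refine le_trans ?_ hk
  have hmu := lim_mu_ge m k hk1 (lim_W_one k)
  have h1 : 1 + Real.log (2 ^ ((c + 1) * mu m k + 1)) ≤ 2 * (((c * mu m k : ℕ) : ℝ) + 1) := by
    have h2 := lim_log ((c + 1) * mu m k + 1)
    have h3 : (((c + 1) * mu m k + 1 : ℕ) : ℝ) + 1 ≤ 2 * (((c * mu m k : ℕ) : ℝ) + 1) := by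
      have h4 : (c + 1) * mu m k + 1 + 1 ≤ 2 * (c * mu m k + 1) := by nlinarith
      exact_mod_cast h4
    linarith
  have h5 : (1 + Real.log (2 ^ ((c + 1) * mu m k + 1))) / 2 ^ (c * mu m k) ≤
      4 * (3 / 4) ^ (4 * k) := by
    calc (1 + Real.log (2 ^ ((c + 1) * mu m k + 1))) / 2 ^ (c * mu m k)
        ≤ 2 * (((c * mu m k : ℕ) : ℝ) + 1) / 2 ^ (c * mu m k) := by gcongr
      _ = 2 * ((((c * mu m k : ℕ) : ℝ) + 1) * (1 / 2) ^ (c * mu m k)) := by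
          rw [one_div, inv_pow]
          ring
      _ ≤ 2 * (2 * (3 / 4) ^ (c * mu m k)) :=
          mul_le_mul_of_nonneg_left (lim_bern _) (by norm_num)
      _ = 4 * (3 / 4) ^ (c * mu m k) := by ring
      _ ≤ 4 * (3 / 4) ^ (4 * k) := by
          have h6 : 4 * k ≤ c * mu m k := by nlinarith
          have h7 : ((3 : ℝ) / 4) ^ (c * mu m k) ≤ (3 / 4) ^ (4 * k) :=
            pow_le_pow_of_le_one (by norm_num) (by norm_num) h6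
          linarith
  calc (3 / 2 : ℝ) ^ k * (k * ((1 + Real.log (2 ^ ((c + 1) * mu m k + 1))) / 2 ^ (c * mu m k)))
      ≤ (3 / 2 : ℝ) ^ k * (k * (4 * (3 / 4) ^ (4 * k))) := by gcongr
    _ = 4 * ((k : ℝ) ^ 1 * ((3 / 2) ^ k * ((3 / 4) ^ 4) ^ k)) := by
        rw [← pow_mul]
        ring
    _ = _ := by
      rw [← mul_pow]
      norm_num

theorem lim_C : ∀ᶠ k : ℕ in atTop, (3 / 2 : ℝ) ^ k * (k * ((k : ℝ) ^ 2 / 4 ^ (k + 1))) ≤ 1 / 24 := by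
  filter_upwards [lim_ev 3 (3 / 8) (1 / 4) (1 / 24) (by rw [abs_of_pos] <;> norm_num)
    (by norm_num)] with k hk
  refine le_trans (le_of_eq ?_) hk
  have e : ((3 : ℝ) / 8) ^ k = (3 / 2) ^ k * (1 / 4) ^ k := by
    rw [← mul_pow]
    norm_num
  rw [e, pow_succ, one_div_pow]
  field_simp
  ring

theorem lim_5 (m c : ℕ) (hc : 2 ≤ c) : ∀ᶠ k : ℕ in atTop,
    (3 / 2 : ℝ) ^ k * (k * (1 / W k + (1 + Real.log (2 ^ ((c + 1) * mu m k + 1))) /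
      2 ^ (c * mu m k) + (k : ℝ) ^ 2 / 4 ^ (k + 1))) ≤ 1 / 8 := by
  filter_upwards [lim_A, lim_B m c hc, lim_C] with k h1 h2 h3
  have e : (3 / 2 : ℝ) ^ k * (k * (1 / W k + (1 + Real.log (2 ^ ((c + 1) * mu m k + 1))) /
      2 ^ (c * mu m k) + (k : ℝ) ^ 2 / 4 ^ (k + 1))) =
      (3 / 2 : ℝ) ^ k * (k * (1 / W k)) + (3 / 2 : ℝ) ^ k *
      (k * ((1 + Real.log (2 ^ ((c + 1) * mu m k + 1))) / 2 ^ (c * mu m k))) +
      (3 / 2 : ℝ) ^ k * (k * ((k : ℝ) ^ 2 / 4 ^ (k + 1))) := by ring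
  rw [e]
  linarith

theorem lim_6 (m c : ℕ) (ε : ℝ) (hε : 0 < ε) : ∀ᶠ k : ℕ in atTop,
    2 * (((k : ℝ) + 2) * (1 / 2) ^ k * (1 + Real.log (2 ^ (c * mu m k))) + (1 / 2) ^ k) ≤ ε / 8 := by
  filter_upwards [lim_ev 5 (7 / 8) (6 * (1 + c * (2 + 12 * m)) + 2) (ε / 8)
    (by rw [abs_of_pos] <;> norm_num) (by positivity), eventually_ge_atTop 1] with k hk hk1
  refine le_trans ?_ hk
  have hk' : (1 : ℝ) ≤ k := by exact_mod_cast hk1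
  have h1 := lim_log (c * mu m k)
  have h2 := lim_mu_le m k hk1
  have h4 : (1 : ℝ) ≤ (k : ℝ) ^ 4 * (7 / 4) ^ k :=
    one_le_mul_of_one_le_of_one_le (one_le_pow₀ hk') (one_le_pow₀ (by norm_num))
  have h5 : 1 + Real.log (2 ^ (c * mu m k)) ≤
      (1 + c * (2 + 12 * m)) * ((k : ℝ) ^ 4 * (7 / 4) ^ k) := by
    push_cast at h1
    have h6 : (c : ℝ) * (mu m k : ℝ) ≤ c * ((2 + 12 * m) * ((k : ℝ) ^ 4 * (7 / 4) ^ k)) :=
      mul_le_mul_of_nonneg_left h2 (by positivity)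
    calc 1 + Real.log (2 ^ (c * mu m k)) ≤ (k : ℝ) ^ 4 * (7 / 4) ^ k +
          c * ((2 + 12 * m) * ((k : ℝ) ^ 4 * (7 / 4) ^ k)) := by linarith
      _ = _ := by ring
  have e : ((7 : ℝ) / 8) ^ k = (1 / 2) ^ k * (7 / 4) ^ k := by
    rw [← mul_pow]
    norm_num
  have h6 : ((k : ℝ) + 2) ≤ 3 * k := by linarith
  have h7 : ((k : ℝ) + 2) * (1 / 2) ^ k * (1 + Real.log (2 ^ (c * mu m k))) ≤
      3 * k * (1 / 2) ^ k * ((1 + c * (2 + 12 * m)) * ((k : ℝ) ^ 4 * (7 / 4) ^ k)) := by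
    have := lim_log_nonneg (c * mu m k)
    apply mul_le_mul _ h5 (by linarith) (by positivity)
    exact mul_le_mul_of_nonneg_right h6 (by positivity)
  have h8 : ((1 : ℝ) / 2) ^ k ≤ (k : ℝ) ^ 5 * (7 / 8) ^ k := by
    have h9 : ((1 : ℝ) / 2) ^ k ≤ (7 / 8) ^ k := pow_le_pow_left₀ (by norm_num) (by norm_num) k
    have h10 : (1 : ℝ) ≤ (k : ℝ) ^ 5 := one_le_pow₀ hk'
    calc ((1 : ℝ) / 2) ^ k ≤ 1 * (7 / 8) ^ k := by linarith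
      _ ≤ _ := mul_le_mul_of_nonneg_right h10 (by positivity)
  calc 2 * (((k : ℝ) + 2) * (1 / 2) ^ k * (1 + Real.log (2 ^ (c * mu m k))) + (1 / 2) ^ k)
      ≤ 2 * (3 * k * (1 / 2) ^ k * ((1 + c * (2 + 12 * m)) * ((k : ℝ) ^ 4 * (7 / 4) ^ k)) +
        (k : ℝ) ^ 5 * (7 / 8) ^ k) := by linarith
    _ = _ := by
      rw [e]
      ring

theorem lim_7 (m c : ℕ) (hc : 2 ≤ c) (β S : ℝ) (hβ0 : 0 ≤ β) (hβ : β < 1)
    (hcβ : 1 + β ≤ c * (1 - β)) (hS : 0 ≤ S) : ∀ᶠ k : ℕ in atTop,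
    k * (S * ((2 : ℝ) ^ ((c + 1) * mu m k + 1)) ^ β) ≤ 2 ^ (c * mu m k) / 8 := by
  filter_upwards [lim_ev 1 (1 / 2) (16 * S) 1 (by rw [abs_of_pos] <;> norm_num) one_pos,
    eventually_ge_atTop 3] with k hk hk1
  have hmu := lim_mu_ge m k hk1 (lim_W_one k)
  have h1 : 16 * S * k ≤ 2 ^ k := by
    rw [pow_one, one_div_pow, mul_one_div, ← mul_div_assoc, div_le_iff₀ (by positivity),
      one_mul] at hk
    exact hk
  have h2 : (2 : ℝ) ^ k ≤ 2 ^ (mu m k) := pow_le_pow_right₀ (by norm_num) (by omega)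
  have h3 : ((2 : ℝ) ^ ((c + 1) * mu m k + 1)) ^ β ≤
      (2 : ℝ) ^ (((c : ℝ) - 1) * (mu m k : ℝ) + 1) := by
    rw [← Real.rpow_natCast, ← Real.rpow_mul (by norm_num)]
    apply Real.rpow_le_rpow_of_exponent_le (by norm_num)
    push_cast
    have h4 : ((c : ℝ) + 1) * β ≤ c - 1 := by linarith
    have h5 : ((c : ℝ) + 1) * β * (mu m k : ℝ) ≤ (c - 1) * (mu m k : ℝ) :=
      mul_le_mul_of_nonneg_right h4 (by positivity)
    linarith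
  have h6 : (2 : ℝ) ^ (((c : ℝ) - 1) * (mu m k : ℝ) + 1) * 2 ^ (mu m k) = 2 * 2 ^ (c * mu m k) := by
    rw [← Real.rpow_natCast 2 (mu m k), ← Real.rpow_natCast 2 (c * mu m k),
      ← Real.rpow_add (by norm_num)]
    have e : ((c : ℝ) - 1) * (mu m k : ℝ) + 1 + (mu m k : ℝ) = 1 + ((c * mu m k : ℕ) : ℝ) := by
      push_cast
      ring
    rw [e, Real.rpow_add (by norm_num), Real.rpow_one]
  have h7 : 0 < (2 : ℝ) ^ (((c : ℝ) - 1) * (mu m k : ℝ) + 1) := Real.rpow_pos_of_pos (by norm_num) _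
  have h8 : 16 * S * k ≤ 2 ^ (mu m k) := h1.trans h2
  have h9 := mul_le_mul_of_nonneg_left h8 h7.le
  rw [h6] at h9
  have h10 : (k : ℝ) * (S * ((2 : ℝ) ^ ((c + 1) * mu m k + 1)) ^ β) ≤
      k * (S * (2 : ℝ) ^ (((c : ℝ) - 1) * (mu m k : ℝ) + 1)) := by
    gcongr
  linarith

theorem lim_8 (m c : ℕ) (ε : ℝ) (hε : 0 < ε) : ∀ᶠ k : ℕ in atTop,
    ((2 : ℝ) ^ ((c + 1) * mu m k) + (2 * ((c + 1) * mu m k + 1) + 2 * k) + 2) *
      (1 / 2) ^ (2 * ((c + 1) * mu m k + 1) + 2 * k) ≤ ε / 2 := by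
  filter_upwards [lim_ev 0 (3 / 4) 5 (ε / 2) (by rw [abs_of_pos] <;> norm_num) (by positivity)]
    with k hk
  refine le_trans ?_ hk
  obtain ⟨n, hn⟩ : ∃ n, n = (c + 1) * mu m k := ⟨_, rfl⟩
  have hn' : ((c : ℝ) + 1) * (mu m k : ℝ) = n := by
    rw [hn]
    push_cast
    ring
  rw [hn', ← hn]
  obtain ⟨N, hN⟩ : ∃ N, N = 2 * (n + 1) + 2 * k := ⟨_, rfl⟩
  have hN' : (2 * ((n : ℝ) + 1) + 2 * k) = N := by
    rw [hN]
    push_cast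
    ring
  rw [hN', ← hN]
  have h1 : (2 : ℝ) ^ n * (1 / 2) ^ N ≤ (3 / 4) ^ k := by
    calc (2 : ℝ) ^ n * (1 / 2) ^ N ≤ 2 ^ n * (1 / 2) ^ (n + k) := by
          apply mul_le_mul_of_nonneg_left _ (by positivity)
          exact pow_le_pow_of_le_one (by norm_num) (by norm_num) (by omega)
      _ = (2 * (1 / 2)) ^ n * (1 / 2) ^ k := by
          rw [mul_pow, pow_add]
          ring
      _ = (1 / 2) ^ k := by norm_num
      _ ≤ (3 / 4) ^ k := pow_le_pow_left₀ (by norm_num) (by norm_num) k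
  have h2 : ((N : ℝ) + 2) * (1 / 2) ^ N ≤ 4 * (3 / 4) ^ k := by
    have h3 := lim_bern N
    have h4 : ((3 : ℝ) / 4) ^ N ≤ (3 / 4) ^ k :=
      pow_le_pow_of_le_one (by norm_num) (by norm_num) (by omega)
    calc ((N : ℝ) + 2) * (1 / 2) ^ N ≤ (2 * ((N : ℝ) + 1)) * (1 / 2) ^ N := by
          apply mul_le_mul_of_nonneg_right _ (by positivity)
          linarith [N.cast_nonneg (α := ℝ)]
      _ ≤ 4 * (3 / 4) ^ k := by linarith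
  calc ((2 : ℝ) ^ n + N + 2) * (1 / 2) ^ N = 2 ^ n * (1 / 2) ^ N + ((N : ℝ) + 2) * (1 / 2) ^ N := by
        ring
    _ ≤ (3 / 4) ^ k + 4 * (3 / 4) ^ k := add_le_add h1 h2
    _ = 5 * ((k : ℝ) ^ 0 * (3 / 4) ^ k) := by ring

theorem lim_9 (m c : ℕ) : ∀ᶠ k : ℕ in atTop,
    2 * ((c + 1) * mu m k + 1) + 2 * k + 2 < 4 ^ (k + 1) := by
  filter_upwards [lim_ev 4 (7 / 16) (2 * (c + 1) * (2 + 12 * m) + 6) 1
    (by rw [abs_of_pos] <;> norm_num) one_pos, eventually_ge_atTop 1] with k hk hk1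
  have hk' : (1 : ℝ) ≤ k := by exact_mod_cast hk1
  have h2 := lim_mu_le m k hk1
  have e : ((7 : ℝ) / 16) ^ k = (7 / 4) ^ k / 4 ^ k := by
    rw [← div_pow]
    norm_num
  rw [e, ← mul_div_assoc, ← mul_div_assoc, div_le_iff₀ (by positivity), one_mul] at hk
  have h4 : (k : ℝ) ≤ (k : ℝ) ^ 4 * (7 / 4) ^ k := by
    calc (k : ℝ) = (k : ℝ) ^ 1 * 1 := by ring
      _ ≤ (k : ℝ) ^ 4 * (7 / 4) ^ k := mul_le_mul (pow_le_pow_right₀ hk' (by norm_num))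
          (one_le_pow₀ (by norm_num)) (by norm_num) (by positivity)
  have h5 : (2 * ((c : ℝ) + 1)) * (mu m k : ℝ) ≤
      (2 * ((c : ℝ) + 1)) * ((2 + 12 * m) * ((k : ℝ) ^ 4 * (7 / 4) ^ k)) :=
    mul_le_mul_of_nonneg_left h2 (by positivity)
  have h6 : (0 : ℝ) < 4 ^ k := by positivity
  have h7 : ((2 * ((c + 1) * mu m k + 1) + 2 * k + 2 : ℕ) : ℝ) < ((4 ^ (k + 1) : ℕ) : ℝ) := by
    push_cast
    rw [pow_succ]
    have h8 : 2 * (((c : ℝ) + 1) * (mu m k : ℝ) + 1) + 2 * k + 2 ≤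
        (2 * (c + 1) * (2 + 12 * m) + 6) * ((k : ℝ) ^ 4 * (7 / 4) ^ k) := by
      linarith
    linarith
  exact_mod_cast h7

theorem lim_10 (m c : ℕ) : ∀ᶠ k : ℕ in atTop,
    (2 ^ ((c + 1) * mu m k) + (2 * ((c + 1) * mu m k + 1) + 2 * k) + 2 ≤
      2 ^ ((c + 1) * mu m k + 1)) := by
  filter_upwards [eventually_ge_atTop 3] with k hk1
  have hmu := lim_mu_ge m k hk1 (lim_W_one k)
  obtain ⟨n, hn⟩ : ∃ n, n = (c + 1) * mu m k := ⟨_, rfl⟩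
  have h1 : mu m k ≤ n := by
    rw [hn]
    nlinarith
  rw [← hn, pow_succ]
  have h2 := lim_four n (by omega)
  omega

/-- all the limits: `T = 2 ^ (c μ)`, `X = 2 ^ ((c+1) μ + 1)`, `K' = 2 ((c+1) μ + 1) + 2 k` -/
theorem limits (m c : ℕ) (hc : 2 ≤ c) (β S ε : ℝ) (hβ0 : 0 ≤ β) (hβ : β < 1)
    (hcβ : 1 + β ≤ c * (1 - β)) (hS : 0 ≤ S) (hε : 0 < ε) : ∀ᶠ k : ℕ in atTop,
    1 ≤ k ∧ 1 ≤ W k ∧ k ≤ W k ∧ W k < 2 ^ k ∧
    (3 / 2 : ℝ) ^ k * (k * (1 / W k + (1 + Real.log (2 ^ ((c + 1) * mu m k + 1))) /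
      2 ^ (c * mu m k) + (k : ℝ) ^ 2 / 4 ^ (k + 1))) ≤ 1 / 8 ∧
    2 * (((k : ℝ) + 2) * (1 / 2) ^ k * (1 + Real.log (2 ^ (c * mu m k))) + (1 / 2) ^ k) ≤ ε / 8 ∧
    k * (S * ((2 : ℝ) ^ ((c + 1) * mu m k + 1)) ^ β) ≤ 2 ^ (c * mu m k) / 8 ∧
    ((2 : ℝ) ^ ((c + 1) * mu m k) + (2 * ((c + 1) * mu m k + 1) + 2 * k) + 2) *
      (1 / 2) ^ (2 * ((c + 1) * mu m k + 1) + 2 * k) ≤ ε / 2 ∧
    2 * ((c + 1) * mu m k + 1) + 2 * k + 2 < 4 ^ (k + 1) ∧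
    (2 ^ ((c + 1) * mu m k) + (2 * ((c + 1) * mu m k + 1) + 2 * k) + 2 ≤
      2 ^ ((c + 1) * mu m k + 1)) := by
  filter_upwards [eventually_ge_atTop 1, lim_W_k, lim_5 m c hc, lim_6 m c ε hε,
    lim_7 m c hc β S hβ0 hβ hcβ hS, lim_8 m c ε hε, lim_9 m c, lim_10 m c]
    with k h1 h3 h5 h6 h7 h8 h9 h10
  exact ⟨h1, lim_W_one k, h3, lim_W_lt k h1, h5, h6, h7, h8, h9, h10⟩

end Pool.Agent.Helper26.LV
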