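import Pool.Agent.Helper26.LV.Choice
import Pool.Agent.Helper26.LV.AvgA
import Pool.Agent.Helper26.LV.AvgB
import Pool.Agent.Helper26.LV.Crt
import Pool.Agent.Helper26.LV.Lim

set_option autoImplicit false

namespace Pool.Agent.Helper26.LV

open Finset Filter Topology Pool.Agent.Helper89.Lambert

theorem en_half_sum (k K : ℕ) : ∑ j ∈ Finset.Icc (k + 1) K, (j : ℝ) * (1 / 2) ^ j ≤
    ((k : ℝ) + 2) * (1 / 2) ^ k := by
  have h : ∀ K, k ≤ K → ∑ j ∈ Finset.Icc (k + 1) K, (j : ℝ) * (1 / 2) ^ j =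
      ((k : ℝ) + 2) * (1 / 2) ^ k - ((K : ℝ) + 2) * (1 / 2) ^ K := by
    intro K hK
    induction K, hK using Nat.le_induction with
    | base => simp
    | succ n hn ih =>
      rw [Finset.sum_Icc_succ_top (by omega), ih]
      push_cast
      rw [pow_succ]
      ring
  rcases le_or_gt k K with hK | hK
  · rw [h K hK]
    have : (0 : ℝ) ≤ ((K : ℝ) + 2) * (1 / 2) ^ K := by positivity
    linarith
  · rw [Finset.Icc_eq_empty (by omega)]
    simp only [sum_empty]
    positivity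

open Classical in
theorem en_card_B (β : ℝ) (hβ0 : 0 ≤ β) (B : Set ℕ) (hB : Thin β B) (w X : ℕ) (hX : 0 < X) :
    (((Finset.Ioc w X).filter (· ∈ B)).card : ℝ) ≤
      (∑' b : B, ((b : ℕ) : ℝ) ^ (-β)) * (X : ℝ) ^ β := by
  set s := (Finset.Ioc w X).filter (· ∈ B) with hs
  have hX' : (0 : ℝ) < X := by exact_mod_cast hX
  -- the sum over `s`
  have h1 : ∑ b ∈ s, (b : ℝ) ^ (-β) ≤ ∑' b : B, ((b : ℕ) : ℝ) ^ (-β) := by
    let s' : Finset B := s.subtype (· ∈ B)
    have h2 : ∑ b ∈ s, (b : ℝ) ^ (-β) = ∑ b ∈ s', ((b : ℕ) : ℝ) ^ (-β) := by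
      rw [Finset.sum_subtype_of_mem (f := fun b : ℕ => (b : ℝ) ^ (-β))]
      intro x hx
      exact (Finset.mem_filter.1 hx).2
    rw [h2]
    exact hB.sum_le_tsum _ fun b _ => Real.rpow_nonneg (by positivity) _
  have h3 : (s.card : ℝ) * (X : ℝ) ^ (-β) ≤ ∑ b ∈ s, (b : ℝ) ^ (-β) := by
    rw [← nsmul_eq_mul]
    refine Finset.card_nsmul_le_sum _ _ _ fun b hb => ?_
    have hb' := Finset.mem_Ioc.1 (Finset.mem_filter.1 hb).1
    have hb0 : (0 : ℝ) < b := by
      have : 0 < b := by omega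
      exact_mod_cast this
    exact Real.rpow_le_rpow_of_nonpos hb0 (by exact_mod_cast hb'.2) (by linarith)
  have h4 : (X : ℝ) ^ (-β) * (X : ℝ) ^ β = 1 := by
    rw [← Real.rpow_add hX', neg_add_cancel, Real.rpow_zero]
  calc (s.card : ℝ) = (s.card : ℝ) * (X : ℝ) ^ (-β) * (X : ℝ) ^ β := by rw [mul_assoc, h4, mul_one]
    _ ≤ _ := mul_le_mul_of_nonneg_right (h3.trans h1) (Real.rpow_nonneg hX'.le _)

theorem exists_N (m : ℕ) (hm : 0 < m) (β : ℝ) (hβ0 : 0 ≤ β) (hβ : β * (2 * m - 1) < 1) (B : Set ℕ)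
    (hB : Thin β B) (ε : ℝ) (hε : 0 < ε) : ∀ᶠ k : ℕ in atTop,
    ∃ (p : Fin k × Fin k → ℕ) (N K' : ℕ), Function.Injective p ∧
      (∀ x, (p x).Prime ∧ 2 ^ k < p x) ∧ k ≤ K' ∧ k ≤ W k ∧ 0 < N ∧
      (W k).factorial ^ (k + 1) ∣ N ∧
      (∀ x, (N + (x.1 : ℕ) + 1).factorization (p x) = 2 * m - 1) ∧
      (∀ j, 1 ≤ j → j ≤ k →
        ∑ q ∈ (N + j).primeFactors.filter (W k < ·), (1 : ℝ) / q ≤ (2 / 3) ^ k) ∧
      (∑ j ∈ Finset.Icc (k + 1) K', ((N + j).divisors.card : ℝ) * (1 / 2) ^ j +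
        (N + K' + 2) * (1 / 2) ^ K' < ε) ∧
      (∀ j, 1 ≤ j → j ≤ k → ∀ b ∈ B, b ∣ N + j → b ∣ j) := by
  classical
  have hm1 : (1 : ℝ) ≤ m := by exact_mod_cast hm
  have hβ1 : β < 1 := by nlinarith
  obtain ⟨c, hc⟩ : ∃ c : ℕ, 2 ≤ c ∧ 1 + β ≤ c * (1 - β) := by
    obtain ⟨c, hc⟩ := exists_nat_ge ((1 + β) / (1 - β))
    refine ⟨c + 2, by omega, ?_⟩
    rw [div_le_iff₀ (by linarith)] at hc
    push_cast
    nlinarith
  set S : ℝ := ∑' b : B, ((b : ℕ) : ℝ) ^ (-β) with hS
  have hS0 : 0 ≤ S := tsum_nonneg fun b => Real.rpow_nonneg (by positivity) _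
  filter_upwards [choice m hm β hβ0 hβ B hB, limits m c hc.1 β S ε hβ0 hβ1 hc.2 hS0 hε]
    with k hch hlim
  obtain ⟨hk1, hW1, hkW, hW2, h1, h2, h3, h4, h5, h6⟩ := hlim
  set μ := mu m k with hμ
  have hμ1 : 1 ≤ μ := by
    rw [hμ, mu]
    have : 1 ≤ k * (k + 1) * W k := Nat.succ_le_of_lt (by positivity)
    omega
  set T : ℕ := 2 ^ (c * μ) with hT
  set X : ℕ := 2 ^ ((c + 1) * μ + 1) with hX
  set K' : ℕ := 2 * ((c + 1) * μ + 1) + 2 * k with hK'
  have hTpos : 0 < T := by positivity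
  have hTR : (0 : ℝ) < (T : ℝ) := by exact_mod_cast hTpos
  have hTc : (2 : ℝ) ^ (c * μ) = (T : ℝ) := by rw [hT]; push_cast; rfl
  have hXc : (2 : ℝ) ^ ((c + 1) * μ + 1) = (X : ℝ) := by rw [hX]; push_cast; rfl
  rw [hTc, hXc] at h1
  rw [hTc] at h2
  rw [hTc, hXc] at h3
  obtain ⟨p, hpP, hchoice⟩ := hch X
  obtain ⟨hinj, hprime, hp4, hp2, hpk, hpw⟩ := pp_facts p hpP
  obtain ⟨n₀, hn₀lt, hn₀R, hfac⟩ := exists_n0 m hm p hprime hinj hpw
  have hM := mod_le m p hpP
  have hRM : (W k).factorial ^ (k + 1) ∣ Mod m p := dvd_mul_right _ _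
  have hNt : ∀ t < T, n₀ + t * Mod m p ≤ 2 ^ ((c + 1) * μ) := by
    intro t ht
    calc n₀ + t * Mod m p ≤ Mod m p + t * Mod m p := Nat.add_le_add_right hn₀lt.le _
      _ = (t + 1) * Mod m p := by ring
      _ ≤ T * 2 ^ μ := Nat.mul_le_mul ht hM
      _ = 2 ^ ((c + 1) * μ) := by rw [hT, ← pow_add]; congr 1; ring
  have hNX : ∀ t < T, n₀ + t * Mod m p + K' + 2 ≤ X := by
    intro t ht
    have := hNt t ht
    omega
  have hkK : k ≤ K' := by omega
  have hXT : X ≤ T * T := by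
    rw [hX, hT, ← pow_add]
    apply Nat.pow_le_pow_right (by norm_num)
    have h7 : 1 ≤ (c - 1) * μ := Nat.succ_le_of_lt (Nat.mul_pos (by omega) hμ1)
    have h8 : c * μ = (c - 1) * μ + μ := by
      conv_lhs => rw [show c = (c - 1) + 1 by omega]
      ring
    have h9 : (c + 1) * μ = c * μ + μ := by ring
    omega
  -- the three averages
  let N : ℕ → ℕ := fun t => n₀ + t * Mod m p
  let X1 : ℕ → ℝ := fun t => ∑ j ∈ Finset.Icc 1 k,
    ∑ q ∈ (N t + j).primeFactors.filter (W k < ·), (1 : ℝ) / q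
  let X2 : ℕ → ℝ := fun t => ∑ j ∈ Finset.Icc (k + 1) K',
    ((N t + j).divisors.card : ℝ) * (1 / 2) ^ j
  let X3 : ℕ → ℝ := fun t => ∑ j ∈ Finset.Icc 1 k,
    (((Finset.Icc 1 X).filter fun b => b ∈ B ∧ b ∣ N t + j ∧ ¬ b ∣ j).card : ℝ)
  have hN0 : ∀ t j, n₀ + t * Mod m p + j = (n₀ + j) + t * Mod m p := fun t j => by ring
  -- first average
  have hX1 : (3 / 2 : ℝ) ^ k * ∑ t ∈ range T, X1 t ≤ T / 8 := by
    have hj : ∀ j ∈ Finset.Icc 1 k, ∑ t ∈ range T,
        ∑ q ∈ (N t + j).primeFactors.filter (W k < ·), (1 : ℝ) / q ≤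
        T * (1 / W k) + (1 + Real.log X) + (k : ℝ) ^ 2 * (T / 4 ^ (k + 1)) := by
      intro j hj
      have hj' := Finset.mem_Icc.1 hj
      have h7 := avg_primes (W k) (4 ^ (k + 1)) (Mod m p) T X (n₀ + j) hW1 (by positivity)
        (by omega) (Finset.univ.image p) (by
          intro q hq hwq hqM
          rw [Mod, hq.dvd_mul] at hqM
          rcases hqM with h8 | h8
          · have h9 := hq.dvd_of_dvd_pow h8
            rw [hq.dvd_factorial] at h9
            omega
          · obtain ⟨x, _, hx⟩ := (hq.prime.dvd_finsetProd_iff _).1 h8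
            have h9 := hq.dvd_of_dvd_pow hx
            rw [Nat.prime_dvd_prime_iff_eq hq (hprime x)] at h9
            exact Finset.mem_image.2 ⟨x, Finset.mem_univ _, h9.symm⟩)
        (by
          intro q hq
          obtain ⟨x, _, rfl⟩ := Finset.mem_image.1 hq
          exact hp4 x)
        (by
          intro t ht
          have := hNX t ht
          omega) (by
          rw [hX]; exact Nat.one_le_two_pow)
      have h8 : ((Finset.univ.image p).card : ℝ) ≤ (k : ℝ) ^ 2 := by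
        have : (Finset.univ.image p).card ≤ k ^ 2 := by
          refine Finset.card_image_le.trans ?_
          rw [Finset.card_univ, Fintype.card_prod, Fintype.card_fin, sq]
        exact_mod_cast this
      have h10 : ∑ t ∈ range T, ∑ q ∈ (N t + j).primeFactors.filter (W k < ·), (1 : ℝ) / q =
          ∑ t ∈ range T, ∑ q ∈ ((n₀ + j) + t * Mod m p).primeFactors.filter (W k < ·),
            (1 : ℝ) / q := by
        refine Finset.sum_congr rfl fun t _ => ?_
        rw [← hN0]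
      rw [h10]
      refine h7.trans ?_
      have h11 : ((Finset.univ.image p).card : ℝ) * (T / ((4 ^ (k + 1) : ℕ) : ℝ)) ≤
          (k : ℝ) ^ 2 * (T / 4 ^ (k + 1)) := by
        push_cast
        exact mul_le_mul_of_nonneg_right h8 (by positivity)
      linarith
    have h12 : ∑ t ∈ range T, X1 t ≤
        k * (T * (1 / W k) + (1 + Real.log X) + (k : ℝ) ^ 2 * (T / 4 ^ (k + 1))) := by
      calc ∑ t ∈ range T, X1 t = ∑ j ∈ Finset.Icc 1 k, ∑ t ∈ range T,
            ∑ q ∈ (N t + j).primeFactors.filter (W k < ·), (1 : ℝ) / q := Finset.sum_comm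
        _ ≤ ∑ _j ∈ Finset.Icc 1 k,
            (T * (1 / W k) + (1 + Real.log X) + (k : ℝ) ^ 2 * (T / 4 ^ (k + 1))) :=
            Finset.sum_le_sum hj
        _ = _ := by rw [Finset.sum_const, Nat.card_Icc, Nat.add_sub_cancel, nsmul_eq_mul]
    have h13 : (k : ℝ) * (T * (1 / W k) + (1 + Real.log X) + (k : ℝ) ^ 2 * (T / 4 ^ (k + 1))) =
        T * (k * (1 / W k + (1 + Real.log X) / T + (k : ℝ) ^ 2 / 4 ^ (k + 1))) := by
      field_simp
    calc (3 / 2 : ℝ) ^ k * ∑ t ∈ range T, X1 t ≤ (3 / 2 : ℝ) ^ k *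
          (T * (k * (1 / W k + (1 + Real.log X) / T + (k : ℝ) ^ 2 / 4 ^ (k + 1)))) := by
          rw [← h13]
          exact mul_le_mul_of_nonneg_left h12 (by positivity)
      _ = T * ((3 / 2 : ℝ) ^ k *
          (k * (1 / W k + (1 + Real.log X) / T + (k : ℝ) ^ 2 / 4 ^ (k + 1)))) := by ring
      _ ≤ T * (1 / 8) := mul_le_mul_of_nonneg_left h1 hTR.le
      _ = _ := by ring
  -- second average
  have hX2 : ∑ t ∈ range T, X2 t ≤ T * (ε / 8) := by
    have hj : ∀ j ∈ Finset.Icc (k + 1) K', ∑ t ∈ range T, ((N t + j).divisors.card : ℝ) ≤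
        2 * (T * j * (1 + Real.log T) + T) := by
      intro j hj
      have hj' := Finset.mem_Icc.1 hj
      have h10 : ∑ t ∈ range T, ((N t + j).divisors.card : ℝ) =
          ∑ t ∈ range T, (((n₀ + j) + t * Mod m p).divisors.card : ℝ) := by
        refine Finset.sum_congr rfl fun t _ => ?_
        rw [← hN0]
      rw [h10]
      refine avg_div (n₀ + j) (Mod m p) T T j (by omega) ?_ hTpos ?_
      · intro t ht
        have := hNX t ht
        have h11 : n₀ + j + t * Mod m p ≤ X := by omega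
        exact h11.trans hXT
      · intro t ht δ hδ
        -- the gcd divides `j`
        set g := Nat.gcd δ (Mod m p) with hg
        have hgN : g ∣ n₀ + j + t * Mod m p := (Nat.gcd_dvd_left _ _).trans hδ
        have hgP : Nat.Coprime g (∏ x, p x ^ (2 * m)) := by
          apply Nat.Coprime.prod_right
          intro x _
          apply Nat.Coprime.pow_right
          rw [Nat.coprime_comm, (hprime x).coprime_iff_not_dvd]
          intro h8
          have h9 : p x ∣ n₀ + t * Mod m p + j := by rw [hN0]; exact h8.trans hgN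
          have h10 : p x ∣ n₀ + t * Mod m p + (x.1 : ℕ) + 1 := by
            refine Nat.dvd_of_factorization_pos ?_
            rw [hfac t x]; omega
          have h11 : p x ∣ j - ((x.1 : ℕ) + 1) := by
            have h12 := (Nat.dvd_sub h9 h10)
            have h13 : n₀ + t * Mod m p + j - (n₀ + t * Mod m p + (x.1 : ℕ) + 1) =
              j - ((x.1 : ℕ) + 1) := by omega
            rwa [h13] at h12
          have hxk := x.1.isLt
          have h12 := Nat.le_of_dvd (by omega) h11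
          have h13 := hp4 x
          omega
        have hgR : g ∣ (W k).factorial ^ (k + 1) := by
          have h8 : g ∣ Mod m p := Nat.gcd_dvd_right _ _
          rw [Mod] at h8
          exact hgP.dvd_of_dvd_mul_right h8
        have hgj : g ∣ j := by
          have h8 : g ∣ n₀ + t * Mod m p :=
            (hgR.trans hn₀R).add ((hgR.trans hRM).mul_left t)
          have h9 : g ∣ (n₀ + t * Mod m p) + j := by rw [hN0]; exact hgN
          exact (Nat.dvd_add_right h8).1 h9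
        exact Nat.le_of_dvd (by omega) hgj
    calc ∑ t ∈ range T, X2 t = ∑ j ∈ Finset.Icc (k + 1) K',
          (∑ t ∈ range T, ((N t + j).divisors.card : ℝ)) * (1 / 2) ^ j := by
          rw [Finset.sum_comm]
          refine Finset.sum_congr rfl fun j _ => ?_
          rw [Finset.sum_mul]
      _ ≤ ∑ j ∈ Finset.Icc (k + 1) K', (2 * (T * j * (1 + Real.log T) + T)) * (1 / 2) ^ j :=
          Finset.sum_le_sum fun j hj' => mul_le_mul_of_nonneg_right (hj j hj') (by positivity)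
      _ = T * (2 * ((∑ j ∈ Finset.Icc (k + 1) K', (j : ℝ) * (1 / 2) ^ j) * (1 + Real.log T) +
          ∑ j ∈ Finset.Icc (k + 1) K', (1 / 2 : ℝ) ^ j)) := by
          rw [Finset.sum_mul, ← Finset.sum_add_distrib, Finset.mul_sum, Finset.mul_sum]
          refine Finset.sum_congr rfl fun j _ => ?_
          ring
      _ ≤ T * (2 * (((k : ℝ) + 2) * (1 / 2) ^ k * (1 + Real.log T) + (1 / 2) ^ k)) := by
          have hlog : 0 ≤ Real.log T := Real.log_nonneg (by exact_mod_cast hTpos)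
          have h7 := en_half_sum k K'
          have h8 := sum_half_Icc_le k K'
          have h9 := mul_le_mul_of_nonneg_right h7 (show (0 : ℝ) ≤ 1 + Real.log T by linarith)
          apply mul_le_mul_of_nonneg_left _ hTR.le
          linarith
      _ ≤ T * (ε / 8) := mul_le_mul_of_nonneg_left h2 hTR.le
  -- third average
  have hX3 : ∑ t ∈ range T, X3 t ≤ T / 4 := by
    have hj : ∀ j ∈ Finset.Icc 1 k, ∑ t ∈ range T,
        (((Finset.Icc 1 X).filter fun b => b ∈ B ∧ b ∣ N t + j ∧ ¬ b ∣ j).card : ℝ) ≤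
        ∑ b ∈ (Finset.Ioc (W k) X).filter (· ∈ B), (T * (k * (GG m p b : ℝ)) / b + 1) := by
      intro j hj
      have hj' := Finset.mem_Icc.1 hj
      exact avg_B m hm B p hprime hinj hpk hpw n₀ T X hn₀R hfac
        (fun t ht => by have := hNX t ht; omega) j hj'.1 hj'.2
    have hXpos : 0 < X := by positivity
    have hcard := en_card_B β hβ0 B hB (W k) X hXpos
    calc ∑ t ∈ range T, X3 t = ∑ j ∈ Finset.Icc 1 k, ∑ t ∈ range T,
          (((Finset.Icc 1 X).filter fun b => b ∈ B ∧ b ∣ N t + j ∧ ¬ b ∣ j).card : ℝ) :=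
          Finset.sum_comm
      _ ≤ ∑ _j ∈ Finset.Icc 1 k,
          ∑ b ∈ (Finset.Ioc (W k) X).filter (· ∈ B), (T * (k * (GG m p b : ℝ)) / b + 1) :=
          Finset.sum_le_sum hj
      _ = k * ∑ b ∈ (Finset.Ioc (W k) X).filter (· ∈ B), (T * (k * (GG m p b : ℝ)) / b + 1) := by
          rw [Finset.sum_const, Nat.card_Icc, Nat.add_sub_cancel, nsmul_eq_mul]
      _ = T * ((k : ℝ) ^ 2 * ∑ b ∈ (Finset.Ioc (W k) X).filter (· ∈ B), (GG m p b : ℝ) / b) +
          k * (((Finset.Ioc (W k) X).filter (· ∈ B)).card : ℝ) := by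
          rw [Finset.sum_add_distrib, Finset.sum_const, nsmul_eq_mul, mul_one, mul_add,
            Finset.mul_sum, Finset.mul_sum, Finset.mul_sum]
          congr 1
          refine Finset.sum_congr rfl fun b _ => ?_
          ring
      _ ≤ T * (1 / 8) + k * (S * (X : ℝ) ^ β) := by
          refine add_le_add (mul_le_mul_of_nonneg_left hchoice hTR.le)
            (mul_le_mul_of_nonneg_left hcard (by positivity))
      _ ≤ T * (1 / 8) + T / 8 := by linarith
      _ = T / 4 := by ring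
  -- choose `t`
  obtain ⟨t, ht, hlt⟩ : ∃ t ∈ range T, (3 / 2 : ℝ) ^ k * X1 t + 2 / ε * X2 t + X3 t < 1 := by
    apply Finset.exists_lt_of_sum_lt
    rw [Finset.sum_add_distrib, Finset.sum_add_distrib, ← Finset.mul_sum, ← Finset.mul_sum,
      Finset.sum_const, card_range, nsmul_eq_mul, mul_one]
    have h7 : 2 / ε * ∑ t ∈ range T, X2 t ≤ 2 / ε * (T * (ε / 8)) :=
      mul_le_mul_of_nonneg_left hX2 (by positivity)
    have h8 : 2 / ε * (T * (ε / 8)) = T / 4 := by
      field_simp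
      ring
    linarith
  have htT := Finset.mem_range.1 ht
  have hX1n : 0 ≤ X1 t := Finset.sum_nonneg fun _ _ => Finset.sum_nonneg fun _ _ => by positivity
  have hX2n : 0 ≤ X2 t := Finset.sum_nonneg fun _ _ => by positivity
  have hX3n : 0 ≤ X3 t := Finset.sum_nonneg fun _ _ => by positivity
  have hX1' : 0 ≤ (3 / 2 : ℝ) ^ k * X1 t := mul_nonneg (by positivity) hX1n
  have hX2' : 0 ≤ 2 / ε * X2 t := mul_nonneg (by positivity) hX2n
  have hR1 : (3 / 2 : ℝ) ^ k * X1 t < 1 := by linarith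
  have hR2 : 2 / ε * X2 t < 1 := by linarith
  have hR3 : X3 t < 1 := by linarith
  have hpos : 0 < N t := by
    have h10 : p (⟨0, hk1⟩, ⟨0, hk1⟩) ∣ n₀ + t * Mod m p + 0 + 1 := by
      refine Nat.dvd_of_factorization_pos ?_
      have h21 := hfac t (⟨0, hk1⟩, ⟨0, hk1⟩)
      simp only at h21
      rw [h21]; omega
    have h11 := Nat.le_of_dvd (by omega) h10
    have h12 := hpk (⟨0, hk1⟩, ⟨0, hk1⟩)
    change 0 < n₀ + t * Mod m p
    omega
  refine ⟨p, N t, K', hinj, fun x => ⟨hprime x, hp2 x⟩, hkK, hkW, hpos, ?_, fun x => hfac t x,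
    ?_, ?_, ?_⟩
  · exact hn₀R.add (hRM.mul_left t)
  · intro j hj1 hjk
    have h7 : ∑ q ∈ (N t + j).primeFactors.filter (W k < ·), (1 : ℝ) / q ≤ X1 t :=
      Finset.single_le_sum (f := fun j => ∑ q ∈ (N t + j).primeFactors.filter (W k < ·),
        (1 : ℝ) / q) (fun _ _ => Finset.sum_nonneg fun _ _ => by positivity)
        (Finset.mem_Icc.2 ⟨hj1, hjk⟩)
    have h8 : X1 t ≤ (2 / 3) ^ k := by
      have h9 : (3 / 2 : ℝ) ^ k * (2 / 3) ^ k = 1 := by rw [← mul_pow]; norm_num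
      have h10 : (3 / 2 : ℝ) ^ k * X1 t ≤ (3 / 2 : ℝ) ^ k * (2 / 3) ^ k := by rw [h9]; exact hR1.le
      exact le_of_mul_le_mul_left h10 (by positivity)
    exact h7.trans h8
  · have h7 : X2 t < ε / 2 := by
      have h8 : 2 / ε * X2 t < 2 / ε * (ε / 2) := by
        have : 2 / ε * (ε / 2) = 1 := by field_simp
        rw [this]; exact hR2
      exact lt_of_mul_lt_mul_left h8 (by positivity)
    have h9 : ((N t : ℝ) + K' + 2) * (1 / 2) ^ K' ≤ ε / 2 := by
      refine le_trans ?_ h4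
      have h10 : (N t : ℝ) ≤ 2 ^ ((c + 1) * μ) := by
        have h20 : ((n₀ + t * Mod m p : ℕ) : ℝ) ≤ ((2 ^ ((c + 1) * μ) : ℕ) : ℝ) :=
          Nat.cast_le.2 (hNt t htT)
        rw [Nat.cast_pow, Nat.cast_ofNat] at h20
        exact h20
      have h11 : (K' : ℝ) = 2 * (((c : ℝ) + 1) * (μ : ℝ) + 1) + 2 * k := by
        rw [hK']
        push_cast
        ring
      apply mul_le_mul_of_nonneg_right _ (by positivity)
      rw [h11]
      linarith
    have h10 : X2 t + ((N t : ℝ) + K' + 2) * (1 / 2) ^ K' < ε := by linarith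
    exact h10
  · intro j hj1 hjk b hb hbN
    by_contra hbj
    have h7 : (1 : ℝ) ≤ X3 t := by
      have h8 : (((Finset.Icc 1 X).filter fun b => b ∈ B ∧ b ∣ N t + j ∧ ¬ b ∣ j).card : ℝ) ≤
          X3 t :=
        Finset.single_le_sum (f := fun j =>
          (((Finset.Icc 1 X).filter fun b => b ∈ B ∧ b ∣ N t + j ∧ ¬ b ∣ j).card : ℝ))
          (fun _ _ => by positivity) (Finset.mem_Icc.2 ⟨hj1, hjk⟩)
      refine le_trans ?_ h8
      have h9 : 0 < ((Finset.Icc 1 X).filter fun b => b ∈ B ∧ b ∣ N t + j ∧ ¬ b ∣ j).card := by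
        rw [Finset.card_pos]
        refine ⟨b, Finset.mem_filter.2 ⟨Finset.mem_Icc.2 ⟨?_, ?_⟩, hb, hbN, hbj⟩⟩
        · exact Nat.pos_of_dvd_of_pos hbN (by omega)
        · have h10 := Nat.le_of_dvd (by omega) hbN
          have h11 := hNX t htT
          have h12 : N t = n₀ + t * Mod m p := rfl
          omega
      exact_mod_cast h9
    linarith

end Pool.Agent.Helper26.LV
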