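import Pool.Agent.Helper26.LV.Defs

set_option autoImplicit false

namespace Pool.Agent.Helper26.LV

open Finset Filter Topology

private theorem gap_int {ρ : ℕ → ℝ} (hρ : ∀ n : ℕ, 0 < n → ∃ z : ℤ, (n : ℝ) * ρ n = z)
    {s s' : ℕ} (hs : 0 < s) (hs' : 0 < s') (h : ρ s < ρ s') :
    1 ≤ (s : ℝ) * s' * (ρ s' - ρ s) := by
  obtain ⟨z, hz⟩ := hρ s hs
  obtain ⟨z', hz'⟩ := hρ s' hs'
  have hs0 : (0:ℝ) < s := by exact_mod_cast hs
  have hs0' : (0:ℝ) < s' := by exact_mod_cast hs'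
  have h1 : 0 < (s:ℝ) * s' * (ρ s' - ρ s) := mul_pos (mul_pos hs0 hs0') (by linarith)
  have h2 : (s:ℝ) * s' * (ρ s' - ρ s) = ((s * z' - s' * z : ℤ) : ℝ) := by
    push_cast
    rw [← hz, ← hz']; ring
  rw [h2] at h1 ⊢
  have h3 : (1:ℤ) ≤ s * z' - s' * z := by
    have : (0:ℤ) < s * z' - s' * z := by exact_mod_cast h1
    omega
  exact_mod_cast h3

private theorem gap_rat {ρ : ℕ → ℝ} (hρ : ∀ n : ℕ, 0 < n → ∃ z : ℤ, (n : ℝ) * ρ n = z)
    {s : ℕ} (hs : 0 < s) (q : ℚ) (h : ρ s < q) :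
    1 ≤ (q.den : ℝ) * s * (q - ρ s) := by
  obtain ⟨z, hz⟩ := hρ s hs
  have hs0 : (0:ℝ) < s := by exact_mod_cast hs
  have hq0 : (0:ℝ) < q.den := by exact_mod_cast q.den_pos
  have hq : (q.den : ℝ) * q = q.num := by
    have := Rat.mul_den_eq_num q
    have h2 : ((q * q.den : ℚ) : ℝ) = ((q.num : ℚ) : ℝ) := by rw [this]
    push_cast at h2
    linarith
  have h1 : 0 < (q.den:ℝ) * s * (q - ρ s) := mul_pos (mul_pos hq0 hs0) (by linarith)
  have h2 : (q.den:ℝ) * s * (q - ρ s) = ((s * q.num - q.den * z : ℤ) : ℝ) := by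
    push_cast
    rw [← hz, ← hq]; ring
  rw [h2] at h1 ⊢
  have h3 : (1:ℤ) ≤ s * q.num - q.den * z := by
    have : (0:ℤ) < s * q.num - q.den * z := by exact_mod_cast h1
    omega
  exact_mod_cast h3

private theorem gap_lim1 (C : ℝ) : ∀ᶠ k : ℕ in atTop, C * (k : ℝ) * (3 / 4) ^ k < 1 := by
  have h := tendsto_pow_const_mul_const_pow_of_abs_lt_one 1 (r := (3/4 : ℝ))
    (by rw [abs_of_pos (by norm_num)]; norm_num)
  have h2 := h.const_mul C
  rw [mul_zero] at h2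
  filter_upwards [h2.eventually (gt_mem_nhds (show (0:ℝ) < 1 by norm_num))] with k hk
  rw [pow_one] at hk
  linarith

private theorem gap_lim2 : ∀ᶠ k : ℕ in atTop, (k : ℝ) * (k + 1) * (3 / 4) ^ k < 1 := by
  have h := tendsto_pow_const_mul_const_pow_of_abs_lt_one 1 (r := (3/4 : ℝ))
    (by rw [abs_of_pos (by norm_num)]; norm_num)
  have h' := tendsto_pow_const_mul_const_pow_of_abs_lt_one 2 (r := (3/4 : ℝ))
    (by rw [abs_of_pos (by norm_num)]; norm_num)
  have h2 := h.add h'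
  rw [add_zero] at h2
  filter_upwards [h2.eventually (gt_mem_nhds (show (0:ℝ) < 1 by norm_num))] with k hk
  nlinarith

theorem gap (ρ : ℕ → ℝ) (hρ : ∀ n : ℕ, 0 < n → ∃ z : ℤ, (n : ℝ) * ρ n = z) (F : Set ℝ)
    (hF : F.Finite) (t₀ : ℝ) (hrat : ∀ t ∈ F, t ≠ t₀ → ∃ q : ℚ, (q : ℝ) = t) :
    ∃ᶠ k : ℕ in atTop, ∀ t ∈ F, ∀ s : ℕ, 1 ≤ s → s ≤ k → ρ s < t → ρ s + (3 / 4) ^ k ≤ t := by
  have hA : ∀ᶠ k : ℕ in atTop, ∀ t ∈ F, t ≠ t₀ → ∀ s : ℕ, 1 ≤ s → s ≤ k → ρ s < t →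
      ρ s + (3 / 4) ^ k ≤ t := by
    rw [Filter.eventually_all_finite hF]
    intro t ht
    by_cases htt : t = t₀
    · exact Filter.Eventually.of_forall fun k hne => absurd htt hne
    obtain ⟨q, rfl⟩ := hrat t ht htt
    filter_upwards [gap_lim1 q.den] with k hk _ s hs hsk hlt
    have h1 := gap_rat hρ (by omega : 0 < s) q hlt
    have hs0 : (0:ℝ) < s := by exact_mod_cast (by omega : 0 < s)
    have hsk' : (s:ℝ) ≤ k := by exact_mod_cast hsk
    have hq0 : (0:ℝ) < q.den := by exact_mod_cast q.den_pos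
    have hd : 0 < (q:ℝ) - ρ s := by linarith
    have hp : (0:ℝ) < (3/4 : ℝ) ^ k := by positivity
    by_contra hcon
    have hlt2 : (q:ℝ) - ρ s < (3/4) ^ k := by linarith
    have h2 : (q.den : ℝ) * s * (q - ρ s) ≤ q.den * k * (3/4) ^ k := by
      apply mul_le_mul _ hlt2.le hd.le (by positivity)
      exact mul_le_mul_of_nonneg_left hsk' hq0.le
    linarith
  have hB : ∃ᶠ k : ℕ in atTop, ∀ s : ℕ, 1 ≤ s → s ≤ k → ρ s < t₀ → ρ s + (3 / 4) ^ k ≤ t₀ := by
    intro hcon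
    have hcon2 : ∀ᶠ k : ℕ in atTop, ∃ s : ℕ, 1 ≤ s ∧ s ≤ k ∧ ρ s < t₀ ∧
        t₀ < ρ s + (3/4) ^ k := by
      filter_upwards [hcon] with k hk
      push Not at hk
      obtain ⟨s, h1, h2, h3, h4⟩ := hk
      exact ⟨s, h1, h2, h3, h4⟩
    obtain ⟨N, hN⟩ := Filter.eventually_atTop.mp (hcon2.and gap_lim2)
    choose! f hf using fun (k : ℕ) (hk : N ≤ k) => (hN k hk).1
    have key : ∀ k, N ≤ k → ρ (f (k + 1)) = ρ (f k) := by
      intro k hk
      obtain ⟨a1, a2, a3, a4⟩ := hf k hk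
      obtain ⟨b1, b2, b3, b4⟩ := hf (k + 1) (by omega)
      have hlim := (hN k hk).2
      have hp : (0:ℝ) < (3/4 : ℝ) ^ k := by positivity
      have hpp : (3/4 : ℝ) ^ (k + 1) ≤ (3/4) ^ k :=
        pow_le_pow_of_le_one (by norm_num) (by norm_num) (by omega)
      have hprod : ∀ s s' : ℕ, 1 ≤ s → 1 ≤ s' → s ≤ k → s' ≤ k + 1 → ∀ d : ℝ, 0 < d →
          d < (3/4 : ℝ) ^ k → (s : ℝ) * s' * d < 1 := by
        intro s s' hs hs' h1 h2 d hd hd2
        have e1 : (s:ℝ) ≤ k := by exact_mod_cast h1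
        have e2 : (s':ℝ) ≤ k + 1 := by exact_mod_cast h2
        have e3 : (0:ℝ) ≤ s := by positivity
        have e4 : (0:ℝ) ≤ s' := by positivity
        have e5 : (s:ℝ) * s' ≤ k * (k + 1) := mul_le_mul e1 e2 e4 (by positivity)
        calc (s:ℝ) * s' * d ≤ k * (k + 1) * (3/4) ^ k :=
              mul_le_mul e5 hd2.le hd.le (by positivity)
          _ < 1 := hlim
      rcases lt_trichotomy (ρ (f (k + 1))) (ρ (f k)) with hlt | heq | hgt
      · exfalso
        have h1 := gap_int hρ (by omega : 0 < f (k + 1)) (by omega : 0 < f k) hlt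
        have h2 := hprod (f k) (f (k + 1)) a1 b1 a2 b2 (ρ (f k) - ρ (f (k + 1))) (by linarith)
          (by linarith)
        linarith
      · exact heq
      · exfalso
        have h1 := gap_int hρ (by omega : 0 < f k) (by omega : 0 < f (k + 1)) hgt
        have h2 := hprod (f k) (f (k + 1)) a1 b1 a2 b2 (ρ (f (k + 1)) - ρ (f k)) (by linarith)
          (by linarith)
        linarith
    have key2 : ∀ j, ρ (f (N + j)) = ρ (f N) := by
      intro j
      induction j with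
      | zero => rfl
      | succ j ih => rw [← ih]; exact key (N + j) (by omega)
    have hNN := hf N le_rfl
    have hd : 0 < t₀ - ρ (f N) := by linarith [hNN.2.2.1]
    obtain ⟨n, hn⟩ := exists_pow_lt_of_lt_one hd (show (3/4 : ℝ) < 1 by norm_num)
    have h1 := hf (N + n) (by omega)
    have h2 := h1.2.2.2
    rw [key2 n] at h2
    have h3 : (3/4 : ℝ) ^ (N + n) ≤ (3/4) ^ n :=
      pow_le_pow_of_le_one (by norm_num) (by norm_num) (by omega)
    linarith
  refine (hB.and_eventually hA).mono ?_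
  rintro k ⟨h1, h2⟩ t ht s hs hsk hlt
  by_cases htt : t = t₀
  · subst htt
    exact h1 s hs hsk hlt
  · exact h2 t ht htt s hs hsk hlt

/-- level sets of `ρ` satisfy the hypothesis of the criterion -/
theorem good_level (m p₀ : ℕ) (E B : Set ℕ)
    (hE : ∀ p : ℕ, p.Prime → p₀ ≤ p → ∀ a, ¬ p ∣ a → ∀ i < m, (p ^ i * a ∈ E ↔ p ^ (i + m) * a ∈ E))
    (ρ : ℕ → ℝ) (hρ : ∀ n : ℕ, 0 < n → ∃ z : ℤ, (n : ℝ) * ρ n = z)
    (hρ2 : ∀ᶠ k : ℕ in atTop, ∀ s, 1 ≤ s → s ≤ k → ∀ e, 1 < e →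
      (∀ q : ℕ, q.Prime → q ∣ e → k < q) → ∑ q ∈ e.primeFactors, (1 : ℝ) / q ≤ 2 * (2 / 3) ^ k →
      ρ s < ρ (s * e) ∧ ρ (s * e) < ρ s + (3 / 4) ^ k)
    (U : Set ℝ) (hU : (frontier U).Finite) (t₀ : ℝ)
    (hrat : ∀ t ∈ frontier U, t ≠ t₀ → ∃ q : ℚ, (q : ℝ) = t)
    (hne : ∃ a ∈ E, a ≠ 0 ∧ ρ a ∈ interior U) :
    ∃ A₀ : Set ℕ, (∃ a ∈ A₀, a ≠ 0) ∧
      ∃ᶠ k : ℕ in atTop, Good m (symmDiff {n | n ∈ E ∧ ρ n ∈ U} B) A₀ B k := by
  set U0 : Set ℝ := {u | ∃ d : ℝ, 0 < d ∧ Set.Ioo u (u + d) ⊆ U} with hU0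
  refine ⟨{n | n ∈ E ∧ ρ n ∈ U0}, ?_, ?_⟩
  · obtain ⟨a, ha, ha0, hau⟩ := hne
    refine ⟨a, ⟨ha, ?_⟩, ha0⟩
    obtain ⟨d, hd, hd2⟩ := Metric.mem_nhds_iff.mp (mem_interior_iff_mem_nhds.mp hau)
    refine ⟨d, hd, fun x hx => hd2 ?_⟩
    rw [Metric.mem_ball, Real.dist_eq, abs_of_pos (by linarith [hx.1])]
    linarith [hx.2]
  have hlarge : ∀ᶠ k : ℕ in atTop, p₀ ≤ 2 ^ k := by
    filter_upwards [Filter.eventually_ge_atTop p₀] with k hk
    exact le_trans hk (Nat.lt_two_pow_self).le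
  refine ((gap ρ hρ (frontier U) hU t₀ hrat).and_eventually (hρ2.and hlarge)).mono ?_
  rintro k ⟨hgap, hk2, hkp⟩ s hs hsk e ⟨he0, heq, hesum⟩
  have hk34 : (0:ℝ) < (3/4 : ℝ) ^ k := by positivity
  -- the interval
  have hI : Set.Ioo (ρ s) (ρ s + (3/4) ^ k) ⊆ U ∨
      Disjoint (Set.Ioo (ρ s) (ρ s + (3/4) ^ k)) U := by
    by_contra hcon
    push Not at hcon
    obtain ⟨h1, h2⟩ := hcon
    rw [Set.not_disjoint_iff_nonempty_inter] at h2
    have hpre : IsPreconnected (Set.Ioo (ρ s) (ρ s + (3/4 : ℝ) ^ k)) := isPreconnected_Ioo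
    have h3 : (Set.Ioo (ρ s) (ρ s + (3/4 : ℝ) ^ k) ∩ Uᶜ).Nonempty := by
      rw [Set.not_subset] at h1
      obtain ⟨x, hx, hxU⟩ := h1
      exact ⟨x, hx, hxU⟩
    have hno : ∀ x ∈ Set.Ioo (ρ s) (ρ s + (3/4 : ℝ) ^ k), x ∉ frontier U := by
      intro x hx hxf
      have := hgap x hxf s hs hsk hx.1
      linarith [hx.2]
    have hint : ∀ x ∈ Set.Ioo (ρ s) (ρ s + (3/4 : ℝ) ^ k), x ∈ U → x ∈ interior U := by
      intro x hx hxU
      by_contra hcon
      exact hno x hx ⟨subset_closure hxU, hcon⟩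
    have hint2 : ∀ x ∈ Set.Ioo (ρ s) (ρ s + (3/4 : ℝ) ^ k), x ∉ U → x ∈ interior Uᶜ := by
      intro x hx hxU
      by_contra hcon
      apply hno x hx
      rw [← frontier_compl]
      exact ⟨subset_closure hxU, hcon⟩
    obtain ⟨x, hx, hx2, hx3⟩ := hpre (interior U) (interior Uᶜ) isOpen_interior isOpen_interior
      (fun x hx => by
        by_cases hxU : x ∈ U
        · exact Or.inl (hint x hx hxU)
        · exact Or.inr (hint2 x hx hxU))
      (by
        obtain ⟨x, hx, hxU⟩ := h2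
        exact ⟨x, hx, hint x hx hxU⟩)
      (by
        obtain ⟨x, hx, hxU⟩ := h3
        exact ⟨x, hx, hint2 x hx hxU⟩)
    exact (interior_subset hx3) (interior_subset hx2)
  have hmem : ∀ x, ρ s ≤ x → x < ρ s + (3/4) ^ k →
      (x ∈ U0 ↔ Set.Ioo (ρ s) (ρ s + (3/4) ^ k) ⊆ U) := by
    intro x h1 h2
    constructor
    · rintro ⟨d, hd, hdU⟩
      rcases hI with hI | hI
      · exact hI
      · exfalso
        set y := min ((x + (ρ s + (3/4) ^ k)) / 2) (x + d / 2) with hy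
        have hy1 : x < y := lt_min (by linarith) (by linarith)
        have hy2 : y < ρ s + (3/4) ^ k := lt_of_le_of_lt (min_le_left _ _) (by linarith)
        have hy3 : y < x + d := lt_of_le_of_lt (min_le_right _ _) (by linarith)
        exact Set.disjoint_left.mp hI (show y ∈ Set.Ioo (ρ s) (ρ s + (3/4) ^ k) from
          ⟨by linarith, hy2⟩) (hdU ⟨hy1, hy3⟩)
    · intro hsub
      refine ⟨ρ s + (3/4) ^ k - x, by linarith, fun y hy => hsub ⟨?_, ?_⟩⟩
      · linarith [hy.1]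
      · linarith [hy.2]
  refine ⟨fun he1 hB => ?_, fun p hp hpk hpe i hi => ?_⟩
  · have hin := hk2 s hs hsk e he1 heq (by
      have : (0:ℝ) ≤ (2/3 : ℝ) ^ k := by positivity
      linarith)
    have h1 := hmem (ρ (s * e)) hin.1.le hin.2
    have h2 : ρ (s * e) ∈ U ↔ Set.Ioo (ρ s) (ρ s + (3/4) ^ k) ⊆ U := by
      constructor
      · intro h
        rcases hI with hI | hI
        · exact hI
        · exact absurd h (Set.disjoint_left.mp hI ⟨hin.1, hin.2⟩)
      · intro h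
        exact h ⟨hin.1, hin.2⟩
    constructor
    · rintro (⟨⟨h3, h4⟩, _⟩ | ⟨h3, _⟩)
      · exact ⟨h3, h1.mpr (h2.mp h4)⟩
      · exact absurd h3 hB
    · rintro ⟨h3, h4⟩
      exact Or.inl ⟨⟨h3, h2.mpr (h1.mp h4)⟩, hB⟩
  · have hks : s < p := lt_of_le_of_lt hsk (lt_trans Nat.lt_two_pow_self hpk)
    have hps : ¬ p ∣ s := fun h => by
      have := Nat.le_of_dvd (by omega) h
      omega
    have hpse : ¬ p ∣ s * e := by
      intro h
      rcases (hp.dvd_mul).mp h with h | h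
      · exact hps h
      · exact hpe h
    have hEE := hE p hp (by omega) (s * e) hpse i hi
    have hmain : ∀ j : ℕ, (ρ (p ^ j * (s * e)) ∈ U0 ↔
        Set.Ioo (ρ s) (ρ s + (3/4) ^ k) ⊆ U) := by
      intro j
      have heqn : p ^ j * (s * e) = s * (p ^ j * e) := by ring
      rw [heqn]
      have hpj : 0 < p ^ j := pow_pos hp.pos j
      rcases Nat.lt_or_ge 1 (p ^ j * e) with hgt | hle
      · have hin := hk2 s hs hsk (p ^ j * e) hgt (by
          intro q hq hqd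
          rcases (hq.dvd_mul).mp hqd with h | h
          · have : q = p := (Nat.prime_dvd_prime_iff_eq hq hp).mp (hq.dvd_of_dvd_pow h)
            rw [this]
            exact lt_trans Nat.lt_two_pow_self hpk
          · exact heq q hq h) (by
          have hsub : (p ^ j * e).primeFactors ⊆ insert p e.primeFactors := by
            intro q hq
            rw [Nat.mem_primeFactors] at hq
            rw [Finset.mem_insert, Nat.mem_primeFactors]
            rcases (hq.1.dvd_mul).mp hq.2.1 with h | h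
            · left
              exact (Nat.prime_dvd_prime_iff_eq hq.1 hp).mp (hq.1.dvd_of_dvd_pow h)
            · right
              exact ⟨hq.1, h, by omega⟩
          have h1 : ∑ q ∈ (p ^ j * e).primeFactors, (1 : ℝ) / q ≤
              ∑ q ∈ insert p e.primeFactors, (1 : ℝ) / q :=
            Finset.sum_le_sum_of_subset_of_nonneg hsub (fun _ _ _ => by positivity)
          have hnp : p ∉ e.primeFactors := fun h => hpe (Nat.mem_primeFactors.mp h).2.1
          rw [Finset.sum_insert hnp] at h1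
          have h2 : (1:ℝ) / p ≤ (2/3) ^ k := by
            have h3 : ((2:ℝ) ^ k) < p := by exact_mod_cast hpk
            have h4 : (1:ℝ) / p ≤ 1 / 2 ^ k :=
              one_div_le_one_div_of_le (by positivity) h3.le
            have h5 : (1:ℝ) / 2 ^ k = (1/2) ^ k := by rw [one_div_pow]
            have h6 : (1/2 : ℝ) ^ k ≤ (2/3) ^ k :=
              pow_le_pow_left₀ (by norm_num) (by norm_num) k
            linarith
          linarith)
        exact hmem _ hin.1.le hin.2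
      · have h1 : p ^ j * e = 1 := by
          have : 0 < p ^ j * e := Nat.mul_pos hpj he0
          omega
        rw [h1, mul_one]
        exact hmem _ le_rfl (by linarith)
    constructor
    · rintro ⟨h1, h2⟩
      exact ⟨hEE.mp h1, (hmain _).mpr ((hmain _).mp h2)⟩
    · rintro ⟨h1, h2⟩
      exact ⟨hEE.mpr h1, (hmain _).mpr ((hmain _).mp h2)⟩

end Pool.Agent.Helper26.LV
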