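import Pool.Agent.Helper26.LV.ExistsN

set_option autoImplicit false

namespace Pool.Agent.Helper26.LV

open Finset Filter Topology Pool.Agent.Helper89.Lambert

/-- the structure of `N + j` -/
theorem key_struct (k N j : ℕ) (hkW : k ≤ W k) (hN : (W k).factorial ^ (k + 1) ∣ N)
    (hj1 : 1 ≤ j) (hjk : j ≤ k) :
    ∃ e : ℕ, N + j = j * e ∧ 0 < e ∧ ∀ q : ℕ, q.Prime → q ∣ e → W k < q := by
  have hjN : j ∣ N := by
    refine ((Nat.dvd_factorial hj1 (hjk.trans hkW)).trans ?_).trans hN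
    exact dvd_pow_self _ (by omega)
  obtain ⟨n, hn⟩ := hjN
  refine ⟨n + 1, by rw [hn]; ring, Nat.succ_pos _, fun q hq hqe => ?_⟩
  by_contra hle
  push Not at hle
  have h1 : q ^ (k + 1) ∣ N :=
    (pow_dvd_pow_of_dvd (Nat.dvd_factorial hq.pos hle) _).trans hN
  -- `q ∣ n`
  have h2 : q ∣ n := by
    by_contra hqn
    have h3 : q ^ (k + 1) ∣ j := by
      rw [hn] at h1
      exact (Nat.Coprime.pow_left _ ((hq.coprime_iff_not_dvd).2 hqn)).dvd_of_dvd_mul_right h1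
    have h4 := Nat.le_of_dvd (by omega) h3
    have h5 : k + 1 < q ^ (k + 1) := Nat.lt_pow_self hq.one_lt
    omega
  have h3 : q ∣ 1 := (Nat.dvd_add_right h2).1 hqe
  exact hq.one_lt.ne' (Nat.dvd_one.1 h3)

open Classical in
/-- divisors of `j e`, `(j, e) = 1` -/
theorem key_sum (j e : ℕ) (h : Nat.Coprime j e) (hj : 0 < j) (he : 0 < e) (F : ℕ → ℤ) :
    ∑ d ∈ (j * e).divisors, F d = ∑ s ∈ j.divisors, F s +
      ∑ s ∈ j.divisors, ∑ d ∈ e.divisors.erase 1, F (s * d) := by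
  have h1 : ∑ d ∈ (j * e).divisors, F d = ∑ s ∈ j.divisors, ∑ d ∈ e.divisors, F (s * d) := by
    rw [← Finset.sum_product']
    symm
    refine Finset.sum_bij (fun x _ => x.1 * x.2) ?_ ?_ ?_ ?_
    · rintro ⟨a, b⟩ hab
      simp only [mem_product, Nat.mem_divisors] at hab ⊢
      exact ⟨mul_dvd_mul hab.1.1 hab.2.1, by positivity⟩
    · rintro ⟨a, b⟩ hab ⟨a', b'⟩ hab' heq
      simp only [mem_product, Nat.mem_divisors] at hab hab' heq
      have hc1 : Nat.Coprime a b' := Nat.Coprime.coprime_dvd_left hab.1.1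
        (Nat.Coprime.coprime_dvd_right hab'.2.1 h)
      have hc2 : Nat.Coprime a' b := Nat.Coprime.coprime_dvd_left hab'.1.1
        (Nat.Coprime.coprime_dvd_right hab.2.1 h)
      have h1 : a ∣ a' := hc1.dvd_of_dvd_mul_right (heq ▸ dvd_mul_right a b)
      have h2 : a' ∣ a := hc2.dvd_of_dvd_mul_right (heq ▸ dvd_mul_right a' b')
      have h3 : a = a' := Nat.dvd_antisymm h1 h2
      subst h3
      have h4 : 0 < a := Nat.pos_of_dvd_of_pos hab.1.1 hj
      have h5 := Nat.eq_of_mul_eq_mul_left h4 heq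
      rw [h5]
    · intro d hd
      obtain ⟨a, b, ha, hb, hab⟩ := (Nat.dvd_mul).1 (Nat.dvd_of_mem_divisors hd)
      refine ⟨(a, b), ?_, hab⟩
      simp only [mem_product, Nat.mem_divisors]
      exact ⟨⟨ha, hj.ne'⟩, ⟨hb, he.ne'⟩⟩
    · rintro ⟨a, b⟩ _
      rfl
  rw [h1, ← Finset.sum_add_distrib]
  refine Finset.sum_congr rfl fun s _ => ?_
  have h2 : (1 : ℕ) ∈ e.divisors := Nat.one_mem_divisors.2 he.ne'
  rw [← Finset.add_sum_erase _ _ h2, mul_one]

/-- the divisors of `e` are tiny -/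
theorem key_tiny (k N j e t : ℕ) (hkW : k ≤ W k) (hj1 : 1 ≤ j) (he : N + j = j * e)
    (he0 : 0 < e) (hpr : ∀ q : ℕ, q.Prime → q ∣ e → W k < q)
    (hsum : ∑ q ∈ (N + j).primeFactors.filter (W k < ·), (1 : ℝ) / q ≤ (2 / 3) ^ k)
    (ht : t ∣ e) : Tiny k t := by
  have ht0 : 0 < t := Nat.pos_of_dvd_of_pos ht he0
  refine ⟨ht0, fun q hq hqt => lt_of_le_of_lt hkW (hpr q hq (hqt.trans ht)), ?_⟩
  refine le_trans (Finset.sum_le_sum_of_subset_of_nonneg ?_ fun _ _ _ => by positivity) hsum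
  intro q hq
  rw [mem_filter, Nat.mem_primeFactors]
  have h1 := Nat.prime_of_mem_primeFactors hq
  have h2 := (Nat.dvd_of_mem_primeFactors hq).trans ht
  exact ⟨⟨h1, he ▸ h2.mul_left j, by omega⟩, hpr q h1 h2⟩

/-- the difference of the counting functions -/
theorem key_diff (m : ℕ) (A A₀ B : Set ℕ) (k N j : ℕ) (hgood : Good m A A₀ B k)
    (hkW : k ≤ W k) (hN : (W k).factorial ^ (k + 1) ∣ N) (hj1 : 1 ≤ j) (hjk : j ≤ k)
    (hsum : ∑ q ∈ (N + j).primeFactors.filter (W k < ·), (1 : ℝ) / q ≤ (2 / 3) ^ k)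
    (hB : ∀ b ∈ B, b ∣ N + j → b ∣ j) :
    (dA A (N + j) : ℤ) - dA A₀ (N + j) = dA A j - dA A₀ j := by
  classical
  obtain ⟨e, he, he0, hpr⟩ := key_struct k N j hkW hN hj1 hjk
  have hcop : Nat.Coprime j e := by
    rw [Nat.coprime_iff_gcd_eq_one]
    by_contra hne
    obtain ⟨q, hq, hqd⟩ := Nat.exists_prime_and_dvd hne
    have h1 := hpr q hq (hqd.trans (Nat.gcd_dvd_right _ _))
    have h2 := Nat.le_of_dvd (by omega) (hqd.trans (Nat.gcd_dvd_left _ _))
    omega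
  let F : ℕ → ℤ := fun d => (if d ∈ A then 1 else 0) - (if d ∈ A₀ then 1 else 0)
  have hF : ∀ n : ℕ, (dA A n : ℤ) - dA A₀ n = ∑ d ∈ n.divisors, F d := by
    intro n
    unfold dA
    push_cast
    rw [← Finset.sum_sub_distrib]
  rw [hF, hF, he, key_sum j e hcop (by omega) he0 F]
  rw [add_eq_left]
  refine Finset.sum_eq_zero fun s hs => Finset.sum_eq_zero fun t ht => ?_
  have hsj := Nat.dvd_of_mem_divisors hs
  have hs1 : 1 ≤ s := Nat.pos_of_dvd_of_pos hsj (by omega)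
  have hsk : s ≤ k := (Nat.le_of_dvd (by omega) hsj).trans hjk
  rw [mem_erase] at ht
  have hte := Nat.dvd_of_mem_divisors ht.2
  have htiny := key_tiny k N j e t hkW hj1 he he0 hpr hsum hte
  have ht1 : 1 < t := by
    have := htiny.1
    omega
  have hnB : s * t ∉ B := by
    intro hmem
    have h1 : s * t ∣ N + j := he ▸ mul_dvd_mul hsj hte
    have h2 : t ∣ j := (Dvd.intro_left s rfl).trans (hB _ hmem h1)
    have h3 : t ∣ 1 := by
      rw [← Nat.coprime_iff_gcd_eq_one.1 hcop]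
      exact Nat.dvd_gcd h2 hte
    have := Nat.le_of_dvd one_pos h3
    omega
  have hiff := (hgood s hs1 hsk t htiny).1 ht1 hnB
  show (if s * t ∈ A then (1 : ℤ) else 0) - (if s * t ∈ A₀ then 1 else 0) = 0
  simp only [hiff, sub_self]

/-- divisibility of the counting function of `A₀` -/
theorem key_dvd (m : ℕ) (hm : 0 < m) (A A₀ B : Set ℕ) (k N j : ℕ) (hgood : Good m A A₀ B k)
    (hkW : k ≤ W k) (hN : (W k).factorial ^ (k + 1) ∣ N) (hj1 : 1 ≤ j) (hjk : j ≤ k)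
    (hsum : ∑ q ∈ (N + j).primeFactors.filter (W k < ·), (1 : ℝ) / q ≤ (2 / 3) ^ k)
    (p : Fin k × Fin k → ℕ) (hinj : Function.Injective p) (hp : ∀ x, (p x).Prime ∧ 2 ^ k < p x)
    (hfac : ∀ x, (N + (x.1 : ℕ) + 1).factorization (p x) = 2 * m - 1) :
    2 ^ j ∣ dA A₀ (N + j) := by
  classical
  obtain ⟨e, he, he0, hpr⟩ := key_struct k N j hkW hN hj1 hjk
  let s : Finset ℕ := Finset.univ.image (fun i : Fin k => p (⟨j - 1, by omega⟩, i))
  have hscard : s.card = k := by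
    rw [card_image_of_injective _ (fun a b h => by simpa using hinj h)]
    simp
  have hfac' : ∀ q ∈ s, (N + j).factorization q = 2 * m - 1 := by
    intro q hq
    obtain ⟨i', _, rfl⟩ := mem_image.1 hq
    have := hfac (⟨j - 1, by omega⟩, i')
    simp only at this
    rw [show N + (j - 1) + 1 = N + j by omega] at this
    exact this
  have hn0 : N + j ≠ 0 := by omega
  have h1 := two_pow_dvd_sum m hm s (by
    intro q hq
    obtain ⟨i, _, rfl⟩ := mem_image.1 hq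
    exact (hp _).1) (fun d => if d ∈ A₀ ∧ d ∣ N + j then 1 else 0) (by
      intro q hq a ha i hi
      have hqf := hfac' q hq
      obtain ⟨i', _, rfl⟩ := mem_image.1 hq
      set q := p (⟨j - 1, by omega⟩, i') with hqdef
      have hqp : q.Prime := (hp _).1
      have hq2 : 2 ^ k < q := (hp _).2
      have hcop : ∀ l, Nat.Coprime (q ^ l) a := fun l =>
        Nat.Coprime.pow_left _ ((hqp.coprime_iff_not_dvd).2 ha)
      have hdv : ∀ l, l ≤ 2 * m - 1 → (q ^ l * a ∣ N + j ↔ a ∣ N + j) := by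
        intro l hl
        constructor
        · intro h
          exact (Dvd.intro_left _ rfl).trans h
        · intro h
          refine (hcop l).mul_dvd_of_dvd_of_dvd ?_ h
          rw [hqp.pow_dvd_iff_le_factorization hn0, hqf]
          exact hl
      have key : a ∣ N + j → (q ^ i * a ∈ A₀ ↔ q ^ (i + m) * a ∈ A₀) := by
        intro had
        rw [he] at had
        obtain ⟨s', t, hs', ht, rfl⟩ := (Nat.dvd_mul).1 had
        have hs1 : 1 ≤ s' := Nat.pos_of_dvd_of_pos hs' (by omega)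
        have hsk : s' ≤ k := (Nat.le_of_dvd (by omega) hs').trans hjk
        have htiny := key_tiny k N j e t hkW hj1 he he0 hpr hsum ht
        exact (hgood s' hs1 hsk t htiny).2 q hqp hq2 (fun h => ha (h.mul_left _)) i hi
      by_cases had : a ∣ N + j
      · have := key had
        simp only [hdv i (by omega), hdv (i + m) (by omega), this]
      · simp only [hdv i (by omega), hdv (i + m) (by omega), had, and_false])
      (N + j) hn0 hfac'
  rw [hscard] at h1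
  have h2 : ∑ d ∈ (N + j).divisors, (if d ∈ A₀ ∧ d ∣ N + j then 1 else 0) = dA A₀ (N + j) := by
    unfold dA
    refine Finset.sum_congr rfl fun d hd => ?_
    simp only [Nat.dvd_of_mem_divisors hd, and_true]
  rw [h2] at h1
  exact (pow_dvd_pow 2 hjk).trans h1

/-- decomposition of `2^N S(A)` -/
theorem key_shift (A : Set ℕ) (N k : ℕ) :
    ∃ z : ℤ, (2 : ℝ) ^ N * (∑' n : A, (1 : ℝ) / (2 ^ n.1 - 1)) =
      z + ∑ j ∈ Finset.Icc 1 k, (dA A (N + j) : ℝ) * (1 / 2) ^ j +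
        ∑' i : ℕ, (dA A (N + k + 1 + i) : ℝ) * (1 / 2) ^ (k + 1 + i) := by
  rw [tsum_eq, ← (summable_dA A).sum_add_tsum_nat_add (N + k + 1), mul_add, ← tsum_mul_left]
  have h12 : (2 : ℝ) ^ N * (1 / 2) ^ N = 1 := by rw [← mul_pow]; norm_num
  refine ⟨∑ n ∈ range (N + 1), (dA A n * 2 ^ (N - n) : ℕ), ?_⟩
  congr 1
  · rw [show N + k + 1 = (N + 1) + k by ring, Finset.sum_range_add, mul_add]
    congr 1
    · rw [Finset.mul_sum]
      push_cast
      refine Finset.sum_congr rfl fun n hn => ?_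
      have hn' := mem_range.1 hn
      obtain ⟨q, hq⟩ := Nat.exists_eq_add_of_le (Nat.lt_succ_iff.1 hn')
      have h1 : N - n = q := by omega
      rw [h1, hq, pow_add]
      have : (2 : ℝ) ^ n * (1 / 2) ^ n = 1 := by rw [← mul_pow]; norm_num
      calc (2 : ℝ) ^ n * 2 ^ q * (dA A n * (1 / 2) ^ n) =
          (2 ^ n * (1 / 2) ^ n) * (dA A n * 2 ^ q) := by ring
        _ = _ := by rw [this, one_mul]
    · rw [show Finset.Icc 1 k = Finset.Ico 1 (1 + k) by
        ext x; simp only [mem_Icc, mem_Ico]; omega, Finset.sum_Ico_eq_sum_range,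
        Nat.add_sub_cancel_left, Finset.mul_sum]
      refine Finset.sum_congr rfl fun i _ => ?_
      rw [show N + 1 + i = N + (1 + i) by ring, pow_add (1 / 2 : ℝ) N]
      calc (2 : ℝ) ^ N * (dA A (N + (1 + i)) * ((1 / 2) ^ N * (1 / 2) ^ (1 + i))) =
          (2 ^ N * (1 / 2) ^ N) * (dA A (N + (1 + i)) * (1 / 2) ^ (1 + i)) := by ring
        _ = _ := by rw [h12, one_mul]
  · refine tsum_congr fun i => ?_
    have h3 : i + (N + k + 1) = N + k + 1 + i := by ring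
    have h4 : ((1 : ℝ) / 2) ^ (N + k + 1 + i) = (1 / 2) ^ N * (1 / 2) ^ (k + 1 + i) := by
      rw [← pow_add]; congr 1; ring
    rw [h3, h4]
    calc (2 : ℝ) ^ N * ((dA A (N + k + 1 + i) : ℝ) * ((1 / 2) ^ N * (1 / 2) ^ (k + 1 + i)))
        = (2 ^ N * (1 / 2) ^ N) * ((dA A (N + k + 1 + i) : ℝ) * (1 / 2) ^ (k + 1 + i)) := by ring
      _ = _ := by rw [h12, one_mul]

/-- the tails -/
theorem key_summable (A : Set ℕ) (N k : ℕ) :
    Summable fun i : ℕ => (dA A (N + k + 1 + i) : ℝ) * (1 / 2) ^ (k + 1 + i) := by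
  have h := (summable_nat_add_iff (N + k + 1)).2 (summable_dA A)
  have h2 := h.mul_left ((2 : ℝ) ^ N)
  refine h2.congr fun i => ?_
  have h1 : (2 : ℝ) ^ N * (1 / 2) ^ N = 1 := by rw [← mul_pow]; norm_num
  have h3 : i + (N + k + 1) = N + k + 1 + i := by ring
  have h4 : ((1 : ℝ) / 2) ^ (N + k + 1 + i) = (1 / 2) ^ N * (1 / 2) ^ (k + 1 + i) := by
    rw [← pow_add]; congr 1; ring
  rw [h3, h4]
  calc (2 : ℝ) ^ N * ((dA A (N + k + 1 + i) : ℝ) * ((1 / 2) ^ N * (1 / 2) ^ (k + 1 + i)))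
      = (2 ^ N * (1 / 2) ^ N) * ((dA A (N + k + 1 + i) : ℝ) * (1 / 2) ^ (k + 1 + i)) := by ring
    _ = _ := by rw [h1, one_mul]

theorem key_tail_pos (A : Set ℕ) (hA : ∃ a ∈ A, a ≠ 0) (N k : ℕ) :
    0 < ∑' i : ℕ, (dA A (N + k + 1 + i) : ℝ) * (1 / 2) ^ (k + 1 + i) := by
  obtain ⟨a, haA, ha0⟩ := hA
  have hge : N + k + 1 ≤ a * (N + k + 1) := Nat.le_mul_of_pos_left _ (by omega)
  obtain ⟨i, hi⟩ := Nat.exists_eq_add_of_le hge
  refine (key_summable A N k).tsum_pos (fun i => by positivity) i ?_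
  have : 0 < dA A (N + k + 1 + i) := by
    rw [← hi]
    unfold dA
    apply Finset.sum_pos'
    · intro d _; split_ifs <;> simp
    · refine ⟨a, ?_, by simp [haA]⟩
      rw [Nat.mem_divisors]
      exact ⟨dvd_mul_right _ _, by positivity⟩
  positivity

/-- the remainders of the series of `S(A)` tend to `0` -/
theorem key_rem (A : Set ℕ) : Tendsto (fun k : ℕ =>
    (∑' n : A, (1 : ℝ) / (2 ^ n.1 - 1)) - ∑ j ∈ Finset.Icc 1 k, (dA A j : ℝ) * (1 / 2) ^ j)
    atTop (nhds 0) := by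
  have h0 : (fun k : ℕ => ∑ j ∈ Finset.Icc 1 k, (dA A j : ℝ) * (1 / 2) ^ j) =
      fun k : ℕ => ∑ j ∈ Finset.range (k + 1), (dA A j : ℝ) * (1 / 2) ^ j := by
    funext k
    rw [show Finset.Icc 1 k = Finset.Ico 1 (k + 1) by
        ext x; simp only [mem_Icc, mem_Ico]; omega, Finset.range_eq_Ico,
      Finset.sum_eq_sum_Ico_succ_bot (by omega : 0 < k + 1)]
    simp [dA]
  have h1 := ((summable_dA A).hasSum.tendsto_sum_nat).comp (tendsto_add_atTop_nat 1)
  rw [← tsum_eq] at h1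
  have h2 := (tendsto_const_nhds (x := ∑' n : A, (1 : ℝ) / (2 ^ n.1 - 1))).sub h1
  rw [sub_self] at h2
  have h3 : (fun k : ℕ => (∑' n : A, (1 : ℝ) / (2 ^ n.1 - 1)) -
      ∑ j ∈ Finset.Icc 1 k, (dA A j : ℝ) * (1 / 2) ^ j) = fun k : ℕ =>
      (∑' n : A, (1 : ℝ) / (2 ^ n.1 - 1)) -
      ((fun n => ∑ j ∈ Finset.range n, (dA A j : ℝ) * (1 / 2) ^ j) ∘ fun a => a + 1) k := by
    funext k
    rw [congrFun h0 k]
    rfl
  rw [h3]
  exact h2

/-- a real number which is close to integers is an integer -/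
theorem int_of_near (x : ℝ) (h : ∀ ε : ℝ, 0 < ε → ∃ z : ℤ, |x - z| < ε) : ∃ z : ℤ, x = z := by
  have h1 : x ∈ closure (Set.range ((↑) : ℤ → ℝ)) := by
    rw [Metric.mem_closure_iff]
    intro ε hε
    obtain ⟨z, hz⟩ := h ε hε
    exact ⟨z, ⟨z, rfl⟩, by rw [Real.dist_eq]; exact hz⟩
  have h2 : IsClosed (Set.range ((↑) : ℤ → ℝ)) := Int.isClosedEmbedding_coe_real.isClosed_range
  rw [h2.closure_eq] at h1
  obtain ⟨z, hz⟩ := h1
  exact ⟨z, hz.symm⟩

/-- **Criterion.** -/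
theorem key (m : ℕ) (hm : 0 < m) (A A₀ B : Set ℕ) (hA₀ : ∃ a ∈ A₀, a ≠ 0) (β : ℝ)
    (hβ0 : 0 ≤ β) (hβ : β * (2 * m - 1) < 1) (hB : Thin β B)
    (hgood : ∃ᶠ k in atTop, Good m A A₀ B k) :
    Irrational (∑' n : A, (1 : ℝ) / (2 ^ n.1 - 1)) := by
  classical
  -- irrationality of `S(A₀)`
  have hI₀ : Irrational (∑' n : A₀, (1 : ℝ) / (2 ^ n.1 - 1)) := by
    apply irrational_of_small
    intro ε hε
    obtain ⟨k, hg, p, N, K', hinj, hp, hkK, hkW, hN0, hN, hfac, hsum, htail, hBk⟩ :=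
      (hgood.and_eventually (exists_N m hm β hβ0 hβ B hB ε hε)).exists
    obtain ⟨z, hz⟩ := shift A₀ N k (fun j hj1 hjk =>
      key_dvd m hm A A₀ B k N j hg hkW hN hj1 hjk (hsum j hj1 hjk) p hinj hp hfac)
    exact ⟨N, z, _, hz, key_tail_pos A₀ hA₀ N k, lt_of_le_of_lt (tail_le A₀ N k K' hkK) htail⟩
  rintro ⟨q, hq⟩
  set S := ∑' n : A, (1 : ℝ) / (2 ^ n.1 - 1) with hS
  set S₀ := ∑' n : A₀, (1 : ℝ) / (2 ^ n.1 - 1) with hS₀
  have hden : (0 : ℝ) < q.den := by exact_mod_cast q.den_pos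
  -- `q.den * S₀` is an integer
  have hint : ∃ z : ℤ, (q.den : ℝ) * S₀ = z := by
    apply int_of_near
    intro ε hε
    set δ : ℝ := ε / (q.den * 4) with hδ
    have hδ0 : 0 < δ := by positivity
    have hr1 := (key_rem A).eventually (Metric.ball_mem_nhds 0 hδ0)
    have hr2 := (key_rem A₀).eventually (Metric.ball_mem_nhds 0 hδ0)
    obtain ⟨k, hg, ⟨p, N, K', hinj, hp, hkK, hkW, hN0, hN, hfac, hsum, htail, hBk⟩, h1, h2⟩ :=
      (hgood.and_eventually ((exists_N m hm β hβ0 hβ B hB δ hδ0).and (hr1.and hr2))).exists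
    rw [dist_zero_right, Real.norm_eq_abs] at h1 h2
    obtain ⟨z, hz⟩ := key_shift A N k
    have hT0 : 0 ≤ ∑' i : ℕ, (dA A (N + k + 1 + i) : ℝ) * (1 / 2) ^ (k + 1 + i) :=
      tsum_nonneg fun i => by positivity
    have hT1 := lt_of_le_of_lt (tail_le A N k K' hkK) htail
    set T := ∑' i : ℕ, (dA A (N + k + 1 + i) : ℝ) * (1 / 2) ^ (k + 1 + i) with hT
    have hint2 : ∃ w : ℤ, ∑ j ∈ Finset.Icc 1 k, (dA A₀ (N + j) : ℝ) * (1 / 2) ^ j = w := by
      have hz : ∀ j ∈ Finset.Icc 1 k, ∃ w : ℤ, (dA A₀ (N + j) : ℝ) * (1 / 2) ^ j = w := by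
        intro j hj
        rw [Finset.mem_Icc] at hj
        obtain ⟨c, hc⟩ := key_dvd m hm A A₀ B k N j hg hkW hN hj.1 hj.2 (hsum j hj.1 hj.2) p hinj
          hp hfac
        refine ⟨c, ?_⟩
        rw [hc]
        push_cast
        have h2 : (2 : ℝ) ^ j * (1 / 2) ^ j = 1 := by rw [← mul_pow]; norm_num
        calc (2 : ℝ) ^ j * c * (1 / 2) ^ j = (2 ^ j * (1 / 2) ^ j) * c := by ring
          _ = _ := by rw [h2, one_mul]
      choose! w hw using hz
      exact ⟨∑ j ∈ Finset.Icc 1 k, w j, by rw [Finset.sum_congr rfl hw]; push_cast; rfl⟩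
    obtain ⟨w, hw⟩ := hint2
    have hdiff : ∑ j ∈ Finset.Icc 1 k, (dA A (N + j) : ℝ) * (1 / 2) ^ j =
        w + ∑ j ∈ Finset.Icc 1 k, (dA A j : ℝ) * (1 / 2) ^ j -
          ∑ j ∈ Finset.Icc 1 k, (dA A₀ j : ℝ) * (1 / 2) ^ j := by
      rw [← hw, ← Finset.sum_add_distrib, ← Finset.sum_sub_distrib]
      refine Finset.sum_congr rfl fun j hj => ?_
      rw [Finset.mem_Icc] at hj
      have h3 := key_diff m A A₀ B k N j hg hkW hN hj.1 hj.2 (hsum j hj.1 hj.2)
        (hBk j hj.1 hj.2)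
      have h4 : (dA A (N + j) : ℝ) = dA A₀ (N + j) + dA A j - dA A₀ j := by
        have : (dA A (N + j) : ℤ) = dA A₀ (N + j) + dA A j - dA A₀ j := by linarith
        exact_mod_cast this
      rw [h4]
      ring
    set R := ∑ j ∈ Finset.Icc 1 k, (dA A j : ℝ) * (1 / 2) ^ j with hR
    set R₀ := ∑ j ∈ Finset.Icc 1 k, (dA A₀ j : ℝ) * (1 / 2) ^ j with hR₀
    -- `S₀ = z + w - (2^N - 1) S + (T + (R - S) + (S₀ - R₀))`
    have h5 : S₀ = (z + w) - (2 ^ N - 1) * S + (T - (S - R) + (S₀ - R₀)) := by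
      rw [hdiff] at hz
      linarith
    have hqS : (q.den : ℝ) * S = q.num := by
      rw [← hq]
      have h4 : (q : ℝ) * q.den = q.num := by exact_mod_cast Rat.mul_den_eq_num q
      linarith
    refine ⟨q.den * (z + w) - (2 ^ N - 1) * q.num, ?_⟩
    have h6 : (q.den : ℝ) * S₀ - ((q.den * (z + w) - (2 ^ N - 1) * q.num : ℤ) : ℝ) =
        q.den * (T - (S - R) + (S₀ - R₀)) := by
      push_cast
      have h7 : (q.den : ℝ) * S₀ = q.den * ((z + w) - (2 ^ N - 1) * S +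
          (T - (S - R) + (S₀ - R₀))) := by rw [← h5]
      rw [h7, ← hqS]
      ring
    rw [h6, abs_mul, abs_of_pos hden]
    have h8 : |T - (S - R) + (S₀ - R₀)| < 3 * δ := by
      rw [abs_lt] at h1 h2 ⊢
      constructor <;> linarith [h1.1, h1.2, h2.1, h2.2]
    calc (q.den : ℝ) * |T - (S - R) + (S₀ - R₀)| < q.den * (3 * δ) := by gcongr
      _ = 3 / 4 * ε := by rw [hδ]; field_simp
      _ < ε := by linarith
  obtain ⟨z, hz⟩ := hint
  apply hI₀
  refine ⟨(z : ℚ) / q.den, ?_⟩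
  push_cast
  rw [← hz]
  field_simp

end Pool.Agent.Helper26.LV
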