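import Pool.Agent.Helper26.LV.Defs

set_option autoImplicit false

namespace Pool.Agent.Helper26.LV

open Finset Filter Topology

/-- the quotient `f n / n` is multiplicative -/
private theorem ratio_mul (f : ℕ → ℕ)
    (hmul : ∀ a b : ℕ, Nat.Coprime a b → f (a * b) = f a * f b) (a b : ℕ) (h : Nat.Coprime a b) :
    (f (a * b) : ℝ) / ((a * b : ℕ) : ℝ) = ((f a : ℝ) / a) * ((f b : ℝ) / b) := by
  rw [hmul a b h]
  push_cast
  rw [mul_div_mul_comm]

private theorem ratio_prod (f : ℕ → ℕ) (hf1 : f 1 = 1)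
    (hmul : ∀ a b : ℕ, Nat.Coprime a b → f (a * b) = f a * f b) (n : ℕ) (hn : n ≠ 0) :
    (f n : ℝ) / n = ∏ p ∈ n.primeFactors,
      ((f (p ^ n.factorization p) : ℝ) / ((p ^ n.factorization p : ℕ) : ℝ)) := by
  have h := Nat.multiplicative_factorization (fun n : ℕ => (f n : ℝ) / (n : ℝ))
    (fun a b hab => ratio_mul f hmul a b hab) (by simp [hf1]) hn
  exact h

private theorem ratio_local (f : ℕ → ℕ) (C : ℝ)
    (hC : ∀ p i : ℕ, p.Prime → 1 ≤ i → |(f (p ^ i) : ℝ) - p ^ i| ≤ C * p ^ (i - 1))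
    (p i : ℕ) (hp : p.Prime) (hi : 1 ≤ i) :
    |(f (p ^ i) : ℝ) / ((p ^ i : ℕ) : ℝ) - 1| ≤ C * (1 / p) := by
  have hp0 : (0 : ℝ) < p := by exact_mod_cast hp.pos
  have hpi : (0 : ℝ) < (p : ℝ) ^ i := by positivity
  have h1 : (f (p ^ i) : ℝ) / ((p ^ i : ℕ) : ℝ) - 1 = ((f (p ^ i) : ℝ) - p ^ i) / p ^ i := by
    push_cast
    field_simp
  rw [h1, abs_div, abs_of_pos hpi, div_le_iff₀ hpi]
  refine (hC p i hp hi).trans (le_of_eq ?_)
  obtain ⟨j, rfl⟩ : ∃ j, i = j + 1 := ⟨i - 1, by omega⟩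
  simp only [Nat.add_sub_cancel]
  rw [pow_succ]
  field_simp

private theorem ratio_C (f : ℕ → ℕ) (C : ℝ)
    (hC : ∀ p i : ℕ, p.Prime → 1 ≤ i → |(f (p ^ i) : ℝ) - p ^ i| ≤ C * p ^ (i - 1)) : 0 ≤ C := by
  have h := (abs_nonneg _).trans (hC 2 1 Nat.prime_two le_rfl)
  simpa using h

private theorem ratio_fact_pos (e q : ℕ) (hq : q ∈ e.primeFactors) : 1 ≤ e.factorization q := by
  have h := Nat.mem_primeFactors.mp hq
  exact (h.1.dvd_iff_one_le_factorization h.2.2).mp h.2.1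

private theorem ratio_coprime (k s e : ℕ) (hs1 : 1 ≤ s) (hsk : s ≤ k)
    (he : ∀ q : ℕ, q.Prime → q ∣ e → k < q) : Nat.Coprime s e := by
  refine Nat.coprime_of_dvd fun q hq h1 h2 => ?_
  have := he q hq h2
  have := Nat.le_of_dvd hs1 h1
  omega

private theorem ratio_harm (s k : ℕ) (hs1 : 1 ≤ s) (hsk : s ≤ k) :
    ∑ p ∈ s.primeFactors, (1 : ℝ) / p ≤ 1 + Real.log k := by
  have h1 : ∑ p ∈ s.primeFactors, (1 : ℝ) / p ≤ ∑ p ∈ Finset.Icc 1 k, (1 : ℝ) / p := by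
    refine Finset.sum_le_sum_of_subset_of_nonneg ?_ fun i _ _ => by positivity
    intro p hp
    have h := Nat.mem_primeFactors.mp hp
    rw [Finset.mem_Icc]
    exact ⟨h.1.pos, (Nat.le_of_dvd hs1 h.2.1).trans hsk⟩
  have h2 := harmonic_le_one_add_log k
  rw [harmonic_eq_sum_Icc] at h2
  push_cast at h2
  refine h1.trans (le_trans (le_of_eq ?_) h2)
  exact Finset.sum_congr rfl fun i _ => by rw [one_div]

private theorem ratio_weier {ι : Type} (s : Finset ι) (g : ι → ℝ)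
    (h0 : ∀ i ∈ s, 0 ≤ g i) (h1 : ∀ i ∈ s, g i ≤ 1) :
    1 - ∑ i ∈ s, g i ≤ ∏ i ∈ s, (1 - g i) := by
  classical
  induction s using Finset.induction_on with
  | empty => simp
  | insert a s ha ih =>
    rw [Finset.sum_insert ha, Finset.prod_insert ha]
    have ih' := ih (fun i hi => h0 i (Finset.mem_insert_of_mem hi))
      (fun i hi => h1 i (Finset.mem_insert_of_mem hi))
    have ha0 := h0 a (Finset.mem_insert_self a s)
    have ha1 := h1 a (Finset.mem_insert_self a s)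
    have hs0 : 0 ≤ ∑ i ∈ s, g i :=
      Finset.sum_nonneg fun i hi => h0 i (Finset.mem_insert_of_mem hi)
    have hp : (1 - g a) * (1 - ∑ i ∈ s, g i) ≤ (1 - g a) * ∏ i ∈ s, (1 - g i) :=
      mul_le_mul_of_nonneg_left ih' (by linarith)
    nlinarith

private theorem ratio_one_le {ι : Type} (s : Finset ι) (g : ι → ℝ) (h : ∀ i ∈ s, 1 ≤ g i) :
    1 ≤ ∏ i ∈ s, g i := by
  calc (1 : ℝ) = ∏ i ∈ s, (1 : ℝ) := by simp
    _ ≤ ∏ i ∈ s, g i := Finset.prod_le_prod (fun _ _ => zero_le_one) h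

private theorem ratio_evA (C : ℝ) : ∀ᶠ k : ℕ in atTop,
    2 * C * (2 / 3 : ℝ) ^ k ≤ 1 ∧
    Real.exp (C * (1 + Real.log k)) * (4 * C * (2 / 3 : ℝ) ^ k) < (3 / 4) ^ k := by
  have h1 : Tendsto (fun k : ℕ => 2 * C * (2 / 3 : ℝ) ^ k) atTop (𝓝 (2 * C * 0)) :=
    (tendsto_pow_atTop_nhds_zero_of_lt_one (by norm_num) (by norm_num)).const_mul _
  rw [mul_zero] at h1
  have h2 : Tendsto (fun k : ℕ => (Real.exp C * (4 * |C|)) * ((k : ℝ) ^ (⌈|C|⌉₊) * (8 / 9 : ℝ) ^ k))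
      atTop (𝓝 ((Real.exp C * (4 * |C|)) * 0)) :=
    (tendsto_pow_const_mul_const_pow_of_abs_lt_one _ (by norm_num [abs_lt])).const_mul _
  rw [mul_zero] at h2
  filter_upwards [h1.eventually (gt_mem_nhds (show (0 : ℝ) < 1 by norm_num)),
    h2.eventually (gt_mem_nhds (show (0 : ℝ) < 1 by norm_num)), eventually_ge_atTop 1]
    with k hk1 hk2 hk
  refine ⟨hk1.le, ?_⟩
  have hk0 : (1 : ℝ) ≤ k := by exact_mod_cast hk
  have hlog : 0 ≤ Real.log k := Real.log_nonneg hk0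
  have hexp : Real.exp (C * (1 + Real.log k)) ≤ Real.exp C * (k : ℝ) ^ (⌈|C|⌉₊) := by
    have h3 : C * (1 + Real.log k) ≤ C + (⌈|C|⌉₊ : ℝ) * Real.log k := by
      have h4 : C ≤ (⌈|C|⌉₊ : ℝ) := (le_abs_self C).trans (Nat.le_ceil _)
      nlinarith
    calc Real.exp (C * (1 + Real.log k)) ≤ Real.exp (C + (⌈|C|⌉₊ : ℝ) * Real.log k) :=
          Real.exp_le_exp.mpr h3
      _ = Real.exp C * (k : ℝ) ^ (⌈|C|⌉₊) := by
          rw [Real.exp_add, Real.exp_nat_mul, Real.exp_log (by linarith)]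
  have h5 : Real.exp (C * (1 + Real.log k)) * (4 * C * (2 / 3 : ℝ) ^ k) ≤
      (Real.exp C * (k : ℝ) ^ (⌈|C|⌉₊)) * (4 * |C| * (2 / 3 : ℝ) ^ k) := by
    calc Real.exp (C * (1 + Real.log k)) * (4 * C * (2 / 3 : ℝ) ^ k) ≤
        Real.exp (C * (1 + Real.log k)) * (4 * |C| * (2 / 3 : ℝ) ^ k) := by
          refine mul_le_mul_of_nonneg_left ?_ (Real.exp_pos _).le
          refine mul_le_mul_of_nonneg_right ?_ (by positivity)
          linarith [le_abs_self C]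
      _ ≤ _ := mul_le_mul_of_nonneg_right hexp (by positivity)
  refine lt_of_le_of_lt h5 ?_
  have h6 : (2 / 3 : ℝ) ^ k = (8 / 9) ^ k * (3 / 4) ^ k := by
    rw [← mul_pow]
    norm_num
  rw [h6]
  have h7 : (0 : ℝ) < (3 / 4) ^ k := by positivity
  calc Real.exp C * (k : ℝ) ^ (⌈|C|⌉₊) * (4 * |C| * ((8 / 9) ^ k * (3 / 4) ^ k)) =
      (Real.exp C * (4 * |C|) * ((k : ℝ) ^ (⌈|C|⌉₊) * (8 / 9 : ℝ) ^ k)) * (3 / 4) ^ k := by ring
    _ < 1 * (3 / 4) ^ k := mul_lt_mul_of_pos_right hk2 h7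
    _ = (3 / 4) ^ k := one_mul _

/-- the quotients `f n / n` -/
theorem ratio_up (f : ℕ → ℕ) (C : ℝ) (hf1 : f 1 = 1)
    (hmul : ∀ a b : ℕ, Nat.Coprime a b → f (a * b) = f a * f b)
    (hup : ∀ p i : ℕ, p.Prime → 1 ≤ i → p ^ i < f (p ^ i))
    (hC : ∀ p i : ℕ, p.Prime → 1 ≤ i → |(f (p ^ i) : ℝ) - p ^ i| ≤ C * p ^ (i - 1)) :
    ∀ᶠ k : ℕ in atTop, ∀ s, 1 ≤ s → s ≤ k → ∀ e, 1 < e →
      (∀ q : ℕ, q.Prime → q ∣ e → k < q) → ∑ q ∈ e.primeFactors, (1 : ℝ) / q ≤ 2 * (2 / 3) ^ k →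
      (f s : ℝ) / s < (f (s * e) : ℝ) / ((s * e : ℕ) : ℝ) ∧
      (f (s * e) : ℝ) / ((s * e : ℕ) : ℝ) < (f s : ℝ) / s + (3 / 4) ^ k := by
  have hC0 := ratio_C f C hC
  -- general facts about quotients
  have hgt : ∀ p i : ℕ, p.Prime → 1 ≤ i → 1 < (f (p ^ i) : ℝ) / ((p ^ i : ℕ) : ℝ) := by
    intro p i hp hi
    have hpos : (0 : ℝ) < ((p ^ i : ℕ) : ℝ) := by exact_mod_cast pow_pos hp.pos i
    rw [one_lt_div hpos]
    exact_mod_cast hup p i hp hi
  have hone : ∀ n : ℕ, n ≠ 0 → 1 ≤ (f n : ℝ) / n := by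
    intro n hn
    rw [ratio_prod f hf1 hmul n hn]
    refine ratio_one_le _ _ ?_
    intro p hp
    exact (hgt p _ (Nat.prime_of_mem_primeFactors hp) (ratio_fact_pos n p hp)).le
  have hle : ∀ n : ℕ, n ≠ 0 → (f n : ℝ) / n ≤ Real.exp (C * ∑ p ∈ n.primeFactors, (1 : ℝ) / p) := by
    intro n hn
    rw [ratio_prod f hf1 hmul n hn, Finset.mul_sum, Real.exp_sum]
    refine Finset.prod_le_prod ?_ ?_
    · intro p hp
      exact zero_le_one.trans (hgt p _ (Nat.prime_of_mem_primeFactors hp) (ratio_fact_pos n p hp)).le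
    · intro p hp
      have h1 := (abs_le.mp (ratio_local f C hC p _ (Nat.prime_of_mem_primeFactors hp)
        (ratio_fact_pos n p hp))).2
      have h2 := Real.add_one_le_exp (C * (1 / (p : ℝ)))
      linarith
  filter_upwards [ratio_evA C] with k hk s hs1 hsk e he1 hq hsum
  have hs0 : s ≠ 0 := by omega
  have he0 : e ≠ 0 := by omega
  rw [ratio_mul f hmul s e (ratio_coprime k s e hs1 hsk hq)]
  have hse := hone s hs0
  have hs_pos : 0 < (f s : ℝ) / s := by linarith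
  -- `1 < ρ e`
  have hegt : 1 < (f e : ℝ) / e := by
    rw [ratio_prod f hf1 hmul e he0]
    obtain ⟨q, hq1⟩ := Nat.nonempty_primeFactors.mpr he1
    rw [← Finset.mul_prod_erase _ _ hq1]
    have h1 := hgt q _ (Nat.prime_of_mem_primeFactors hq1) (ratio_fact_pos e q hq1)
    have h2 : 1 ≤ ∏ x ∈ e.primeFactors.erase q,
        ((f (x ^ e.factorization x) : ℝ) / ((x ^ e.factorization x : ℕ) : ℝ)) := by
      refine ratio_one_le _ _ ?_
      intro p hp
      have hp' := Finset.mem_of_mem_erase hp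
      exact (hgt p _ (Nat.prime_of_mem_primeFactors hp') (ratio_fact_pos e p hp')).le
    nlinarith
  have hele : (f e : ℝ) / e - 1 ≤ 4 * C * (2 / 3 : ℝ) ^ k := by
    have h1 := hle e he0
    have h2 : C * ∑ p ∈ e.primeFactors, (1 : ℝ) / p ≤ 2 * C * (2 / 3 : ℝ) ^ k := by
      calc C * ∑ p ∈ e.primeFactors, (1 : ℝ) / p ≤ C * (2 * (2 / 3) ^ k) :=
            mul_le_mul_of_nonneg_left hsum hC0
        _ = 2 * C * (2 / 3 : ℝ) ^ k := by ring
    have h3 : 0 ≤ 2 * C * (2 / 3 : ℝ) ^ k := by positivity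
    have h4 := Real.abs_exp_sub_one_le (x := 2 * C * (2 / 3 : ℝ) ^ k) (by
      rw [abs_of_nonneg h3]
      exact hk.1)
    rw [abs_of_nonneg h3] at h4
    have h5 := (abs_le.mp h4).2
    have h6 := h1.trans (Real.exp_le_exp.mpr h2)
    linarith
  have hsle : (f s : ℝ) / s ≤ Real.exp (C * (1 + Real.log k)) := by
    refine (hle s hs0).trans (Real.exp_le_exp.mpr ?_)
    exact mul_le_mul_of_nonneg_left (ratio_harm s k hs1 hsk) hC0
  constructor
  · nlinarith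
  · have h1 : (f s : ℝ) / s * ((f e : ℝ) / e) - (f s : ℝ) / s ≤
        Real.exp (C * (1 + Real.log k)) * (4 * C * (2 / 3 : ℝ) ^ k) := by
      calc (f s : ℝ) / s * ((f e : ℝ) / e) - (f s : ℝ) / s = (f s : ℝ) / s * ((f e : ℝ) / e - 1) := by
            ring
        _ ≤ Real.exp (C * (1 + Real.log k)) * (4 * C * (2 / 3 : ℝ) ^ k) :=
            mul_le_mul hsle hele (by linarith) (Real.exp_pos _).le
    linarith [hk.2]

theorem ratio_down (f : ℕ → ℕ) (C : ℝ) (hf1 : f 1 = 1) (hpos : ∀ n, 0 < n → 0 < f n)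
    (hmul : ∀ a b : ℕ, Nat.Coprime a b → f (a * b) = f a * f b)
    (hdown : ∀ p i : ℕ, p.Prime → 1 ≤ i → f (p ^ i) < p ^ i)
    (hC : ∀ p i : ℕ, p.Prime → 1 ≤ i → |(f (p ^ i) : ℝ) - p ^ i| ≤ C * p ^ (i - 1)) :
    ∀ᶠ k : ℕ in atTop, ∀ s, 1 ≤ s → s ≤ k → ∀ e, 1 < e →
      (∀ q : ℕ, q.Prime → q ∣ e → k < q) → ∑ q ∈ e.primeFactors, (1 : ℝ) / q ≤ 2 * (2 / 3) ^ k →
      -((f s : ℝ) / s) < -((f (s * e) : ℝ) / ((s * e : ℕ) : ℝ)) ∧
      -((f (s * e) : ℝ) / ((s * e : ℕ) : ℝ)) < -((f s : ℝ) / s) + (3 / 4) ^ k := by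
  have hC0 := ratio_C f C hC
  have hlt : ∀ p i : ℕ, p.Prime → 1 ≤ i → (f (p ^ i) : ℝ) / ((p ^ i : ℕ) : ℝ) < 1 := by
    intro p i hp hi
    have hpos : (0 : ℝ) < ((p ^ i : ℕ) : ℝ) := by exact_mod_cast pow_pos hp.pos i
    rw [div_lt_one hpos]
    exact_mod_cast hdown p i hp hi
  have hgt0 : ∀ p i : ℕ, p.Prime → 0 < (f (p ^ i) : ℝ) / ((p ^ i : ℕ) : ℝ) := by
    intro p i hp
    have h1 : (0 : ℝ) < ((p ^ i : ℕ) : ℝ) := by exact_mod_cast pow_pos hp.pos i
    have h2 : (0 : ℝ) < (f (p ^ i) : ℝ) := by exact_mod_cast hpos _ (pow_pos hp.pos i)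
    positivity
  have hone : ∀ n : ℕ, n ≠ 0 → (f n : ℝ) / n ≤ 1 := by
    intro n hn
    rw [ratio_prod f hf1 hmul n hn]
    refine Finset.prod_le_one ?_ ?_
    · intro p hp
      exact (hgt0 p _ (Nat.prime_of_mem_primeFactors hp)).le
    · intro p hp
      exact (hlt p _ (Nat.prime_of_mem_primeFactors hp) (ratio_fact_pos n p hp)).le
  filter_upwards [ratio_evA C] with k hk s hs1 hsk e he1 hq hsum
  have hs0 : s ≠ 0 := by omega
  have he0 : e ≠ 0 := by omega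
  rw [ratio_mul f hmul s e (ratio_coprime k s e hs1 hsk hq)]
  have hse := hone s hs0
  have hs_pos : 0 < (f s : ℝ) / s := by
    have h1 : (0 : ℝ) < s := by exact_mod_cast hs1
    have h2 : (0 : ℝ) < (f s : ℝ) := by exact_mod_cast hpos s hs1
    positivity
  have helt : (f e : ℝ) / e < 1 := by
    rw [ratio_prod f hf1 hmul e he0]
    obtain ⟨q, hq1⟩ := Nat.nonempty_primeFactors.mpr he1
    rw [← Finset.mul_prod_erase _ _ hq1]
    have h1 := hlt q _ (Nat.prime_of_mem_primeFactors hq1) (ratio_fact_pos e q hq1)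
    have h0 := hgt0 q (e.factorization q) (Nat.prime_of_mem_primeFactors hq1)
    have h2 : ∏ x ∈ e.primeFactors.erase q,
        ((f (x ^ e.factorization x) : ℝ) / ((x ^ e.factorization x : ℕ) : ℝ)) ≤ 1 := by
      refine Finset.prod_le_one ?_ ?_
      · intro p hp
        exact (hgt0 p _ (Nat.prime_of_mem_primeFactors (Finset.mem_of_mem_erase hp))).le
      · intro p hp
        have hp' := Finset.mem_of_mem_erase hp
        exact (hlt p _ (Nat.prime_of_mem_primeFactors hp') (ratio_fact_pos e p hp')).le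
    nlinarith
  have hege : 1 - 2 * C * (2 / 3 : ℝ) ^ k ≤ (f e : ℝ) / e := by
    rw [ratio_prod f hf1 hmul e he0]
    have h1 := ratio_weier e.primeFactors
      (fun x => 1 - (f (x ^ e.factorization x) : ℝ) / ((x ^ e.factorization x : ℕ) : ℝ)) (by
        intro p hp
        have := hlt p _ (Nat.prime_of_mem_primeFactors hp) (ratio_fact_pos e p hp)
        linarith) (by
        intro p hp
        have := hgt0 p (e.factorization p) (Nat.prime_of_mem_primeFactors hp)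
        linarith)
    have h2 : ∏ x ∈ e.primeFactors,
        (1 - (1 - (f (x ^ e.factorization x) : ℝ) / ((x ^ e.factorization x : ℕ) : ℝ))) =
        ∏ x ∈ e.primeFactors,
        ((f (x ^ e.factorization x) : ℝ) / ((x ^ e.factorization x : ℕ) : ℝ)) :=
      Finset.prod_congr rfl fun x _ => by ring
    rw [h2] at h1
    refine le_trans ?_ h1
    have h3 : ∑ x ∈ e.primeFactors,
        (1 - (f (x ^ e.factorization x) : ℝ) / ((x ^ e.factorization x : ℕ) : ℝ)) ≤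
        ∑ x ∈ e.primeFactors, C * (1 / (x : ℝ)) := by
      refine Finset.sum_le_sum fun p hp => ?_
      have h4 := (abs_le.mp (ratio_local f C hC p _ (Nat.prime_of_mem_primeFactors hp)
        (ratio_fact_pos e p hp))).1
      linarith
    rw [← Finset.mul_sum] at h3
    have h5 : C * ∑ p ∈ e.primeFactors, (1 : ℝ) / p ≤ 2 * C * (2 / 3 : ℝ) ^ k := by
      calc C * ∑ p ∈ e.primeFactors, (1 : ℝ) / p ≤ C * (2 * (2 / 3) ^ k) :=
            mul_le_mul_of_nonneg_left hsum hC0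
        _ = 2 * C * (2 / 3 : ℝ) ^ k := by ring
    linarith
  constructor
  · nlinarith
  · have hlast : 2 * C * (2 / 3 : ℝ) ^ k < (3 / 4) ^ k := by
      have h1 : 1 ≤ Real.exp (C * (1 + Real.log k)) := by
        rw [Real.one_le_exp_iff]
        rcases Nat.eq_zero_or_pos k with h | h
        · subst h
          simpa using hC0
        · have : 0 ≤ Real.log k := Real.log_nonneg (by exact_mod_cast h)
          positivity
      have h2 : 0 ≤ 4 * C * (2 / 3 : ℝ) ^ k := by positivity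
      have h3 : 2 * C * (2 / 3 : ℝ) ^ k ≤ 4 * C * (2 / 3 : ℝ) ^ k := by
        have : 0 ≤ C * (2 / 3 : ℝ) ^ k := by positivity
        nlinarith
      have h4 : 4 * C * (2 / 3 : ℝ) ^ k ≤
          Real.exp (C * (1 + Real.log k)) * (4 * C * (2 / 3 : ℝ) ^ k) := by nlinarith
      linarith [hk.2]
    have h6 : (f s : ℝ) / s - (f s : ℝ) / s * ((f e : ℝ) / e) ≤ 2 * C * (2 / 3 : ℝ) ^ k := by
      calc (f s : ℝ) / s - (f s : ℝ) / s * ((f e : ℝ) / e) = (f s : ℝ) / s * (1 - (f e : ℝ) / e) := by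
            ring
        _ ≤ 1 * (2 * C * (2 / 3 : ℝ) ^ k) :=
            mul_le_mul hse (by linarith) (by linarith) zero_le_one
        _ = 2 * C * (2 / 3 : ℝ) ^ k := one_mul _
    linarith

end Pool.Agent.Helper26.LV
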